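import Mathlib

namespace Stall

private theorem Ana_upper {a : ℝ} (ha : 0 ≤ a) : Real.exp (-a) ≤ 1 - a + a ^ 2 / 2 := by
  have h1 : 1 + a + a ^ 2 / 2 ≤ Real.exp a := Real.quadratic_le_exp_of_nonneg ha
  have h2 : Real.exp (-a) * Real.exp a = 1 := by
    rw [← Real.exp_add, neg_add_cancel, Real.exp_zero]
  have h3 : 0 < Real.exp (-a) := Real.exp_pos _
  have h4 : Real.exp (-a) * (1 + a + a ^ 2 / 2) ≤ 1 := by
    have h8 := mul_le_mul_of_nonneg_left h1 h3.le
    linarith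
  have h5 : 0 < 1 + a + a ^ 2 / 2 := by positivity
  have h6 : Real.exp (-a) * (1 + a + a ^ 2 / 2) ≤
      (1 - a + a ^ 2 / 2) * (1 + a + a ^ 2 / 2) := by
    have h7 : (1 - a + a ^ 2 / 2) * (1 + a + a ^ 2 / 2) = 1 + a ^ 4 / 4 := by ring
    rw [h7]
    have : 0 ≤ a ^ 4 / 4 := by positivity
    linarith
  exact le_of_mul_le_mul_right h6 h5

private theorem Ana_lower {a : ℝ} (ha : 0 ≤ a) :
    1 - a + a ^ 2 / 2 - a ^ 3 / 6 ≤ Real.exp (-a) := by
  have hd : ∀ x : ℝ, HasDerivAt (fun x : ℝ => Real.exp (-x) - (1 - x + x ^ 2 / 2 - x ^ 3 / 6))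
      (-Real.exp (-x) - (-1 + x - x ^ 2 / 2)) x := by
    intro x
    have h1 : HasDerivAt (fun x : ℝ => Real.exp (-x)) (-Real.exp (-x)) x := by
      simpa using (hasDerivAt_neg x).exp
    have h2 : HasDerivAt (fun x : ℝ => 1 - x + x ^ 2 / 2 - x ^ 3 / 6) (-1 + x - x ^ 2 / 2) x := by
      have e1 := (hasDerivAt_id x).const_sub 1
      have e2 := (hasDerivAt_pow 2 x).div_const 2
      have e3 := (hasDerivAt_pow 3 x).div_const 6
      have e4 := (e1.add e2).sub e3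
      refine e4.congr_deriv ?_
      norm_num
      ring
    exact h1.sub h2
  have hm : MonotoneOn (fun x : ℝ => Real.exp (-x) - (1 - x + x ^ 2 / 2 - x ^ 3 / 6))
      (Set.Ici 0) := by
    refine monotoneOn_of_deriv_nonneg (convex_Ici 0)
      (fun x _ => (hd x).continuousAt.continuousWithinAt)
      (fun x _ => (hd x).differentiableAt.differentiableWithinAt) fun x hx => ?_
    rw [interior_Ici] at hx
    rw [(hd x).deriv]
    have := Ana_upper (le_of_lt hx)
    linarith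
  have h := hm (Set.self_mem_Ici) ha ha
  simp only [neg_zero, Real.exp_zero] at h
  norm_num at h
  linarith

/-
PROOF. t ≥ 0: exp t ≥ 1 + t + t^2/2 (Real.quadratic_le_exp_of_nonneg), so the right side is at
least 2 (1+t) t^2/2 ≥ t^2.
t = -a, a ≥ 0: to show a^2 ≤ 2 (1+a) (exp (-a) - 1 + a), i.e. (2 - a^2) exp a ≤ 2 (1 + a).
The function φ(a) = 2 (1 + a) - (2 - a^2) exp a has φ(0) = 0 and
φ'(a) = 2 - (2 - 2a - a^2) exp a, φ''(a) = (4a + a^2) exp a ≥ 0, φ'(0) = 0, so φ' ≥ 0 and φ ≥ 0 on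
[0, ∞). (Or: it is enough to show (2 - a^2) ≤ 2 (1 + a) exp (-a), with any lower bound of exp (-a).)
-/
theorem sq_le_exp (t : ℝ) : t ^ 2 ≤ 2 * (1 + |t|) * (Real.exp t - 1 - t) := by
  rcases le_total 0 t with ht | ht
  · rw [abs_of_nonneg ht]
    have h1 : 1 + t + t ^ 2 / 2 ≤ Real.exp t := Real.quadratic_le_exp_of_nonneg ht
    have h2 : t ^ 2 / 2 ≤ Real.exp t - 1 - t := by linarith
    have h3 : 2 * (1 + t) * (t ^ 2 / 2) ≤ 2 * (1 + t) * (Real.exp t - 1 - t) :=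
      mul_le_mul_of_nonneg_left h2 (by positivity)
    have h4 : 0 ≤ t ^ 3 := by positivity
    nlinarith
  · obtain ⟨a, rfl⟩ : ∃ a, t = -a := ⟨-t, by ring⟩
    have ha : 0 ≤ a := by linarith
    rw [abs_neg, abs_of_nonneg ha]
    rcases le_total a 2 with h2 | h2
    · have h1 := Ana_lower ha
      have h3 : 2 * (1 + a) * (a ^ 2 / 2 - a ^ 3 / 6) ≤
          2 * (1 + a) * (Real.exp (-a) - 1 - -a) :=
        mul_le_mul_of_nonneg_left (by linarith) (by positivity)
      have h4 : 0 ≤ a ^ 3 * (2 - a) := mul_nonneg (by positivity) (by linarith)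
      have h5 : 2 * (1 + a) * (a ^ 2 / 2 - a ^ 3 / 6) = a ^ 2 + a ^ 3 * (2 - a) / 3 := by ring
      nlinarith
    · have h1 : 0 < Real.exp (-a) := Real.exp_pos _
      have h3 : 2 * (1 + a) * (-1 + a) ≤ 2 * (1 + a) * (Real.exp (-a) - 1 - -a) :=
        mul_le_mul_of_nonneg_left (by linarith) (by positivity)
      nlinarith

end Stall
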