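import Pool.Agent.H.MP_4f19f9_lc.h56.Defs

namespace Stall

open Finset

private theorem cod_two (e : Fin 2) : e = 0 ∨ e = 1 := by
  revert e
  decide

private def codA {I : Type} {m2 m1 m0 : I → ℕ} {N : ℕ} (J : Fin N → AC m2 m1 m0) (i : I)
    (t : Fin N) : Prop := ∃ b, J t = ⟨i, Sum.inl b⟩

private def codB {I : Type} {m2 m1 m0 : I → ℕ} {N : ℕ} (J : Fin N → AC m2 m1 m0) (i : I)
    (t : Fin N) : Prop := ∃ b, J t = ⟨i, Sum.inr (Sum.inl b)⟩

private def codW {I : Type} {m2 m1 m0 : I → ℕ} {N : ℕ} (J : Fin N → AC m2 m1 m0) (i : I)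
    (t : Fin N) : Prop := ∃ b, J t = ⟨i, Sum.inr (Sum.inr b)⟩

private def codU {I : Type} {m2 m1 m0 : I → ℕ} {N : ℕ} (J : Fin N → AC m2 m1 m0) (i : I)
    (s : Fin N × Fin 2) : Prop := codA J i s.1 ∨ (codB J i s.1 ∧ s.2 = 0)

open Classical in
private theorem cod_cardU {I : Type} {m2 m1 m0 : I → ℕ} {N : ℕ} (J : Fin N → AC m2 m1 m0) (i : I) :
    Fintype.card {s // codU J i s} = 2 * (univ.filter (fun t => codA J i t)).card +
      (univ.filter (fun t => codB J i t)).card := by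
  rw [Fintype.card_subtype]
  have h : (univ.filter (fun s : Fin N × Fin 2 => codU J i s)) =
      (univ.filter (fun t => codA J i t)) ×ˢ (univ : Finset (Fin 2)) ∪
        (univ.filter (fun t => codB J i t)) ×ˢ ({0} : Finset (Fin 2)) := by
    ext s
    simp only [Finset.mem_filter, Finset.mem_union, Finset.mem_product, Finset.mem_univ, true_and,
      and_true, Finset.mem_singleton]
    rfl
  rw [h, Finset.card_union_of_disjoint]
  · rw [Finset.card_product, Finset.card_product]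
    simp
    ring
  · rw [Finset.disjoint_left]
    intro s hs hs'
    simp only [Finset.mem_product, Finset.mem_filter, Finset.mem_univ, true_and, and_true] at hs hs'
    obtain ⟨b, hb⟩ := hs
    obtain ⟨⟨b', hb'⟩, -⟩ := hs'
    rw [hb] at hb'
    simp at hb'

/-- The letter x at the place t for the values φ at the slots. -/
private def codP {I : Type} (X : I → Type) {m2 m1 m0 : I → ℕ} {N : ℕ} (J : Fin N → AC m2 m1 m0)
    (σ : ∀ i, {t // codW J i t} ≃ {s // codU J i s}) (φ : ∀ i, {s // codU J i s} → X i)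
    (t : Fin N) (a : AV X m2 m1 m0) : Prop :=
  (∀ i b (h : J t = ⟨i, Sum.inl b⟩),
    a = ⟨i, Sum.inl (b, (φ i ⟨(t, 0), Or.inl ⟨b, h⟩⟩, φ i ⟨(t, 1), Or.inl ⟨b, h⟩⟩))⟩) ∧
  (∀ i b (h : J t = ⟨i, Sum.inr (Sum.inl b)⟩),
    a = ⟨i, Sum.inr (Sum.inl (b, φ i ⟨(t, 0), Or.inr ⟨⟨b, h⟩, rfl⟩⟩))⟩) ∧
  (∀ i b (h : J t = ⟨i, Sum.inr (Sum.inr b)⟩),
    a = ⟨i, Sum.inr (Sum.inr (b, φ i (σ i ⟨t, ⟨b, h⟩⟩)))⟩)

private theorem cod_ex {I : Type} (X : I → Type) {m2 m1 m0 : I → ℕ} {N : ℕ}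
    (J : Fin N → AC m2 m1 m0)
    (σ : ∀ i, {t // codW J i t} ≃ {s // codU J i s}) (φ : ∀ i, {s // codU J i s} → X i)
    (t : Fin N) : ∃ a : AV X m2 m1 m0, codP X J σ φ t a := by
  rcases hJ : J t with ⟨i, b | b | b⟩
  · refine ⟨⟨i, Sum.inl (b, (φ i ⟨(t, 0), Or.inl ⟨b, hJ⟩⟩, φ i ⟨(t, 1), Or.inl ⟨b, hJ⟩⟩))⟩,
      ?_, ?_, ?_⟩
    · intro i' b' h
      obtain ⟨rfl, h2⟩ := Sigma.mk.inj_iff.1 (hJ.symm.trans h)
      obtain rfl := Sum.inl.inj (eq_of_heq h2)
      rfl
    · intro i' b' h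
      obtain ⟨rfl, h2⟩ := Sigma.mk.inj_iff.1 (hJ.symm.trans h)
      exact absurd (eq_of_heq h2) (by simp)
    · intro i' b' h
      obtain ⟨rfl, h2⟩ := Sigma.mk.inj_iff.1 (hJ.symm.trans h)
      exact absurd (eq_of_heq h2) (by simp)
  · refine ⟨⟨i, Sum.inr (Sum.inl (b, φ i ⟨(t, 0), Or.inr ⟨⟨b, hJ⟩, rfl⟩⟩))⟩, ?_, ?_, ?_⟩
    · intro i' b' h
      obtain ⟨rfl, h2⟩ := Sigma.mk.inj_iff.1 (hJ.symm.trans h)
      exact absurd (eq_of_heq h2) (by simp)
    · intro i' b' h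
      obtain ⟨rfl, h2⟩ := Sigma.mk.inj_iff.1 (hJ.symm.trans h)
      obtain rfl := Sum.inl.inj (Sum.inr.inj (eq_of_heq h2))
      rfl
    · intro i' b' h
      obtain ⟨rfl, h2⟩ := Sigma.mk.inj_iff.1 (hJ.symm.trans h)
      exact absurd (eq_of_heq h2) (by simp)
  · refine ⟨⟨i, Sum.inr (Sum.inr (b, φ i (σ i ⟨t, ⟨b, hJ⟩⟩)))⟩, ?_, ?_, ?_⟩
    · intro i' b' h
      obtain ⟨rfl, h2⟩ := Sigma.mk.inj_iff.1 (hJ.symm.trans h)
      exact absurd (eq_of_heq h2) (by simp)
    · intro i' b' h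
      obtain ⟨rfl, h2⟩ := Sigma.mk.inj_iff.1 (hJ.symm.trans h)
      exact absurd (eq_of_heq h2) (by simp)
    · intro i' b' h
      obtain ⟨rfl, h2⟩ := Sigma.mk.inj_iff.1 (hJ.symm.trans h)
      obtain rfl := Sum.inr.inj (Sum.inr.inj (eq_of_heq h2))
      rfl

/-
PROOF. For i : I let U i be the set of slots: pairs (t, e) with t : Fin N, e : Fin 2, where
J t = ⟨i, inl b⟩ (e arbitrary) or J t = ⟨i, inr (inl b)⟩ and e = 0; and W i = the t with
J t = ⟨i, inr (inr b)⟩. card U i = 2 n2 i + n1 i = n0 i = card W i, choose a bijection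
σ i : W i ≃ U i. For a family φ : ∀ i, U i → X i define the word x_φ : at t
with J t = ⟨i, inl b⟩ the letter ⟨i, inl (b, (φ i (t,0), φ i (t,1)))⟩,
with J t = ⟨i, inr (inl b)⟩ the letter ⟨i, inr (inl (b, φ i (t,0)))⟩,
with J t = ⟨i, inr (inr b)⟩ the letter ⟨i, inr (inr (b, φ i (σ i t)))⟩.
Its types are J. If φ ≠ φ' there are i and a slot s in U i with φ i s ≠ φ' i s, hence RY or RZ holds
for the two elements (hYZ); if RY, the words are distinguishable in the coordinate t of s; if RZ, in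
the coordinate σ^{-1}(s) in W i. So φ ↦ x_φ is injective provided DA is irreflexive - to avoid
this: x_φ determines φ (read off the letters at the slots U i). S = image of all φ. Its cardinality
is prod_i card (X i) ^ card (U i).
-/
theorem code_balanced {I : Type} [Fintype I] [DecidableEq I] (X : I → Type)
    [∀ i, Fintype (X i)] (m2 m1 m0 : I → ℕ)
    (RY RZ : ∀ i, X i → X i → Prop) (hYZ : ∀ i (a b : X i), a ≠ b → RY i a b ∨ RZ i a b)
    (N : ℕ) (J : Fin N → AC m2 m1 m0)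
    (n2 n1 n0 : I → ℕ)
    (h2 : ∀ i, (univ.filter (fun t => ∃ b, J t = ⟨i, Sum.inl b⟩)).card = n2 i)
    (h1 : ∀ i, (univ.filter (fun t => ∃ b, J t = ⟨i, Sum.inr (Sum.inl b)⟩)).card = n1 i)
    (h0 : ∀ i, (univ.filter (fun t => ∃ b, J t = ⟨i, Sum.inr (Sum.inr b)⟩)).card = n0 i)
    (bal : ∀ i, 2 * n2 i + n1 i = n0 i) :
    ∃ S : Finset (Fin N → AV X m2 m1 m0), (∀ x ∈ S, ∀ t, ltA X m2 m1 m0 (x t) = J t) ∧
      (∀ x ∈ S, ∀ x' ∈ S, x ≠ x' → ∃ t, DA X m2 m1 m0 RY RZ (x t) (x' t)) ∧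
      S.card = ∏ i, Fintype.card (X i) ^ n0 i := by
  classical
  have hcU : ∀ i, Fintype.card {s // codU J i s} = n0 i := by
    intro i
    have a1 : (univ.filter (fun t => codA J i t)).card = n2 i := by
      rw [← h2 i]
      exact congrArg Finset.card (by
        ext t
        simp only [Finset.mem_filter, Finset.mem_univ, true_and]
        rfl)
    have a2 : (univ.filter (fun t => codB J i t)).card = n1 i := by
      rw [← h1 i]
      exact congrArg Finset.card (by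
        ext t
        simp only [Finset.mem_filter, Finset.mem_univ, true_and]
        rfl)
    rw [cod_cardU, ← bal i, a1, a2]
  have hcW : ∀ i, Fintype.card {t // codW J i t} = n0 i := by
    intro i
    rw [Fintype.card_subtype, ← h0 i]
    exact congrArg Finset.card (by
      ext t
      simp only [Finset.mem_filter, Finset.mem_univ, true_and]
      rfl)
  have hσ : ∀ i, Nonempty ({t // codW J i t} ≃ {s // codU J i s}) := fun i =>
    ⟨Fintype.equivOfCardEq ((hcW i).trans (hcU i).symm)⟩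
  obtain ⟨σ⟩ := Classical.nonempty_pi.2 hσ
  choose w hw using fun (φ : ∀ i, {s // codU J i s} → X i) (t : Fin N) => cod_ex X J σ φ t
  -- a slot where the families differ is seen in a letter
  have key : ∀ φ φ' : (∀ i, {s // codU J i s} → X i), φ ≠ φ' →
      ∃ i, ∃ s, φ i s ≠ φ' i s := by
    intro φ φ' hne
    by_contra hcon
    push Not at hcon
    exact hne (funext fun i => funext fun s => hcon i s)
  have inj : Function.Injective (fun φ => w φ) := by
    intro φ φ' heq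
    by_contra hne
    obtain ⟨i, ⟨⟨t, e⟩, hs⟩, hd⟩ := key φ φ' hne
    have ht : w φ t = w φ' t := congrFun heq t
    rcases hs with ⟨b, hb⟩ | ⟨⟨b, hb⟩, he⟩
    · have e1 := (hw φ t).1 i b hb
      have e2 := (hw φ' t).1 i b hb
      rw [ht, e2] at e1
      have e3 := eq_of_heq (Sigma.mk.inj_iff.1 e1).2
      have e4 := congrArg Prod.snd (Sum.inl.inj e3)
      rcases cod_two e with rfl | rfl
      · exact hd (congrArg Prod.fst e4).symm
      · exact hd (congrArg Prod.snd e4).symm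
    · simp only at he
      subst he
      have e1 := (hw φ t).2.1 i b hb
      have e2 := (hw φ' t).2.1 i b hb
      rw [ht, e2] at e1
      have e3 := eq_of_heq (Sigma.mk.inj_iff.1 e1).2
      have e4 := congrArg Prod.snd (Sum.inl.inj (Sum.inr.inj e3))
      exact hd e4.symm
  refine ⟨Finset.univ.image (fun φ => w φ), ?_, ?_, ?_⟩
  · intro x hx t
    obtain ⟨φ, -, rfl⟩ := Finset.mem_image.1 hx
    show ltA X m2 m1 m0 (w φ t) = J t
    rcases hJ : J t with ⟨i, b | b | b⟩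
    · rw [(hw φ t).1 i b hJ]
      rfl
    · rw [(hw φ t).2.1 i b hJ]
      rfl
    · rw [(hw φ t).2.2 i b hJ]
      rfl
  · intro x hx x' hx' hne
    obtain ⟨φ, -, rfl⟩ := Finset.mem_image.1 hx
    obtain ⟨φ', -, rfl⟩ := Finset.mem_image.1 hx'
    have hne' : φ ≠ φ' := fun h => hne (by rw [h])
    obtain ⟨i, s, hd⟩ := key φ φ' hne'
    rcases hYZ i _ _ hd with h | h
    · obtain ⟨⟨t, e⟩, hs⟩ := s
      refine ⟨t, ?_⟩
      rcases hs with ⟨b, hb⟩ | ⟨⟨b, hb⟩, he⟩
      · refine ⟨i, _, _, (hw φ t).1 i b hb, (hw φ' t).1 i b hb, ?_⟩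
        rcases cod_two e with rfl | rfl
        · exact Or.inl h
        · exact Or.inr h
      · simp only at he
        subst he
        exact ⟨i, _, _, (hw φ t).2.1 i b hb, (hw φ' t).2.1 i b hb, h⟩
    · obtain ⟨⟨t, b, hb⟩, rfl⟩ := (σ i).surjective s
      exact ⟨t, i, _, _, (hw φ t).2.2 i b hb, (hw φ' t).2.2 i b hb, h⟩
  · rw [Finset.card_image_of_injective _ inj, Finset.card_univ, Fintype.card_pi]
    refine Finset.prod_congr rfl (fun i _ => ?_)
    rw [Fintype.card_fun, hcU i]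

end Stall
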