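import Pool.Agent.SC.Basic
import Pool.Agent.SC.Join

/-!
# Late first gains: definitions used in the proof

`D a b` means that the letters a and b are distinguishable (distinct and not adjacent).
The letters have types in C, given by a map lt : V → C.
-/

namespace Stall

open Finset

/-- Words of length n over V with blanks; `none` is a blank. -/
abbrev PWord (V : Type) (n : ℕ) : Type := Fin n → Option V

/-- Two words with blanks are separated by D when in some coordinate both are letters and these are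
related by D. -/
def Sep {V : Type} (D : V → V → Prop) {n : ℕ} (x y : PWord V n) : Prop :=
  ∃ (i : Fin n) (a b : V), x i = some a ∧ y i = some b ∧ D a b

/-- A finite set of pairwise separated words with blanks. -/
def PSep {V : Type} (D : V → V → Prop) {n : ℕ} (Q : Finset (PWord V n)) : Prop :=
  ∀ x ∈ Q, ∀ y ∈ Q, x ≠ y → Sep D x y

/-- The letters of the word x have the types J. -/
def Cpt {V C : Type} (lt : V → C) {n : ℕ} (J : Fin n → C) (x : PWord V n) : Prop :=
  ∀ (i : Fin n) (a : V), x i = some a → lt a = J i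

/-- The product of u over the letters of x. -/
noncomputable def wt {V : Type} (u : V → ℝ) {n : ℕ} (x : PWord V n) : ℝ :=
  ∏ i, (x i).elim 1 u

/-- The Kraft inequality with the weights w of the types: for pairwise separated words with
letters of types J, the products of the reciprocals of the weights have sum at most 1. -/
def Kraft {V C : Type} (D : V → V → Prop) (lt : V → C) (w : C → ℝ) : Prop :=
  ∀ (n : ℕ) (J : Fin n → C) (Q : Finset (PWord V n)), (∀ x ∈ Q, Cpt lt J x) → PSep D Q →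
    ∑ x ∈ Q, wt (fun a => (w (lt a))⁻¹) x ≤ 1

/-- Orthogonal representation (Lovász) with the value g c on the letters of type c. -/
def ORep {V C : Type} (D : V → V → Prop) (lt : V → C) (g : C → ℝ) : Prop :=
  ∃ (ι : Type) (_ : Fintype ι) (v : V → ι → ℝ) (h : C → ι → ℝ),
    (∀ c, ∑ k, h c k ^ 2 = 1) ∧ (∀ a, ∑ k, h (lt a) k * v a k = 1) ∧
    (∀ a, ∑ k, v a k ^ 2 = g (lt a)) ∧
    (∀ a b, lt a = lt b → D a b → ∑ k, v a k * v b k = 0)

/-- Fractional representation over the field with two elements (Haemers) with the value f c on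
the letters of type c. -/
def FRep {V C : Type} (D : V → V → Prop) (lt : V → C) (f : C → ℝ) : Prop :=
  ∃ (ι Ω : Type) (_ : Fintype ι) (_ : DecidableEq ι) (_ : Fintype Ω) (R : C → Finset ι)
    (p : V → ι → ZMod 2) (act : Ω → V → Prop) (ρ : C → ℝ),
    0 < Fintype.card Ω ∧ (∀ c, 0 < ρ c) ∧ (∀ c, (R c).Nonempty) ∧
    (∀ c, f c = ((R c).card : ℝ) / ρ c) ∧
    (∀ a, ρ (lt a) * (Fintype.card Ω : ℝ) ≤ (Nat.card {ω // act ω a} : ℝ)) ∧
    (∀ a, ∑ k ∈ R (lt a), p a k * p a k = 1) ∧
    (∀ ω a b, lt a = lt b → D a b → act ω a → act ω b → ∑ k ∈ R (lt a), p a k * p b k = 0)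

/-- Letters of different types are distinguishable, letters of the same type when D says so. -/
def full {V C : Type} (lt : V → C) (D : V → V → Prop) (a b : V) : Prop := lt a ≠ lt b ∨ D a b

/-- The graph of the pairs that are not distinguishable. -/
def grD {V : Type} (D : V → V → Prop) : SimpleGraph V where
  Adj a b := a ≠ b ∧ ¬ D a b ∧ ¬ D b a
  symm := ⟨fun _ _ h => ⟨h.1.symm, h.2.2, h.2.1⟩⟩
  loopless := ⟨fun _ h => h.1 rfl⟩

section letters

variable {X : Type}

/-- The letters for one pair of relations: m2 copies of the square of the first, m1 copies of the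
first, m0 copies of the second. -/
abbrev LV (X : Type) (m2 m1 m0 : ℕ) : Type :=
  (Fin m2 × (X × X)) ⊕ ((Fin m1 × X) ⊕ (Fin m0 × X))

abbrev LC (m2 m1 m0 : ℕ) : Type := Fin m2 ⊕ (Fin m1 ⊕ Fin m0)

/-- The type of a letter. -/
def lt1 {m2 m1 m0 : ℕ} : LV X m2 m1 m0 → LC m2 m1 m0
  | Sum.inl a => Sum.inl a.1
  | Sum.inr (Sum.inl a) => Sum.inr (Sum.inl a.1)
  | Sum.inr (Sum.inr a) => Sum.inr (Sum.inr a.1)

/-- Distinguishable letters of the same type. -/
def D1 (DY DZ : X → X → Prop) {m2 m1 m0 : ℕ} : LV X m2 m1 m0 → LV X m2 m1 m0 → Prop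
  | Sum.inl a, Sum.inl b => DY a.2.1 b.2.1 ∨ DY a.2.2 b.2.2
  | Sum.inr (Sum.inl a), Sum.inr (Sum.inl b) => DY a.2 b.2
  | Sum.inr (Sum.inr a), Sum.inr (Sum.inr b) => DZ a.2 b.2
  | _, _ => False

end letters

section all

variable {I : Type} (X : I → Type) (m2 m1 m0 : I → ℕ)

abbrev AV : Type := Σ i, LV (X i) (m2 i) (m1 i) (m0 i)

abbrev AC {I : Type} (m2 m1 m0 : I → ℕ) : Type := Σ i, LC (m2 i) (m1 i) (m0 i)

/-- The type of a letter. -/
def ltA (a : AV X m2 m1 m0) : AC m2 m1 m0 := ⟨a.1, lt1 a.2⟩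

/-- Distinguishable letters of the same type. -/
def DA (DY DZ : ∀ i, X i → X i → Prop) (a b : AV X m2 m1 m0) : Prop :=
  ∃ (i : I) (a' b' : LV (X i) (m2 i) (m1 i) (m0 i)), a = ⟨i, a'⟩ ∧ b = ⟨i, b'⟩ ∧
    D1 (DY i) (DZ i) a' b'

/-- The weight of a type: the value y of the first relation, z of the second. -/
def gA (y z : I → ℝ) : AC m2 m1 m0 → ℝ
  | ⟨i, Sum.inl _⟩ => y i ^ 2
  | ⟨i, Sum.inr (Sum.inl _)⟩ => y i
  | ⟨i, Sum.inr (Sum.inr _)⟩ => z i

end all

/-- The 3-element subsets of a set with m elements. -/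
abbrev Tr (m : ℕ) : Type := {T : Finset (Fin m) // T.card = 3}

/-- Triples with 0 or 2 common elements. -/
def DY (m : ℕ) (a b : Tr m) : Prop := a ≠ b ∧ (a.1 ∩ b.1).card ≠ 1

/-- Triples with exactly 1 common element. -/
def DZ (m : ℕ) (a b : Tr m) : Prop := (a.1 ∩ b.1).card = 1

end Stall
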