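import Pool.Agent.H.MP_4f19f9_lc.h56.Defs

namespace Stall

open Finset

private theorem FYZ_ind {m : ℕ} (a b : Finset (Fin m)) :
    ∑ k ∈ (Finset.univ : Finset (Fin m)),
      (if k ∈ a then (1 : ZMod 2) else 0) * (if k ∈ b then (1 : ZMod 2) else 0) =
      ((a ∩ b).card : ZMod 2) := by
  rw [Finset.card_eq_sum_ones, Nat.cast_sum]
  rw [← Finset.sum_filter_add_sum_filter_not Finset.univ (fun k => k ∈ a ∩ b)]
  have h1 : ∑ k ∈ Finset.univ.filter (fun k => ¬ k ∈ a ∩ b),
      (if k ∈ a then (1 : ZMod 2) else 0) * (if k ∈ b then (1 : ZMod 2) else 0) = 0 := by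
    refine Finset.sum_eq_zero fun k hk => ?_
    rw [Finset.mem_filter, Finset.mem_inter, not_and_or] at hk
    rcases hk.2 with h | h
    · rw [if_neg h, zero_mul]
    · rw [if_neg h, mul_zero]
  have h2 : Finset.univ.filter (fun k => k ∈ a ∩ b) = a ∩ b := by
    ext k
    simp
  rw [h1, add_zero, h2]
  refine Finset.sum_congr rfl fun k hk => ?_
  rw [Finset.mem_inter] at hk
  rw [if_pos hk.1, if_pos hk.2, mul_one, Nat.cast_one]

/-
PROOF. Index type Fin m, R = univ, p a = indicator of a, Ω = Unit, act = True, ρ = 1. p a . p b =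
card (a ∩ b) mod 2; for a = b it is 3 = 1; for DY a b: a ≠ b, so card (a ∩ b) ≤ 2, not 1: even. -/
theorem frep_DY (m : ℕ) (hm : 0 < m) : FRep (DY m) (fun _ => ()) (fun _ => (m : ℝ)) := by
  classical
  refine ⟨Fin m, Unit, inferInstance, inferInstance, inferInstance, fun _ => Finset.univ,
    fun a k => if k ∈ a.1 then 1 else 0, fun _ _ => True, fun _ => 1, ?_, ?_, ?_, ?_, ?_, ?_, ?_⟩
  · simp
  · intro _
    exact one_pos
  · intro _
    exact ⟨⟨0, hm⟩, Finset.mem_univ _⟩
  · intro _
    simp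
  · intro a
    simp
  · intro a
    rw [FYZ_ind, Finset.inter_self, a.2]
    decide
  · intro _ a b _ hab _ _
    rw [FYZ_ind]
    obtain ⟨h1, h2⟩ := hab
    have h3 : (a.1 ∩ b.1).card ≤ 3 := (Finset.card_le_card Finset.inter_subset_left).trans a.2.le
    have h4 : (a.1 ∩ b.1).card ≠ 3 := by
      intro h
      apply h1
      have e1 : a.1 ∩ b.1 = a.1 :=
        Finset.eq_of_subset_of_card_le Finset.inter_subset_left (by rw [h, a.2])
      have e2 : a.1 ∩ b.1 = b.1 :=
        Finset.eq_of_subset_of_card_le Finset.inter_subset_right (by rw [h, b.2])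
      exact Subtype.ext (e1.symm.trans e2)
    obtain ⟨c, hc⟩ : ∃ c, c = (a.1 ∩ b.1).card := ⟨_, rfl⟩
    rw [← hc] at h2 h3 h4 ⊢
    interval_cases c
    · simp
    · exact absurd rfl h2
    · decide
    · exact absurd rfl h4

/-- The triple is mapped into one block of four elements. -/
private def FYZ_act {m : ℕ} (σ : Equiv.Perm (Fin m)) (a : Tr m) : Prop :=
  ∃ q : ℕ, ∀ i ∈ a.1, (σ i : ℕ) / 4 = q

/-- The block of an element. -/
private def FYZ_blk {m : ℕ} (i : Fin m) : Finset (Fin m) :=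
  Finset.univ.filter fun j => (j : ℕ) / 4 = (i : ℕ) / 4

private theorem FYZ_card_blk {m : ℕ} (h4 : 4 ∣ m) (i : Fin m) : (FYZ_blk i).card = 4 := by
  obtain ⟨t, rfl⟩ := h4
  have hi := i.2
  have hq : (i : ℕ) / 4 < t := by omega
  have h1 : (FYZ_blk i) = Finset.univ.image (fun r : Fin 4 =>
      (⟨4 * ((i : ℕ) / 4) + r, by have := r.2; omega⟩ : Fin (4 * t))) := by
    ext j
    simp only [FYZ_blk, Finset.mem_filter, Finset.mem_univ, true_and, Finset.mem_image]
    constructor
    · intro hj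
      refine ⟨⟨(j : ℕ) % 4, Nat.mod_lt _ (by norm_num)⟩, ?_⟩
      apply Fin.ext
      show 4 * ((i : ℕ) / 4) + (j : ℕ) % 4 = j
      omega
    · rintro ⟨r, rfl⟩
      have := r.2
      show (4 * ((i : ℕ) / 4) + (r : ℕ)) / 4 = (i : ℕ) / 4
      omega
  rw [h1, Finset.card_image_of_injective, Finset.card_univ, Fintype.card_fin]
  intro r s h
  have h2 := congrArg Fin.val h
  simp only at h2
  apply Fin.ext
  omega

/-- Two active triples do not have exactly one common element. -/
private theorem FYZ_ne {m : ℕ} (h4 : 4 ∣ m) {σ : Equiv.Perm (Fin m)} {a b : Tr m}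
    (ha : FYZ_act σ a) (hb : FYZ_act σ b) : (a.1 ∩ b.1).card ≠ 1 := by
  intro h
  obtain ⟨q, hq⟩ := ha
  obtain ⟨r, hr⟩ := hb
  obtain ⟨c, hc⟩ := Finset.card_eq_one.1 h
  have hc' : c ∈ a.1 ∩ b.1 := by rw [hc]; exact Finset.mem_singleton_self c
  rw [Finset.mem_inter] at hc'
  have h1 := hq c hc'.1
  have h2 := hr c hc'.2
  have hqr : r = q := by omega
  have h3 : (a.1 ∪ b.1).card = 5 := by
    have := Finset.card_union_add_card_inter a.1 b.1
    rw [a.2, b.2, h] at this
    omega
  have h5 : (a.1 ∪ b.1).map σ.toEmbedding ⊆ FYZ_blk (σ c) := by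
    intro j hj
    rw [Finset.mem_map] at hj
    obtain ⟨i, hi, rfl⟩ := hj
    rw [FYZ_blk, Finset.mem_filter]
    refine ⟨Finset.mem_univ _, ?_⟩
    show ((σ i : Fin m) : ℕ) / 4 = _
    rw [h1]
    rcases Finset.mem_union.1 hi with h6 | h6
    · exact hq i h6
    · rw [hr i h6, hqr]
  have h6 := Finset.card_le_card h5
  rw [Finset.card_map, h3, FYZ_card_blk h4] at h6
  omega

open Classical in
/-- There are at least m active triples. -/
private theorem FYZ_many {m : ℕ} (h4 : 4 ∣ m) (σ : Equiv.Perm (Fin m)) :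
    m ≤ (Finset.univ.filter fun a : Tr m => FYZ_act σ a).card := by
  have hcard : ∀ i : Fin m, (((FYZ_blk i).erase i).map σ.symm.toEmbedding).card = 3 := by
    intro i
    rw [Finset.card_map, Finset.card_erase_of_mem, FYZ_card_blk h4]
    rw [FYZ_blk, Finset.mem_filter]
    exact ⟨Finset.mem_univ _, rfl⟩
  let f : Fin m → Tr m := fun i => ⟨((FYZ_blk i).erase i).map σ.symm.toEmbedding, hcard i⟩
  have hf : Function.Injective f := by
    intro i j hij
    have h1 : ((FYZ_blk i).erase i) = ((FYZ_blk j).erase j) :=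
      Finset.map_injective σ.symm.toEmbedding (congrArg Subtype.val hij)
    have h2 : ((FYZ_blk i).erase i).Nonempty := by
      rw [← Finset.card_pos]
      have := hcard i
      rw [Finset.card_map] at this
      omega
    obtain ⟨x, hx⟩ := h2
    have hx' := hx
    rw [h1] at hx'
    rw [Finset.mem_erase, FYZ_blk, Finset.mem_filter] at hx hx'
    have h3 : (i : ℕ) / 4 = (j : ℕ) / 4 := hx.2.2.symm.trans hx'.2.2
    by_contra hne
    have h4 : j ∈ (FYZ_blk i).erase i := by
      rw [Finset.mem_erase, FYZ_blk, Finset.mem_filter]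
      exact ⟨fun h => hne h.symm, Finset.mem_univ _, h3.symm⟩
    rw [h1, Finset.mem_erase] at h4
    exact h4.1 rfl
  calc m = (Finset.univ : Finset (Fin m)).card := by rw [Finset.card_univ, Fintype.card_fin]
    _ = (Finset.univ.image f).card := (Finset.card_image_of_injective _ hf).symm
    _ ≤ _ := by
      refine Finset.card_le_card ?_
      intro a ha
      rw [Finset.mem_image] at ha
      obtain ⟨i, -, rfl⟩ := ha
      rw [Finset.mem_filter]
      refine ⟨Finset.mem_univ _, (i : ℕ) / 4, ?_⟩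
      intro j hj
      have hj' : j ∈ ((FYZ_blk i).erase i).map σ.symm.toEmbedding := hj
      rw [Finset.mem_map] at hj'
      obtain ⟨x, hx, rfl⟩ := hj'
      rw [Finset.mem_erase, FYZ_blk, Finset.mem_filter] at hx
      have h5 : σ (σ.symm.toEmbedding x) = x := σ.apply_symm_apply x
      rw [h5]
      exact hx.2.2

/-- The number of permutations for which a triple is active does not depend on the triple. -/
private theorem FYZ_const {m : ℕ} (a b : Tr m) :
    Nat.card {σ : Equiv.Perm (Fin m) // FYZ_act σ a} =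
      Nat.card {σ : Equiv.Perm (Fin m) // FYZ_act σ b} := by
  classical
  have e0 : Fintype.card {x // x ∈ a.1} = Fintype.card {x // x ∈ b.1} := by
    rw [Fintype.card_coe, Fintype.card_coe, a.2, b.2]
  let e : {x // x ∈ a.1} ≃ {x // x ∈ b.1} := Fintype.equivOfCardEq e0
  let τ : Equiv.Perm (Fin m) := e.extendSubtype
  have hτ : ∀ x, x ∈ a.1 ↔ τ x ∈ b.1 := by
    intro x
    constructor
    · intro hx
      exact e.extendSubtype_mem x hx
    · intro hx
      by_contra hn
      exact e.extendSubtype_not_mem x hn hx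
  refine Nat.card_congr ((Equiv.mulRight τ⁻¹).subtypeEquiv fun σ => ?_)
  unfold FYZ_act
  refine exists_congr fun q => ?_
  constructor
  · intro h i hi
    have h1 : τ⁻¹ i ∈ a.1 := by
      rw [hτ]
      have h2 : τ (τ⁻¹ i) = i := τ.apply_symm_apply i
      rw [h2]
      exact hi
    exact h _ h1
  · intro h i hi
    have h1 := h (τ i) ((hτ i).1 hi)
    have h2 : (Equiv.mulRight τ⁻¹) σ (τ i) = σ i := by
      have h3 : τ⁻¹ (τ i) = i := τ.symm_apply_apply i
      show σ (τ⁻¹ (τ i)) = σ i
      rw [h3]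
    rw [h2] at h1
    exact h1

private theorem FYZ_choose {m : ℕ} (hm : 4 ≤ m) :
    (m : ℝ) * (m - 1) * (m - 2) = 6 * (m.choose 3 : ℕ) := by
  obtain ⟨k, rfl⟩ : ∃ k, m = k + 3 := ⟨m - 3, by omega⟩
  have h1 := Nat.descFactorial_eq_factorial_mul_choose (k + 3) 3
  have h2 : (k + 3).descFactorial 3 = (k + 3) * (k + 2) * (k + 1) := by
    simp only [Nat.descFactorial]
    have e1 : k + 3 - 2 = k + 1 := by omega
    have e2 : k + 3 - 1 = k + 2 := by omega
    rw [e1, e2, Nat.sub_zero]
    ring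
  have h3 : Nat.factorial 3 = 6 := rfl
  rw [h2, h3] at h1
  have h4 : (((k + 3) * (k + 2) * (k + 1) : ℕ) : ℝ) = ((6 * (k + 3).choose 3 : ℕ) : ℝ) := by
    rw [h1]
  push_cast at h4 ⊢
  linarith

/-
PROOF. Index type Unit, R = univ, p = 1, Ω = Equiv.Perm (Fin m). Blocks: i, j : Fin m are in the same
block when i / 4 = j / 4. I0 = the set of triples contained in one block; card I0 = (m/4) * 4 = m.
act σ a := the image of a under σ⁻¹ is in I0. Two triples a, b active for the same σ have
card (a ∩ b) in {0, 2, 3} (two triples in the same 4-element block, or in disjoint blocks), so never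
DZ a b. For a triple a let N(a) be the number of σ with act σ a; N(a) does not depend on a
(σ ↦ τ σ for τ with τ a = a'; the permutations are transitive on the triples), and
sum_a N(a) = m! * card I0 = m! m. So N(a) = m! m / C(m,3) and ρ = m / C(m,3) = 6/((m-1)(m-2)) works
(m ≥ 4 as 4 ∣ m, 0 < m), f = 1/ρ = (m-1)(m-2)/6. -/
theorem frep_DZ (m : ℕ) (hm : 0 < m) (h4 : 4 ∣ m) : FRep (DZ m) (fun _ => ())
    (fun _ => ((m : ℝ) - 1) * (m - 2) / 6) := by
  classical
  have hm4 : 4 ≤ m := Nat.le_of_dvd hm h4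
  have hmR : (4 : ℝ) ≤ m := by exact_mod_cast hm4
  have hpos : (0 : ℝ) < ((m : ℝ) - 1) * (m - 2) := mul_pos (by linarith) (by linarith)
  refine ⟨Unit, Equiv.Perm (Fin m), inferInstance, inferInstance, inferInstance,
    fun _ => Finset.univ, fun _ _ => 1, FYZ_act, fun _ => 6 / (((m : ℝ) - 1) * (m - 2)),
    ?_, ?_, ?_, ?_, ?_, ?_, ?_⟩
  · exact Fintype.card_pos
  · intro _
    exact div_pos (by norm_num) hpos
  · intro _
    exact ⟨(), Finset.mem_univ _⟩
  · intro _
    show ((m : ℝ) - 1) * (m - 2) / 6 =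
      (((Finset.univ : Finset Unit).card : ℕ) : ℝ) / (6 / (((m : ℝ) - 1) * (m - 2)))
    rw [Finset.card_univ, Fintype.card_unit, Nat.cast_one, one_div_div]
  · intro a
    show 6 / (((m : ℝ) - 1) * (m - 2)) * (Fintype.card (Equiv.Perm (Fin m)) : ℝ) ≤ _
    -- double counting
    have h1 : ∑ b : Tr m, (Finset.univ.filter fun σ : Equiv.Perm (Fin m) => FYZ_act σ b).card =
        ∑ σ : Equiv.Perm (Fin m), (Finset.univ.filter fun b : Tr m => FYZ_act σ b).card := by
      simp only [Finset.card_filter]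
      exact Finset.sum_comm
    have h2 : ∀ b : Tr m, (Finset.univ.filter fun σ : Equiv.Perm (Fin m) => FYZ_act σ b).card =
        Nat.card {σ : Equiv.Perm (Fin m) // FYZ_act σ a} := by
      intro b
      rw [FYZ_const a b, Nat.card_eq_fintype_card, Fintype.card_subtype]
    rw [Finset.sum_congr rfl fun b _ => h2 b, Finset.sum_const, Finset.card_univ,
      Fintype.card_finset_len, Fintype.card_fin, smul_eq_mul] at h1
    have h3 : Fintype.card (Equiv.Perm (Fin m)) * m ≤
        ∑ σ : Equiv.Perm (Fin m), (Finset.univ.filter fun b : Tr m => FYZ_act σ b).card := by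
      rw [← Finset.card_univ, ← smul_eq_mul, ← Finset.sum_const]
      exact Finset.sum_le_sum fun σ _ => FYZ_many h4 σ
    rw [← h1] at h3
    have h5 : (Fintype.card (Equiv.Perm (Fin m)) : ℝ) * m ≤
        (m.choose 3 : ℕ) * (Nat.card {σ : Equiv.Perm (Fin m) // FYZ_act σ a} : ℝ) := by
      exact_mod_cast h3
    have h6 := FYZ_choose hm4
    have h7 : (m : ℝ) * (6 * (Fintype.card (Equiv.Perm (Fin m)) : ℝ)) ≤
        m * ((Nat.card {σ : Equiv.Perm (Fin m) // FYZ_act σ a} : ℝ) *
          (((m : ℝ) - 1) * (m - 2))) := by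
      calc (m : ℝ) * (6 * (Fintype.card (Equiv.Perm (Fin m)) : ℝ))
          = 6 * ((Fintype.card (Equiv.Perm (Fin m)) : ℝ) * m) := by ring
        _ ≤ 6 * ((m.choose 3 : ℕ) *
            (Nat.card {σ : Equiv.Perm (Fin m) // FYZ_act σ a} : ℝ)) := by gcongr
        _ = ((m : ℝ) * (m - 1) * (m - 2)) *
            (Nat.card {σ : Equiv.Perm (Fin m) // FYZ_act σ a} : ℝ) := by
              rw [h6]
              ring
        _ = _ := by ring
    have h8 := le_of_mul_le_mul_left h7 (by linarith)
    rw [div_mul_eq_mul_div, div_le_iff₀ hpos]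
    exact h8
  · intro _
    simp
  · intro σ a b _ hab ha hb
    exact absurd hab (FYZ_ne h4 ha hb)

end Stall
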