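import Pool.Agent.H.MP_4f19f9_lc.h56.Defs

namespace Stall

open Finset Pool.Agent.SC

theorem JoinB_compl {V : Type} {D : V → V → Prop} (hsymm : ∀ a b, D a b → D b a)
    {a b : V} (h : (grD D)ᶜ.Adj a b) : D a b := by
  rw [SimpleGraph.compl_adj] at h
  obtain ⟨h1, h2⟩ := h
  by_contra hc
  exact h2 ⟨h1, hc, fun h3 => hc (hsymm _ _ h3)⟩

/-- The weight of the symbol s when the blank symbols are read as k. -/
noncomputable def JoinB_c {V : Type} {M : ℕ} (s : V ⊕ Fin M) (k : Fin M) : ℝ :=
  Sum.elim (fun _ => (M : ℝ)⁻¹) (fun j => if j = k then 1 else 0) s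

theorem JoinB_sum {V : Type} {M : ℕ} (hM : 0 < M) (s : V ⊕ Fin M) :
    ∑ k, JoinB_c s k = 1 := by
  have hM' : (M : ℝ) ≠ 0 := by positivity
  rcases s with a | j
  · simp [JoinB_c, hM']
  · simp [JoinB_c]

/-- The letter of a symbol. -/
def JoinB_p {V : Type} {M : ℕ} (s : V ⊕ Fin M) : Option V := Sum.elim some (fun _ => none) s

theorem JoinB_le {V : Type} {D : V → V → Prop} (M : ℕ) (hM : 0 < M) (θ : ℝ) (hθ : (M : ℝ) ≤ θ)
    (n : ℕ)
    (hψ : ∀ Q : Finset (PWord V n), PSep D Q → (∀ x ∈ Q, ∃ i a, x i = some a) →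
      (θ / M) ^ n * ∑ x ∈ Q, wt (fun _ => θ⁻¹) x ≤ 1) (Q : Finset (PWord V n))
    (hQ : PSep D Q) : ∑ x ∈ Q, wt (fun _ => (M : ℝ)⁻¹) x ≤ 1 := by
  have hM' : (0 : ℝ) < M := by exact_mod_cast hM
  have hθ' : 0 < θ := lt_of_lt_of_le hM' hθ
  by_cases hb : (fun _ => none : PWord V n) ∈ Q
  · have : Q ⊆ {(fun _ => none : PWord V n)} := by
      intro y hy
      rw [Finset.mem_singleton]
      by_contra hne
      obtain ⟨i, a, b, -, h2, -⟩ := hQ y hy _ hb hne
      cases h2
    refine (Finset.sum_le_sum_of_subset_of_nonneg this fun y _ _ => ?_).trans ?_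
    · refine Finset.prod_nonneg fun i _ => ?_
      rcases y i with _ | a
      · exact zero_le_one
      · exact inv_nonneg.2 hM'.le
    · simp [wt]
  · have h1 : ∀ x ∈ Q, ∃ i a, x i = some a := by
      intro x hx
      by_contra hc
      push Not at hc
      apply hb
      have : x = fun _ => none := by
        funext i
        rcases hxi : x i with _ | a
        · rfl
        · exact absurd hxi (hc i a)
      rwa [← this]
    refine le_trans ?_ (hψ Q hQ h1)
    rw [Finset.mul_sum]
    refine Finset.sum_le_sum fun x _ => ?_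
    have h2 : (θ / M) ^ n = ∏ _i : Fin n, (θ / M) := by
      rw [Finset.prod_const, Finset.card_univ, Fintype.card_fin]
    rw [h2, wt, wt, ← Finset.prod_mul_distrib]
    refine Finset.prod_le_prod (fun i _ => ?_) fun i _ => ?_
    · rcases x i with _ | a
      · exact zero_le_one
      · exact inv_nonneg.2 hM'.le
    · rcases x i with _ | a
      · change (1 : ℝ) ≤ θ / M * 1
        rw [mul_one, le_div_iff₀ hM', one_mul]
        exact hθ
      · change (M : ℝ)⁻¹ ≤ θ / M * θ⁻¹
        rw [div_mul_eq_mul_div, mul_inv_cancel₀ hθ'.ne', one_div]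

/-
PROOF. Let G = joinE (grD D) M (Pool.Agent.SC.Defs), vertices V ⊕ Fin M. Two vertices are distinct
and not adjacent iff they are inl a, inl b with D a b (symmetric, irreflexive), or inr i, inr j
with i ≠ j. Lower bound: the words in the M vertices inr (Fin n → Fin M) are independent
(Pool.Agent.SC.Basic: card_le, sep_spow).
Upper bound: let S be an independent set of spow G (Fin n) (exists_code, sep_spow: any two distinct
words of S have a coordinate where the letters are distinct and not adjacent). For x in S let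
x' : PWord V n be the word with x' i = some a if x i = inl a, none if x i = inr j. For
w : Fin n → Fin M let S_w be the set of x in S such that x i = inr j implies j = w i.
(i) on S_w the map x ↦ x' is injective and the image Q_w is PSep D (two distinct words of S_w are
    distinguishable in some coordinate; not in a coordinate where both are inr, since both symbols
    are w i there; so both are inl).
(ii) every x in S is in exactly M ^ (number of inl coordinates of x) of the S_w. Hence
    card S = sum_w sum_{x in S_w} (1/M)^{l(x)} where l(x) = number of inl coordinates.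
(iii) for each w: sum_{x in Q_w} (1/M)^{l(x)} ≤ 1: if the all-blank word is in Q_w then it is the
    only one (it is separated from nothing), the sum is 1. Otherwise
    (1/M)^l = (θ/M)^l (1/θ)^l ≤ (θ/M)^n (1/θ)^l (as θ ≥ M > 0, l ≤ n) and hψ applies;
    wt (fun _ => θ⁻¹) x = (1/θ)^{l(x)}.
So card S ≤ M^n.
-/
theorem join_bound {V : Type} [Fintype V] {D : V → V → Prop} (hsymm : ∀ a b, D a b → D b a)
    (hirr : ∀ a, ¬ D a a) (M : ℕ) (hM : 0 < M) (θ : ℝ) (hθ : (M : ℝ) ≤ θ) (n : ℕ)
    (hψ : ∀ Q : Finset (PWord V n), PSep D Q → (∀ x ∈ Q, ∃ i a, x i = some a) →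
      (θ / M) ^ n * ∑ x ∈ Q, wt (fun _ => θ⁻¹) x ≤ 1) :
    (spow (joinE (grD D) M) (Fin n)).indepNum = M ^ n := by
  classical
  apply le_antisymm
  swap
  · refine le_trans (Nat.pow_le_pow_left (le_indepNum_joinE (grD D) M) n) ?_
    exact pow_le_al_one (joinE (grD D) M) n
  obtain ⟨S, hS, hS2⟩ := exists_code (spow (joinE (grD D) M) (Fin n))
  rw [← hS]
  have key : ∀ w : Fin n → Fin M, ∑ x ∈ S, ∏ i, JoinB_c (x i) (w i) ≤ 1 := by
    intro w
    set Sw : Finset (Fin n → V ⊕ Fin M) := S.filter fun x => ∀ i j, x i = Sum.inr j → j = w i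
      with hSw
    set P : (Fin n → V ⊕ Fin M) → PWord V n := fun x i => JoinB_p (x i) with hP
    have h1 : ∑ x ∈ S, ∏ i, JoinB_c (x i) (w i) =
        ∑ x ∈ Sw, wt (fun _ => (M : ℝ)⁻¹) (P x) := by
      rw [hSw, Finset.sum_filter]
      refine Finset.sum_congr rfl fun x _ => ?_
      split_ifs with h
      · rw [wt]
        refine Finset.prod_congr rfl fun i _ => ?_
        rw [hP]
        rcases hx : x i with a | j
        · simp [JoinB_c, JoinB_p, hx]
        · simp [JoinB_c, JoinB_p, hx, h i j hx]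
      · push Not at h
        obtain ⟨i, j, h1, h2⟩ := h
        refine Finset.prod_eq_zero (Finset.mem_univ i) ?_
        simp [JoinB_c, h1, h2]
    have hsep : ∀ x ∈ Sw, ∀ y ∈ Sw, x ≠ y → Sep D (P x) (P y) := by
      intro x hx y hy hxy
      rw [hSw, Finset.mem_filter] at hx hy
      obtain ⟨i, hi⟩ := sep_spow.1 (hS2 x hx.1 y hy.1 hxy)
      rcases sep_joinE.1 hi with ⟨a, b, h1, h2, h3⟩ | ⟨j, k, h1, h2, h3⟩
      · refine ⟨i, a, b, ?_, ?_, JoinB_compl hsymm h3⟩
        · simp [hP, JoinB_p, h1]
        · simp [hP, JoinB_p, h2]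
      · exact absurd ((hx.2 i j h1).trans (hy.2 i k h2).symm) h3
    have hinj : Set.InjOn P Sw := by
      intro x hx y hy hxy
      by_contra hne
      obtain ⟨i, a, b, h1, h2, h3⟩ := hsep x hx y hy hne
      rw [hxy, h2] at h1
      cases h1
      exact hirr _ h3
    rw [h1, ← Finset.sum_image (f := fun y => wt (fun _ => (M : ℝ)⁻¹) y) hinj]
    refine JoinB_le M hM θ hθ n hψ _ ?_
    intro x' hx' y' hy' hne
    obtain ⟨x, hx, rfl⟩ := Finset.mem_image.1 hx'
    obtain ⟨y, hy, rfl⟩ := Finset.mem_image.1 hy'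
    exact hsep x hx y hy fun h => hne (by rw [h])
  have hcard : (S.card : ℝ) = ∑ w : Fin n → Fin M, ∑ x ∈ S, ∏ i, JoinB_c (x i) (w i) := by
    rw [Finset.sum_comm, Finset.card_eq_sum_ones, Nat.cast_sum]
    refine Finset.sum_congr rfl fun x _ => ?_
    have h2 := Finset.prod_univ_sum (fun _ : Fin n => (Finset.univ : Finset (Fin M)))
      (fun i k => JoinB_c (x i) k)
    rw [Fintype.piFinset_univ] at h2
    rw [← h2]
    simp [JoinB_sum hM]
  have hfin : (S.card : ℝ) ≤ (M : ℝ) ^ n := by
    rw [hcard]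
    refine (Finset.sum_le_sum fun w _ => key w).trans ?_
    simp
  exact_mod_cast hfin

end Stall
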