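import Pool.Agent.H.MP_4f19f9_lc.h56.Defs

namespace Stall

open Finset

/-
PROOF. Unfold ORep: index type ι, vectors v a : ι → ℝ, handles h c : ι → ℝ. For a word x of types J
let u_x : (Fin n → ι) → ℝ, u_x(l) = prod_i (if x i = some a then v a (l i) else h (J i) (l i)), and
c(l) = prod_i h (J i) (l i). Sums over l : Fin n → ι of products are products of sums over ι
(Finset.prod_univ_sum with Fintype.piFinset_univ). So
sum c^2 = 1, sum c u_x = 1 (h c . h c = 1, h (lt a) . v a = 1),
sum u_x^2 = prod over the letters a of x of g (lt a) =: G_x > 0 (> 0 because sum c u_x = 1),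
sum u_x u_y = 0 for x ≠ y in Q (the factor where x and y are separated is 0).
Bessel: 0 ≤ sum_l (c - sum_x (1/G_x) u_x)^2 = 1 - 2 sum_x 1/G_x + sum_x 1/G_x = 1 - sum_x 1/G_x.
And wt (fun a => (g (lt a))⁻¹) x = 1/G_x (Finset.prod_inv_distrib).
-/
theorem kraft_of_orep {V C : Type} {D : V → V → Prop} {lt : V → C} {g : C → ℝ}
    (h : ORep D lt g) : Kraft D lt g := by
  classical
  obtain ⟨ι, _, v, h, hh, hhv, hvv, hort⟩ := h
  intro n J Q hQ hsep
  have hps : ∀ F : Fin n → ι → ℝ,
      ∑ l : Fin n → ι, ∏ i, F i (l i) = ∏ i, ∑ k, F i k := by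
    intro F
    rw [Finset.prod_univ_sum, Fintype.piFinset_univ]
  let U : PWord V n → Fin n → ι → ℝ := fun x i k => (x i).elim (h (J i) k) (fun a => v a k)
  have hUn : ∀ (x : PWord V n) (i : Fin n) (k : ι), x i = none → U x i k = h (J i) k := by
    intro x i k hx
    simp only [U, hx, Option.elim_none]
  have hUs : ∀ (x : PWord V n) (i : Fin n) (k : ι) (a : V), x i = some a → U x i k = v a k := by
    intro x i k a hx
    simp only [U, hx, Option.elim_some]
  let c : (Fin n → ι) → ℝ := fun l => ∏ i, h (J i) (l i)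
  let u : PWord V n → (Fin n → ι) → ℝ := fun x l => ∏ i, U x i (l i)
  let G : PWord V n → ℝ := fun x => ∏ i, (x i).elim 1 (fun a => g (lt a))
  have hcc : ∑ l, c l * c l = 1 := by
    have h1 : ∀ l, c l * c l = ∏ i, (h (J i) (l i) ^ 2) := by
      intro l
      simp only [c]
      rw [← Finset.prod_mul_distrib]
      exact Finset.prod_congr rfl fun i _ => (sq _).symm
    rw [Finset.sum_congr rfl fun l _ => h1 l, hps (fun i k => h (J i) k ^ 2)]
    exact Finset.prod_eq_one fun i _ => hh (J i)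
  have hcu : ∀ x ∈ Q, ∑ l, c l * u x l = 1 := by
    intro x hx
    have h1 : ∀ l, c l * u x l = ∏ i, (h (J i) (l i) * U x i (l i)) := by
      intro l
      simp only [c, u]
      rw [← Finset.prod_mul_distrib]
    rw [Finset.sum_congr rfl fun l _ => h1 l, hps (fun i k => h (J i) k * U x i k)]
    refine Finset.prod_eq_one fun i _ => ?_
    rcases hxi : x i with _ | a
    · rw [← hh (J i)]
      refine Finset.sum_congr rfl fun k _ => ?_
      rw [hUn x i k hxi, sq]
    · rw [← hhv a, hQ x hx i a hxi]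
      refine Finset.sum_congr rfl fun k _ => ?_
      rw [hUs x i k a hxi]
  have huu : ∀ x, ∑ l, u x l * u x l = G x := by
    intro x
    have h1 : ∀ l, u x l * u x l = ∏ i, (U x i (l i) ^ 2) := by
      intro l
      simp only [u]
      rw [← Finset.prod_mul_distrib]
      exact Finset.prod_congr rfl fun i _ => (sq _).symm
    rw [Finset.sum_congr rfl fun l _ => h1 l, hps (fun i k => U x i k ^ 2)]
    refine Finset.prod_congr rfl fun i _ => ?_
    rcases hxi : x i with _ | a
    · rw [Option.elim_none, ← hh (J i)]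
      refine Finset.sum_congr rfl fun k _ => ?_
      rw [hUn x i k hxi]
    · rw [Option.elim_some, ← hvv a]
      refine Finset.sum_congr rfl fun k _ => ?_
      rw [hUs x i k a hxi]
  have hxy : ∀ x ∈ Q, ∀ y ∈ Q, x ≠ y → ∑ l, u x l * u y l = 0 := by
    intro x hx y hy hne
    obtain ⟨i, a, b, hxi, hyi, hab⟩ := hsep x hx y hy hne
    have h1 : ∀ l, u x l * u y l = ∏ i, (U x i (l i) * U y i (l i)) := by
      intro l
      simp only [u]
      rw [← Finset.prod_mul_distrib]
    rw [Finset.sum_congr rfl fun l _ => h1 l, hps (fun i k => U x i k * U y i k)]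
    refine Finset.prod_eq_zero (Finset.mem_univ i) ?_
    rw [← hort a b ((hQ x hx i a hxi).trans (hQ y hy i b hyi).symm) hab]
    refine Finset.sum_congr rfl fun k _ => ?_
    rw [hUs x i k a hxi, hUs y i k b hyi]
  have hGpos : ∀ x ∈ Q, 0 < G x := by
    intro x hx
    have h0 : 0 ≤ G x := by
      rw [← huu x]
      exact Finset.sum_nonneg fun l _ => mul_self_nonneg _
    rcases h0.lt_or_eq with h1 | h1
    · exact h1
    · exfalso
      have h2 : ∑ l, u x l * u x l = 0 := by rw [huu x, ← h1]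
      have h3 := (Finset.sum_eq_zero_iff_of_nonneg (fun l _ => mul_self_nonneg (u x l))).1 h2
      have h4 : ∑ l, c l * u x l = 0 :=
        Finset.sum_eq_zero fun l hl => by rw [mul_self_eq_zero.1 (h3 l hl), mul_zero]
      rw [hcu x hx] at h4
      exact one_ne_zero h4
  have hwt : ∀ x : PWord V n, wt (fun a => (g (lt a))⁻¹) x = (G x)⁻¹ := by
    intro x
    simp only [wt, G]
    rw [← Finset.prod_inv_distrib]
    refine Finset.prod_congr rfl fun i _ => ?_
    rcases x i with _ | a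
    · rw [Option.elim_none, Option.elim_none, inv_one]
    · rw [Option.elim_some, Option.elim_some]
  have hB : 0 ≤ ∑ l, (c l - ∑ x ∈ Q, (G x)⁻¹ * u x l) * (c l - ∑ x ∈ Q, (G x)⁻¹ * u x l) :=
    Finset.sum_nonneg fun l _ => mul_self_nonneg _
  have hE : ∑ l, (c l - ∑ x ∈ Q, (G x)⁻¹ * u x l) * (c l - ∑ x ∈ Q, (G x)⁻¹ * u x l) =
      1 - ∑ x ∈ Q, (G x)⁻¹ := by
    have e1 : ∀ l, (c l - ∑ x ∈ Q, (G x)⁻¹ * u x l) * (c l - ∑ x ∈ Q, (G x)⁻¹ * u x l) =
        c l * c l - 2 * ∑ x ∈ Q, (G x)⁻¹ * (c l * u x l) +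
          ∑ x ∈ Q, ∑ y ∈ Q, (G x)⁻¹ * (G y)⁻¹ * (u x l * u y l) := by
      intro l
      have a1 : ∑ x ∈ Q, (G x)⁻¹ * (c l * u x l) = c l * ∑ x ∈ Q, (G x)⁻¹ * u x l := by
        rw [Finset.mul_sum]
        exact Finset.sum_congr rfl fun x _ => by ring
      have a2 : ∑ x ∈ Q, ∑ y ∈ Q, (G x)⁻¹ * (G y)⁻¹ * (u x l * u y l) =
          (∑ x ∈ Q, (G x)⁻¹ * u x l) * ∑ x ∈ Q, (G x)⁻¹ * u x l := by
        rw [Finset.sum_mul_sum]
        exact Finset.sum_congr rfl fun x _ => Finset.sum_congr rfl fun y _ => by ring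
      rw [a1, a2]
      ring
    rw [Finset.sum_congr rfl fun l _ => e1 l, Finset.sum_add_distrib, Finset.sum_sub_distrib, hcc,
      ← Finset.mul_sum, Finset.sum_comm]
    have e2 : ∑ x ∈ Q, ∑ l, (G x)⁻¹ * (c l * u x l) = ∑ x ∈ Q, (G x)⁻¹ :=
      Finset.sum_congr rfl fun x hx => by rw [← Finset.mul_sum, hcu x hx, mul_one]
    have e3 : ∑ l, ∑ x ∈ Q, ∑ y ∈ Q, (G x)⁻¹ * (G y)⁻¹ * (u x l * u y l) =
        ∑ x ∈ Q, (G x)⁻¹ := by
      rw [Finset.sum_comm]
      refine Finset.sum_congr rfl fun x hx => ?_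
      rw [Finset.sum_comm, Finset.sum_eq_single_of_mem x hx]
      · rw [← Finset.mul_sum, huu x]
        have := (hGpos x hx).ne'
        field_simp
      · intro y hy hne
        rw [← Finset.mul_sum, hxy x hx y hy hne.symm, mul_zero]
    rw [e2, e3]
    ring
  rw [hE] at hB
  rw [Finset.sum_congr rfl fun x _ => hwt x]
  linarith

end Stall
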