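import Pool.Agent.H.MP_4f19f9_lc.h56.Typ
import Pool.Agent.H.MP_4f19f9_lc.h56.Cod

namespace Stall

open Finset Pool.Agent.SC

section aux

variable {I : Type} (X : I → Type) (m2 m1 m0 : I → ℕ)

/-- the rational weights -/
private def Low_g (y z : I → ℚ) : AC m2 m1 m0 → ℚ
  | ⟨i, Sum.inl _⟩ => y i ^ 2
  | ⟨i, Sum.inr (Sum.inl _)⟩ => y i
  | ⟨i, Sum.inr (Sum.inr _)⟩ => z i

private theorem Low_cast (y z : I → ℚ) (c : AC m2 m1 m0) :
    gA m2 m1 m0 (fun i => (y i : ℝ)) (fun i => (z i : ℝ)) c = ((Low_g m2 m1 m0 y z c : ℚ) : ℝ) := by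
  obtain ⟨i, b | b | b⟩ := c <;> simp [gA, Low_g]

private theorem Low_pos (y z : I → ℚ) (hy : ∀ i, 0 < y i) (hz : ∀ i, 0 < z i)
    (c : AC m2 m1 m0) : 0 < Low_g m2 m1 m0 y z c := by
  obtain ⟨i, b | b | b⟩ := c
  · exact pow_pos (hy i) 2
  · exact hy i
  · exact hz i

/-- `DA` is irreflexive. -/
private theorem Low_irr (RY RZ : ∀ i, X i → X i → Prop) (hYi : ∀ i (a : X i), ¬ RY i a a)
    (hZi : ∀ i (a : X i), ¬ RZ i a a) (a : AV X m2 m1 m0) : ¬ DA X m2 m1 m0 RY RZ a a := by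
  rintro ⟨i, a', b', h1, h2, h3⟩
  have h4 : a' = b' := by
    rw [h1] at h2
    exact eq_of_heq (Sigma.mk.inj h2).2
  subst h4
  rcases a' with a' | a' | a'
  · rcases h3 with h3 | h3
    · exact hYi _ _ h3
    · exact hYi _ _ h3
  · exact hYi _ _ h3
  · exact hZi _ _ h3

/-- The code of all types with the counts `t`. -/
private theorem Low_union {V C : Type} [Finite V] [DecidableEq V] [DecidableEq C] (lt : V → C)
    (D : V → V → Prop) (hD : ∀ a, ¬ D a a) (N : ℕ) (F : Finset (Fin N → C)) (p : ℕ)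
    (h : ∀ J ∈ F, ∃ S : Finset (Fin N → V), (∀ x ∈ S, ∀ t, lt (x t) = J t) ∧
      (∀ x ∈ S, ∀ x' ∈ S, x ≠ x' → ∃ t, D (x t) (x' t)) ∧ S.card = p) :
    F.card * p ≤ al (grD (full lt D)) N := by
  classical
  choose! S hS1 hS2 hS3 using h
  have h1 : (F.biUnion S).card = F.card * p := by
    rw [Finset.card_biUnion]
    · rw [Finset.sum_congr rfl hS3, Finset.sum_const, smul_eq_mul]
    · intro J hJ J' hJ' hne
      rw [Function.onFun, Finset.disjoint_left]
      intro x hx hx'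
      apply hne
      funext t
      rw [← hS1 J hJ x hx t, ← hS1 J' hJ' x hx' t]
  rw [← h1]
  unfold al
  refine card_le _ id ?_
  intro x hx x' hx' hxx
  rw [Finset.mem_biUnion] at hx hx'
  obtain ⟨J, hJ, hx⟩ := hx
  obtain ⟨J', hJ', hx'⟩ := hx'
  rw [sep_spow]
  simp only [id]
  by_cases hJJ : J = J'
  · subst hJJ
    obtain ⟨t, ht⟩ := hS2 J hJ x hx x' hx' hxx
    refine ⟨t, ?_⟩
    rw [SimpleGraph.compl_adj]
    refine ⟨fun e => ?_, fun e => e.2.1 (Or.inr ht)⟩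
    rw [e] at ht
    exact hD _ ht
  · obtain ⟨t, ht⟩ := Function.ne_iff.1 hJJ
    have h2 : lt (x t) ≠ lt (x' t) := by
      rw [hS1 J hJ x hx t, hS1 J' hJ' x' hx' t]
      exact ht
    refine ⟨t, ?_⟩
    rw [SimpleGraph.compl_adj]
    exact ⟨fun e => h2 (by rw [e]), fun e => e.2.1 (Or.inl h2)⟩

/-- Exponential against polynomial growth. -/
private theorem Low_growth {θ T : ℝ} (hT : 0 < T) {N0 K : ℕ} (hN0 : 0 < N0)
    (h : ∀ j : ℕ, θ ^ (j * N0) ≤ ((j * N0 + 1 : ℕ) : ℝ) ^ K * T ^ (j * N0)) : θ ≤ T := by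
  by_contra hcon
  push Not at hcon
  have hθ : 0 < θ := hT.trans hcon
  have hr0 : 0 < T / θ := div_pos hT hθ
  have hr1 : T / θ < 1 := (div_lt_one hθ).2 hcon
  have h1 := tendsto_pow_const_mul_const_pow_of_abs_lt_one K
    (show |T / θ| < 1 by rw [abs_of_pos hr0]; exact hr1)
  have h2 := (Metric.tendsto_atTop.1 h1) (T / θ) hr0
  obtain ⟨M, hM⟩ := h2
  have h3 := hM (M * N0 + 1) (by nlinarith)
  rw [Real.dist_eq, sub_zero, abs_of_nonneg (by positivity)] at h3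
  have h4 := h M
  have h5 : ((M * N0 + 1 : ℕ) : ℝ) ^ K * (T / θ) ^ (M * N0) < 1 := by
    rw [pow_succ, ← mul_assoc] at h3
    have h6 : ((M * N0 + 1 : ℕ) : ℝ) ^ K * (T / θ) ^ (M * N0) * (T / θ) < 1 * (T / θ) := by
      rw [one_mul]
      exact h3
    exact lt_of_mul_lt_mul_right h6 hr0.le
  rw [div_pow, mul_div_assoc', div_lt_one (by positivity)] at h5
  exact absurd h4 (not_le.2 h5)

end aux

/-
PROOF. C := AC m2 m1 m0 is nonempty (hm). If some type has weight... all weights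
g c := gA m2 m1 m0 y z c with z i = card (X i) / y i are positive rationals (X i nonempty).
θ := sum g. exact_type gives N0 and, for every j, counts t c with t c θ = N g c, N = j N0.
Let n2 i = sum over the types ⟨i, inl b⟩ of t c, n1 i, n0 i similarly. Then θ n2 i = N m2 i y i^2,
θ n1 i = N m1 i y i, θ n0 i = N m0 i z i, so bal gives 2 n2 i + n1 i = n0 i. Every J with
card {s | J s = c} = t c for all c has the counts n2, n1, n0, so code_balanced gives a code S_J of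
words of types J with prod_i card (X i) ^ n0 i words, and
prod_c g c ^ t c = prod_i y i^(2 n2 i + n1 i) z i^(n0 i) = prod_i card (X i)^(n0 i).
The union over these J of the S_J is a code for full (ltA ..) (DA ..): words of different types
differ in type in some coordinate. The vertices with full (ltA ..)(DA ..) a b are distinct (hYi, hZi)
and not adjacent in grD. So (Pool.Agent.SC.Basic: al, al_le_theta, sep_spow, card_le)
theta ^ N ≥ card ≥ θ^N / (N+1)^card C for N = j N0, all j ≥ 1. Hence theta ≥ θ: otherwise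
(θ/theta)^N ≤ (N+1)^card C for infinitely many N (theta > 0 as theta ≥ 1, one_le_theta),
impossible (exponential against polynomial growth:
tendsto_pow_const_mul_const_pow_of_abs_lt_one, or theta_le_of_const ...).
The sum in the statement is the cast of θ.
-/
theorem lower {I : Type} [Fintype I] [DecidableEq I] (X : I → Type)
    [∀ i, Fintype (X i)] [∀ i, Nonempty (X i)] (m2 m1 m0 : I → ℕ)
    (RY RZ : ∀ i, X i → X i → Prop) (hYZ : ∀ i (a b : X i), a ≠ b → RY i a b ∨ RZ i a b)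
    (hYi : ∀ i (a : X i), ¬ RY i a a) (hZi : ∀ i (a : X i), ¬ RZ i a a)
    (y : I → ℚ) (hy : ∀ i, 0 < y i) (hm : ∃ i, 0 < m0 i)
    (bal : ∀ i, 2 * (m2 i : ℚ) * y i ^ 2 + m1 i * y i = m0 i * (Fintype.card (X i) / y i)) :
    ∑ c, gA m2 m1 m0 (fun i => (y i : ℝ)) (fun i => (Fintype.card (X i) : ℝ) / y i) c ≤
      theta (grD (full (ltA X m2 m1 m0) (DA X m2 m1 m0 RY RZ))) := by
  classical
  obtain ⟨i0, hi0⟩ := hm
  have hneC : Nonempty (AC m2 m1 m0) := ⟨⟨i0, Sum.inr (Sum.inr ⟨0, hi0⟩)⟩⟩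
  have hneV : Nonempty (AV X m2 m1 m0) :=
    ⟨⟨i0, Sum.inr (Sum.inr (⟨0, hi0⟩, Classical.arbitrary (X i0)))⟩⟩
  obtain ⟨z, hz⟩ : ∃ z : I → ℚ, z = fun i => (Fintype.card (X i) : ℚ) / y i := ⟨_, rfl⟩
  have hzi : ∀ i, z i = (Fintype.card (X i) : ℚ) / y i := fun i => by rw [hz]
  have hzp : ∀ i, 0 < z i := by
    intro i
    rw [hzi]
    have h1 : 0 < Fintype.card (X i) := Fintype.card_pos
    exact div_pos (by exact_mod_cast h1) (hy i)
  obtain ⟨g, hg⟩ : ∃ g : AC m2 m1 m0 → ℚ, g = Low_g m2 m1 m0 y z := ⟨_, rfl⟩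
  have hgp : ∀ c, 0 < g c := by
    rw [hg]
    exact Low_pos m2 m1 m0 y z hy hzp
  have g2 : ∀ i b, g ⟨i, Sum.inl b⟩ = y i ^ 2 := fun i b => by rw [hg]; rfl
  have g1 : ∀ i b, g ⟨i, Sum.inr (Sum.inl b)⟩ = y i := fun i b => by rw [hg]; rfl
  have g0 : ∀ i b, g ⟨i, Sum.inr (Sum.inr b)⟩ = z i := fun i b => by rw [hg]; rfl
  have hsum : ∑ c, gA m2 m1 m0 (fun i => (y i : ℝ)) (fun i => (Fintype.card (X i) : ℝ) / y i) c =
      ((∑ c, g c : ℚ) : ℝ) := by
    push_cast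
    refine Finset.sum_congr rfl fun c _ => ?_
    have h1 : (fun i => (Fintype.card (X i) : ℝ) / y i) = fun i => ((z i : ℚ) : ℝ) := by
      funext i
      rw [hzi]
      push_cast
      rfl
    rw [h1, hg]
    exact Low_cast m2 m1 m0 y z c
  rw [hsum]
  have hθ : 0 < ∑ c, g c := Finset.sum_pos (fun c _ => hgp c) Finset.univ_nonempty
  obtain ⟨N0, hN0, hty⟩ := exact_type g hgp
  have hT : 0 < theta (grD (full (ltA X m2 m1 m0) (DA X m2 m1 m0 RY RZ))) :=
    lt_of_lt_of_le one_pos (one_le_theta _)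
  refine Low_growth (K := Fintype.card (AC m2 m1 m0)) hT hN0 fun j => ?_
  obtain ⟨t, ht1, ht2⟩ := hty j
  obtain ⟨N, hN⟩ : ∃ N, N = j * N0 := ⟨_, rfl⟩
  rw [← hN] at ht1 ht2 ⊢
  -- the counts
  have hb : ∀ i, 2 * (∑ b, t ⟨i, Sum.inl b⟩) + ∑ b, t ⟨i, Sum.inr (Sum.inl b)⟩ =
      ∑ b, t ⟨i, Sum.inr (Sum.inr b)⟩ := by
    intro i
    have e2 : (((∑ b, t ⟨i, Sum.inl b⟩ : ℕ)) : ℚ) * ∑ c, g c = (N : ℚ) * (m2 i * y i ^ 2) := by
      push_cast
      rw [Finset.sum_mul, Finset.sum_congr rfl (fun b _ => ht1 ⟨i, Sum.inl b⟩)]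
      simp only [g2, Finset.sum_const, Finset.card_univ, Fintype.card_fin, nsmul_eq_mul]
      ring
    have e1 : (((∑ b, t ⟨i, Sum.inr (Sum.inl b)⟩ : ℕ)) : ℚ) * ∑ c, g c =
        (N : ℚ) * (m1 i * y i) := by
      push_cast
      rw [Finset.sum_mul, Finset.sum_congr rfl (fun b _ => ht1 ⟨i, Sum.inr (Sum.inl b)⟩)]
      simp only [g1, Finset.sum_const, Finset.card_univ, Fintype.card_fin, nsmul_eq_mul]
      ring
    have e0 : (((∑ b, t ⟨i, Sum.inr (Sum.inr b)⟩ : ℕ)) : ℚ) * ∑ c, g c =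
        (N : ℚ) * (m0 i * z i) := by
      push_cast
      rw [Finset.sum_mul, Finset.sum_congr rfl (fun b _ => ht1 ⟨i, Sum.inr (Sum.inr b)⟩)]
      simp only [g0, Finset.sum_const, Finset.card_univ, Fintype.card_fin, nsmul_eq_mul]
      ring
    have hbi := bal i
    rw [← hzi] at hbi
    have h3 : ((2 * (∑ b, t ⟨i, Sum.inl b⟩) + ∑ b, t ⟨i, Sum.inr (Sum.inl b)⟩ : ℕ) : ℚ) *
        ∑ c, g c = ((∑ b, t ⟨i, Sum.inr (Sum.inr b)⟩ : ℕ) : ℚ) * ∑ c, g c := by
      rw [e0, Nat.cast_add, Nat.cast_mul, add_mul, mul_assoc, e2, e1, ← hbi]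
      push_cast
      ring
    have h4 := mul_right_cancel₀ hθ.ne' h3
    exact_mod_cast h4
  have hprod : ((∏ i, Fintype.card (X i) ^ (∑ b, t ⟨i, Sum.inr (Sum.inr b)⟩) : ℕ) : ℚ) =
      ∏ c, g c ^ t c := by
    rw [Fintype.prod_sigma]
    push_cast
    refine Finset.prod_congr rfl fun i _ => ?_
    rw [Fintype.prod_sum_type, Fintype.prod_sum_type]
    simp only [g2, g1, g0]
    rw [Finset.prod_pow_eq_pow_sum, Finset.prod_pow_eq_pow_sum, Finset.prod_pow_eq_pow_sum,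
      ← pow_mul, ← mul_assoc, ← pow_add, hb i, ← mul_pow, hzi, mul_div_cancel₀ _ (hy i).ne']
  have hcode : (univ.filter (fun J : Fin N → AC m2 m1 m0 =>
      ∀ c, (univ.filter (fun i => J i = c)).card = t c)).card *
      (∏ i, Fintype.card (X i) ^ (∑ b, t ⟨i, Sum.inr (Sum.inr b)⟩)) ≤
      al (grD (full (ltA X m2 m1 m0) (DA X m2 m1 m0 RY RZ))) N := by
    refine Low_union (ltA X m2 m1 m0) (DA X m2 m1 m0 RY RZ) (Low_irr X m2 m1 m0 RY RZ hYi hZi) N
      _ _ fun J hJ => ?_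
    have hJ' := (mem_filter.1 hJ).2
    have key : ∀ (n : ℕ) (f : Fin n → AC m2 m1 m0), Function.Injective f →
        (univ.filter (fun s => ∃ b, J s = f b)).card = ∑ b, t (f b) := by
      intro n f hf
      have e1 : univ.filter (fun s => ∃ b, J s = f b) =
          univ.biUnion fun b => univ.filter fun s => J s = f b := by
        ext s
        simp
      rw [e1, Finset.card_biUnion]
      · exact Finset.sum_congr rfl fun b _ => hJ' (f b)
      · intro b _ b' _ hbb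
        rw [Function.onFun, Finset.disjoint_left]
        intro s hs hs'
        exact hbb (hf ((mem_filter.1 hs).2.symm.trans (mem_filter.1 hs').2))
    refine code_balanced X m2 m1 m0 RY RZ hYZ N J (fun i => ∑ b, t ⟨i, Sum.inl b⟩)
      (fun i => ∑ b, t ⟨i, Sum.inr (Sum.inl b)⟩) (fun i => ∑ b, t ⟨i, Sum.inr (Sum.inr b)⟩)
      (fun i => ?_) (fun i => ?_) (fun i => ?_) hb
    · exact key (m2 i) (fun b => ⟨i, Sum.inl b⟩) fun b b' h => by
        have h5 := eq_of_heq (Sigma.mk.inj h).2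
        exact Sum.inl.inj h5
    · exact key (m1 i) (fun b => ⟨i, Sum.inr (Sum.inl b)⟩) fun b b' h => by
        have h5 := eq_of_heq (Sigma.mk.inj h).2
        exact Sum.inl.inj (Sum.inr.inj h5)
    · exact key (m0 i) (fun b => ⟨i, Sum.inr (Sum.inr b)⟩) fun b b' h => by
        have h5 := eq_of_heq (Sigma.mk.inj h).2
        exact Sum.inr.inj (Sum.inr.inj h5)
  have h7 : (((∏ c, g c ^ t c) * ((univ.filter (fun J : Fin N → AC m2 m1 m0 =>
      ∀ c, (univ.filter (fun i => J i = c)).card = t c)).card : ℚ) : ℚ) : ℝ) ≤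
      (al (grD (full (ltA X m2 m1 m0) (DA X m2 m1 m0 RY RZ))) N : ℝ) := by
    rw [← hprod, mul_comm]
    exact_mod_cast hcode
  have h8 := al_le_theta (grD (full (ltA X m2 m1 m0) (DA X m2 m1 m0 RY RZ))) N
  have h9 : ((((∑ c, g c) ^ N : ℚ)) : ℝ) ≤ ((((N + 1 : ℕ) : ℚ) ^ (Fintype.card (AC m2 m1 m0)) *
        ((∏ c, g c ^ t c) * ((univ.filter (fun J : Fin N → AC m2 m1 m0 =>
            ∀ c, (univ.filter (fun i => J i = c)).card = t c)).card : ℚ)) : ℚ) : ℝ) := by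
    exact_mod_cast ht2
  rw [Rat.cast_mul, Rat.cast_pow, Rat.cast_pow, Rat.cast_natCast] at h9
  refine h9.trans (mul_le_mul_of_nonneg_left (h7.trans h8) (by positivity))

end Stall
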