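import Mathlib

namespace Stall

open Finset

@[irreducible] def uu (t : ℕ) : ℕ := 2520 * t + 2519
@[irreducible] def PP (t : ℕ) : ℕ := 4 * (420 * t + 421) * (840 * t + 841) * (1120 * t + 1119)
@[irreducible] def ss (t : ℕ) : ℕ := 4 * (420 * t + 421) * (560 * t + 561) * (840 * t + 841)
@[irreducible] def mm (t : ℕ) : ℕ := 4 * (420 * t + 421)

/-
PROOF. C(m,3) = m(m-1)(m-2)/6 with m = 4(420t+421) = 1680t+1684, m-1 = 3(560t+561),
m-2 = 2(840t+841). (Nat.choose via descFactorial / succ_mul_choose_eq.) -/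
theorem choose_mm (t : ℕ) : (mm t).choose 3 = ss t := by
  have h := Nat.descFactorial_eq_factorial_mul_choose (mm t) 3
  have h1 : (mm t).descFactorial 3 = (mm t - 2) * ((mm t - 1) * (mm t * 1)) := rfl
  have h2 : mm t - 2 = 2 * (840 * t + 841) := by
    unfold mm
    omega
  have h3 : mm t - 1 = 3 * (560 * t + 561) := by
    unfold mm
    omega
  have h4 : Nat.factorial 3 = 6 := rfl
  rw [h1, h2, h3, h4] at h
  have h5 : 6 * (mm t).choose 3 = 6 * ss t := by
    rw [← h]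
    unfold mm ss
    ring
  omega

theorem Num_pascal {F : Type*} [Field F] (K : ℕ) (f : ℕ → F) :
    ∑ j ∈ range (K + 2), (-1 : F) ^ j * ((K + 1).choose j) * f j =
      ∑ j ∈ range (K + 1), (-1 : F) ^ j * (K.choose j) * f j -
        ∑ j ∈ range (K + 1), (-1 : F) ^ j * (K.choose j) * f (j + 1) := by
  have h1 : ∑ j ∈ range (K + 1), (-1 : F) ^ j * (K.choose j) * f j =
      ∑ j ∈ range (K + 1), (-1 : F) ^ (j + 1) * (K.choose (j + 1)) * f (j + 1) + f 0 := by
    have h2 := Finset.sum_range_succ' (fun j => (-1 : F) ^ j * (K.choose j) * f j) (K + 1)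
    rw [Finset.sum_range_succ] at h2
    simpa using h2
  rw [Finset.sum_range_succ', h1]
  have h3 : ∀ j ∈ range (K + 1), (-1 : F) ^ (j + 1) * ((K + 1).choose (j + 1)) * f (j + 1) =
      (-1 : F) ^ (j + 1) * (K.choose (j + 1)) * f (j + 1) -
        (-1 : F) ^ j * (K.choose j) * f (j + 1) := by
    intro j _
    rw [Nat.choose_succ_succ, Nat.cast_add, pow_succ]
    ring
  rw [Finset.sum_congr rfl h3, Finset.sum_sub_distrib]
  simp only [pow_zero, Nat.choose_zero_right, Nat.cast_one, one_mul]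
  ring

theorem Num_pf {F : Type*} [Field F] (K : ℕ) : ∀ (a r : F),
    (∀ j : ℕ, j ≤ K → a + r * j ≠ 0) →
    ∑ j ∈ range (K + 1), (-1 : F) ^ j * (K.choose j) / (a + r * j) =
      (K.factorial : F) * r ^ K / ∏ j ∈ range (K + 1), (a + r * j) := by
  induction K with
  | zero =>
    intro a r _
    simp
  | succ K ih =>
    intro a r h
    have h1 := Num_pascal K fun j => (a + r * (j : F))⁻¹
    simp only [← div_eq_mul_inv] at h1
    rw [h1, ih a r fun j hj => h j (hj.trans K.le_succ)]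
    have h2 : ∀ j : ℕ, a + r * ((j + 1 : ℕ) : F) = (a + r) + r * j := by
      intro j
      push_cast
      ring
    simp only [h2]
    rw [ih (a + r) r fun j hj => by
      rw [← h2]
      exact h (j + 1) (Nat.succ_le_succ hj)]
    have h3 : ∏ j ∈ range (K + 1 + 1), (a + r * (j : F)) =
        (∏ j ∈ range (K + 1), (a + r + r * (j : F))) * a := by
      rw [Finset.prod_range_succ', Nat.cast_zero, mul_zero, add_zero]
      simp only [h2]
    have h4 : ∏ j ∈ range (K + 1 + 1), (a + r * (j : F)) =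
        (∏ j ∈ range (K + 1), (a + r * (j : F))) * (a + r * (K + 1 : ℕ)) :=
      Finset.prod_range_succ _ _
    have h5 : ∏ j ∈ range (K + 1), (a + r * (j : F)) ≠ 0 :=
      Finset.prod_ne_zero_iff.2 fun j hj => h j (Finset.mem_range.1 hj).le
    have h6 : ∏ j ∈ range (K + 1), (a + r + r * (j : F)) ≠ 0 :=
      Finset.prod_ne_zero_iff.2 fun j hj => by
        rw [← h2]
        exact h (j + 1) (Finset.mem_range.1 hj)
    have h7 : a ≠ 0 := by
      have := h 0 (Nat.zero_le _)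
      simpa using this
    have h8 : a + r * ((K + 1 : ℕ) : F) ≠ 0 := h (K + 1) le_rfl
    have h9 : ∏ j ∈ range (K + 1 + 1), (a + r * (j : F)) ≠ 0 := by
      rw [h3]
      exact mul_ne_zero h6 h7
    rw [Nat.factorial_succ]
    have e1 : (K.factorial : F) * r ^ K / ∏ j ∈ range (K + 1), (a + r * (j : F)) =
        (K.factorial : F) * r ^ K * (a + r * (K + 1 : ℕ)) /
          ∏ j ∈ range (K + 1 + 1), (a + r * (j : F)) := by
      rw [h4, mul_div_mul_right _ _ h8]
    have e2 : (K.factorial : F) * r ^ K / ∏ j ∈ range (K + 1), (a + r + r * (j : F)) =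
        (K.factorial : F) * r ^ K * a / ∏ j ∈ range (K + 1 + 1), (a + r * (j : F)) := by
      rw [h3, mul_div_mul_right _ _ h7]
    rw [e1, e2, ← sub_div]
    congr 1
    push_cast
    ring

/-
PROOF. Induction on K (decomposition into fractions; Pascal), for all a at once; or Mathlib. -/
theorem partial_fractions (K : ℕ) (a r : ℚ) (h : ∀ j : ℕ, j ≤ K → a + r * j ≠ 0) :
    ∑ j ∈ range (K + 1), (-1 : ℚ) ^ j * (K.choose j) / (a + r * j) =
      (K.factorial : ℚ) * r ^ K / ∏ j ∈ range (K + 1), (a + r * j) := by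
  exact Num_pf K a r h

theorem Num_coprime (t : ℕ) : IsCoprime ((PP t : ℕ) : ℤ) ((uu t : ℕ) : ℤ) := by
  have h7 : IsCoprime (2520 : ℤ) ((uu t : ℕ) : ℤ) := by
    refine ⟨t + 1, -1, ?_⟩
    unfold uu
    push_cast
    ring
  have d : ∀ k : ℤ, k ∣ 2520 → IsCoprime k ((uu t : ℕ) : ℤ) := fun k hk =>
    IsCoprime.of_isCoprime_of_dvd_left h7 hk
  have key : ∀ x k l m : ℤ, k * x + l * (uu t : ℕ) = m → m ∣ 2520 →
      IsCoprime x ((uu t : ℕ) : ℤ) := by
    intro x k l m h1 h2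
    obtain ⟨p, q, hpq⟩ := d m h2
    refine ⟨p * k, p * l + q, ?_⟩
    rw [← hpq, ← h1]
    ring
  have a1 : IsCoprime (4 : ℤ) ((uu t : ℕ) : ℤ) := d 4 (by norm_num)
  have a2 : IsCoprime (420 * t + 421 : ℤ) ((uu t : ℕ) : ℤ) := by
    refine key _ 6 (-1) 7 ?_ (by norm_num)
    unfold uu
    push_cast
    ring
  have a3 : IsCoprime (840 * t + 841 : ℤ) ((uu t : ℕ) : ℤ) := by
    refine key _ 3 (-1) 4 ?_ (by norm_num)
    unfold uu
    push_cast
    ring
  have a4 : IsCoprime (1120 * t + 1119 : ℤ) ((uu t : ℕ) : ℤ) := by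
    refine key _ 9 (-4) (-5) ?_ (by norm_num)
    unfold uu
    push_cast
    ring
  have h := ((a1.mul_left a2).mul_left a3).mul_left a4
  unfold PP
  push_cast
  exact h

theorem Num_uu_pos (t : ℕ) : 0 < uu t := by
  unfold uu
  omega

theorem Num_exists (t : ℕ) (c : ℤ) :
    ∃ A : ℕ, A < uu t ∧ ∃ n : ℤ, (A : ℤ) * (PP t : ℤ) ^ 2 + c = uu t * n := by
  obtain ⟨p, q, hpq⟩ := (Num_coprime t).pow_left (m := 2)
  have hu : (0 : ℤ) < uu t := by exact_mod_cast Num_uu_pos t
  have h1 := Int.emod_nonneg (-c * p) hu.ne'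
  have h2 := Int.emod_lt_of_pos (-c * p) hu
  obtain ⟨A, hA⟩ := Int.eq_ofNat_of_zero_le h1
  refine ⟨A, ?_, ?_⟩
  · have : (A : ℤ) < uu t := by
      rw [← hA]
      exact h2
    exact_mod_cast this
  · have h3 : (A : ℤ) = -c * p - uu t * ((-c * p) / uu t) := by
      rw [← hA, Int.emod_def]
    refine ⟨c * q - ((-c * p) / uu t) * (PP t : ℤ) ^ 2, ?_⟩
    rw [h3]
    linear_combination (-c) * hpq

theorem Num_bound (K : ℕ) :
    K.factorial * 2520 ^ K * 2 ^ K ≤ ∏ j ∈ range (K + 1), uu (K + j) := by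
  have h1 : K.factorial * 2520 ^ K * 2 ^ K = ∏ j ∈ range K, ((j + 1) * 2520 * 2) := by
    rw [Finset.prod_mul_distrib, Finset.prod_mul_distrib, Finset.prod_const, Finset.prod_const,
      Finset.card_range, Finset.prod_range_add_one_eq_factorial]
  rw [h1, Finset.prod_range_succ']
  refine (Finset.prod_le_prod' fun j hj => ?_).trans
    (Nat.le_mul_of_pos_right _ (Num_uu_pos _))
  have := Finset.mem_range.1 hj
  unfold uu
  omega

/-
PROOF. u_j = uu (K+j) = 2520 (K+1+j) - 1 = a + 2520 j with a = 2520 (K+1) - 1. P_j = PP (K+j) is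
coprime to u_j: with t = K + j, u = 2520t+2519: 6 (420t+421) - u = 7, 3 (840t+841) - u = 4,
9 (1120t+1119) - 4u = -5, and 2520 (t+1) - u = 1 so u is coprime to 2, 3, 5, 7.
Choose A_j < u_j with A_j P_j^2 ≡ - (-1)^j C(K,j) mod u_j. Then A_j P_j^2/u_j +
(-1)^j C(K,j)/u_j is an integer for every j, and δ := sum_j (-1)^j C(K,j)/u_j =
K! 2520^K / prod_{j ≤ K} u_j > 0 (partial_fractions). δ ≤ 2^{-K}: δ = (1/u_0) prod_{j=1}^K
(2520 j / u_j) and 2 * 2520 j ≤ u_j for j ≤ K. The sum in the statement is an integer plus δ;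
the integer is ≥ 0 because P_j ≤ u_j s_j gives A_j P_j^2/u_j ≤ P_j^2 ≤ P_j u_j s_j, so the sum
is > 1 > δ (or: ≥ 0 and > -1).
-/
theorem design (K : ℕ) : ∃ A : Fin (K + 1) → ℕ, (∀ j, A j < uu (K + j)) ∧
    ∃ (M : ℕ) (δ : ℝ), 0 < δ ∧ δ ≤ (1 / 2) ^ K ∧
      ∑ j : Fin (K + 1), (4 * (PP (K + j) : ℝ) * uu (K + j) * ss (K + j) -
        A j * (PP (K + j) : ℝ) ^ 2 / uu (K + j)) = M + δ := by
  have hex : ∀ j : Fin (K + 1), ∃ A : ℕ, A < uu (K + j) ∧ ∃ n : ℤ,
      (A : ℤ) * (PP (K + j) : ℤ) ^ 2 + (-1) ^ (j : ℕ) * (K.choose j : ℤ) = uu (K + j) * n :=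
    fun j => Num_exists _ _
  choose A hA n hn using hex
  have hu : ∀ t, (0 : ℝ) < uu t := fun t => by exact_mod_cast Num_uu_pos t
  have huu : ∀ j : ℕ, (uu (K + j) : ℝ) = (2520 * K + 2519) + 2520 * (j : ℝ) := by
    intro j
    unfold uu
    push_cast
    ring
  set δ : ℝ := ∑ j ∈ range (K + 1), (-1 : ℝ) ^ j * (K.choose j) / uu (K + j) with hδ
  have hδ2 : δ = (K.factorial : ℝ) * 2520 ^ K / ∏ j ∈ range (K + 1), (uu (K + j) : ℝ) := by
    have h := Num_pf (F := ℝ) K (2520 * K + 2519) 2520 (fun j _ => by positivity)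
    rw [hδ]
    simp only [huu]
    exact h
  have hprod : (0 : ℝ) < ∏ j ∈ range (K + 1), (uu (K + j) : ℝ) :=
    Finset.prod_pos fun j _ => hu _
  have hδ0 : 0 < δ := by
    rw [hδ2]
    positivity
  have hδ1 : δ ≤ (1 / 2) ^ K := by
    rw [hδ2, div_le_iff₀ hprod, one_div, inv_pow, ← div_eq_inv_mul, le_div_iff₀ (by positivity)]
    have h := Num_bound K
    exact_mod_cast h
  set N : ℤ := ∑ j : Fin (K + 1), (4 * (PP (K + j) : ℤ) * uu (K + j) * ss (K + j) - n j) with hN
  have hsum : ∑ j : Fin (K + 1), (4 * (PP (K + j) : ℝ) * uu (K + j) * ss (K + j) -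
      A j * (PP (K + j) : ℝ) ^ 2 / uu (K + j)) = N + δ := by
    have e1 : δ = ∑ j : Fin (K + 1), (-1 : ℝ) ^ (j : ℕ) * (K.choose j) / uu (K + j) := by
      rw [hδ, Finset.sum_range]
    rw [e1, hN]
    push_cast
    rw [← Finset.sum_add_distrib]
    refine Finset.sum_congr rfl fun j _ => ?_
    have h1 : (A j : ℝ) * (PP (K + j) : ℝ) ^ 2 + (-1) ^ (j : ℕ) * (K.choose j : ℝ) =
        uu (K + j) * n j := by
      exact_mod_cast hn j
    have h2 := (hu (K + j)).ne'
    have h3 : (n j : ℝ) = ((A j : ℝ) * (PP (K + j) : ℝ) ^ 2 + (-1) ^ (j : ℕ) * (K.choose j : ℝ)) /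
        uu (K + j) := by
      rw [h1, mul_div_cancel_left₀ _ h2]
    rw [h3]
    ring
  have hpos : 0 < ∑ j : Fin (K + 1), (4 * (PP (K + j) : ℝ) * uu (K + j) * ss (K + j) -
      A j * (PP (K + j) : ℝ) ^ 2 / uu (K + j)) := by
    refine Finset.sum_pos (fun j _ => ?_) Finset.univ_nonempty
    rw [sub_pos, div_lt_iff₀ (hu _)]
    have h1 : (A j : ℝ) < uu (K + j) := by exact_mod_cast hA j
    have h2 : (PP (K + j) : ℝ) ≤ 4 * uu (K + j) * ss (K + j) := by
      have : PP (K + j) ≤ 4 * uu (K + j) * ss (K + j) := by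
        have h3 : PP (K + j) ≤ 2 * ss (K + j) := by
          unfold PP ss
          have : 1120 * (K + (j : ℕ)) + 1119 ≤ 2 * (560 * (K + j) + 561) := by omega
          calc 4 * (420 * (K + (j : ℕ)) + 421) * (840 * (K + j) + 841) *
                (1120 * (K + j) + 1119)
              ≤ 4 * (420 * (K + (j : ℕ)) + 421) * (840 * (K + j) + 841) *
                (2 * (560 * (K + j) + 561)) := Nat.mul_le_mul_left _ this
            _ = _ := by ring
        refine h3.trans (Nat.mul_le_mul_right _ ?_)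
        have := Num_uu_pos (K + j)
        omega
      exact_mod_cast this
    have hP : (0 : ℝ) < PP (K + j) := by
      have : 0 < PP (K + j) := by
        unfold PP
        positivity
      exact_mod_cast this
    have hA0 : (0 : ℝ) ≤ A j := Nat.cast_nonneg _
    calc (A j : ℝ) * (PP (K + j) : ℝ) ^ 2 < uu (K + j) * (PP (K + j) : ℝ) ^ 2 :=
          mul_lt_mul_of_pos_right h1 (by positivity)
      _ = (PP (K + j) : ℝ) * uu (K + j) * PP (K + j) := by ring
      _ ≤ (PP (K + j) : ℝ) * uu (K + j) * (4 * uu (K + j) * ss (K + j)) :=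
          mul_le_mul_of_nonneg_left h2 (mul_nonneg hP.le (hu _).le)
      _ = _ := by ring
  have hN0 : 0 ≤ N := by
    have h1 : (-1 : ℝ) < N := by
      have h2 : δ ≤ 1 := hδ1.trans (pow_le_one₀ (by norm_num) (by norm_num))
      rw [hsum] at hpos
      linarith
    have h3 : (-1 : ℤ) < N := by exact_mod_cast h1
    omega
  refine ⟨A, hA, N.toNat, δ, hδ0, hδ1, ?_⟩
  rw [hsum]
  congr 1
  have := Int.toNat_of_nonneg hN0
  exact_mod_cast this.symm

end Stall
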