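import Pool.Agent.H.MP_4f19f9_lc.h56.Defs

namespace Stall

open Finset

namespace OYaux

/-- indicator of membership -/
noncomputable def xx {m : ℕ} (a : Tr m) (i : Fin m) : ℝ := if i ∈ a.1 then 1 else 0

/-- the number of common elements, as a real number -/
noncomputable def SS {m : ℕ} (a b : Tr m) : ℝ := ∑ i, xx a i * xx b i

/-- the kernel as a polynomial -/
noncomputable def kp (m : ℕ) (s : ℝ) : ℝ :=
  s * (s - 1) * (s - 2) / 6 - s * (s - 1) / (2 * ((m : ℝ) - 4)) +
    2 * s / (((m : ℝ) - 3) * ((m : ℝ) - 4)) - 6 / (((m : ℝ) - 2) * ((m : ℝ) - 3) * ((m : ℝ) - 4))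

theorem xx_sq {m : ℕ} (a : Tr m) (i : Fin m) : xx a i * xx a i = xx a i := by
  unfold xx
  split_ifs <;> simp

theorem xx_zo {m : ℕ} (a : Tr m) (i : Fin m) : xx a i = 0 ∨ xx a i = 1 := by
  unfold xx
  split_ifs <;> simp

theorem sum_xx {m : ℕ} (a : Tr m) : ∑ i, xx a i = 3 := by
  unfold xx
  rw [Finset.sum_ite_mem, Finset.univ_inter, Finset.sum_const, a.2]
  norm_num

theorem SS_eq {m : ℕ} (a b : Tr m) : SS a b = ((a.1 ∩ b.1).card : ℝ) := by
  unfold SS xx
  have h : ∀ i : Fin m, (if i ∈ a.1 then (1 : ℝ) else 0) * (if i ∈ b.1 then 1 else 0) =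
      if i ∈ a.1 ∩ b.1 then 1 else 0 := by
    intro i
    by_cases h1 : i ∈ a.1 <;> by_cases h2 : i ∈ b.1 <;> simp [h1, h2]
  rw [Finset.sum_congr rfl fun i _ => h i, Finset.sum_ite_mem, Finset.univ_inter,
    Finset.sum_const]
  simp

theorem SS_comm {m : ℕ} (a b : Tr m) : SS a b = SS b a := by
  unfold SS
  exact Finset.sum_congr rfl fun i _ => mul_comm _ _

theorem SS_self {m : ℕ} (a : Tr m) : SS a a = 3 := by
  unfold SS
  rw [Finset.sum_congr rfl fun i _ => xx_sq a i, sum_xx]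

theorem tri_set {m : ℕ} {i j k : Fin m} (hij : i ≠ j) (hk : k ≠ i ∧ k ≠ j) :
    ({i, j, k} : Finset (Fin m)).card = 3 :=
  Finset.card_eq_three.2 ⟨i, j, k, hij, hk.1.symm, hk.2.symm, rfl⟩

/-- the triples with two given elements -/
theorem sum_pair {m : ℕ} {i j : Fin m} (hij : i ≠ j) (F : Tr m → ℝ) (G : Fin m → ℝ)
    (h : ∀ (k : Fin m) (hk : k ≠ i ∧ k ≠ j), F ⟨{i, j, k}, tri_set hij hk⟩ = G k) :
    ∑ b, F b * (xx b i * xx b j) = ∑ k ∈ univ.filter (fun k => k ≠ i ∧ k ≠ j), G k := by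
  have h1 : ∀ b : Tr m, F b * (xx b i * xx b j) =
      if i ∈ b.1 ∧ j ∈ b.1 then F b else 0 := by
    intro b
    unfold xx
    by_cases h1 : i ∈ b.1 <;> by_cases h2 : j ∈ b.1 <;> simp [h1, h2]
  rw [Finset.sum_congr rfl fun b _ => h1 b, ← Finset.sum_filter]
  symm
  refine Finset.sum_bij (fun k hk => ⟨{i, j, k}, tri_set hij (Finset.mem_filter.1 hk).2⟩)
    ?_ ?_ ?_ ?_
  · intro k hk
    rw [Finset.mem_filter]
    exact ⟨Finset.mem_univ _, by simp, by simp⟩
  · intro k hk k' hk' he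
    have h2 := (Finset.mem_filter.1 hk).2
    have h3 : ({i, j, k} : Finset (Fin m)) = {i, j, k'} := congrArg Subtype.val he
    have h4 : k ∈ ({i, j, k'} : Finset (Fin m)) := by
      rw [← h3]
      simp
    rw [Finset.mem_insert, Finset.mem_insert, Finset.mem_singleton] at h4
    rcases h4 with h4 | h4 | h4
    · exact absurd h4 h2.1
    · exact absurd h4 h2.2
    · exact h4
  · intro b hb
    obtain ⟨-, hi, hj⟩ := Finset.mem_filter.1 hb
    have hj' : j ∈ b.1.erase i := Finset.mem_erase.2 ⟨hij.symm, hj⟩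
    have hc : ((b.1.erase i).erase j).card = 1 := by
      rw [Finset.card_erase_of_mem hj', Finset.card_erase_of_mem hi, b.2]
    obtain ⟨k, hk⟩ := Finset.card_eq_one.1 hc
    have hkm : k ∈ (b.1.erase i).erase j := by
      rw [hk]
      exact Finset.mem_singleton_self k
    have hkj : k ≠ j := (Finset.mem_erase.1 hkm).1
    have hki : k ≠ i := (Finset.mem_erase.1 (Finset.mem_erase.1 hkm).2).1
    refine ⟨k, Finset.mem_filter.2 ⟨Finset.mem_univ _, hki, hkj⟩, ?_⟩
    apply Subtype.ext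
    change ({i, j, k} : Finset (Fin m)) = b.1
    rw [← Finset.insert_erase hi, ← Finset.insert_erase hj', hk]
  · intro k hk
    exact (h k (Finset.mem_filter.1 hk).2).symm

theorem xx_tri {m : ℕ} (a : Tr m) {i j k : Fin m} (hij : i ≠ j) (hk : k ≠ i ∧ k ≠ j) :
    SS a ⟨{i, j, k}, tri_set hij hk⟩ = xx a i + xx a j + xx a k := by
  unfold SS
  have h1 : ∀ l : Fin m, xx a l * xx (⟨{i, j, k}, tri_set hij hk⟩ : Tr m) l =
      if l ∈ ({i, j, k} : Finset (Fin m)) then xx a l else 0 := by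
    intro l
    change xx a l * (if l ∈ ({i, j, k} : Finset (Fin m)) then 1 else 0) = _
    rw [mul_ite, mul_one, mul_zero]
  rw [Finset.sum_congr rfl fun l _ => h1 l, Finset.sum_ite_mem, Finset.univ_inter,
    Finset.sum_insert, Finset.sum_insert, Finset.sum_singleton, add_assoc]
  · rw [Finset.mem_singleton]
    exact hk.2.symm
  · rw [Finset.mem_insert, Finset.mem_singleton]
    rintro (h | h)
    · exact hij h
    · exact hk.1 h.symm

theorem kp_rel {m : ℕ} (hm : 8 ≤ m) (e : ℝ) (he : e = 0 ∨ e = 1 ∨ e = 2) :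
    ((m : ℝ) - 2) * kp m e + (3 - e) * (kp m (e + 1) - kp m e) = 0 := by
  have hm' : (8 : ℝ) ≤ m := by exact_mod_cast hm
  have h2 : (m : ℝ) - 2 ≠ 0 := by
    intro h
    linarith
  have h3 : (m : ℝ) - 3 ≠ 0 := by
    intro h
    linarith
  have h4 : (m : ℝ) - 4 ≠ 0 := by
    intro h
    linarith
  unfold kp
  rcases he with rfl | rfl | rfl <;> field_simp <;> ring

/-- (A) -/
theorem sum_A {m : ℕ} (hm : 8 ≤ m) (a : Tr m) {i j : Fin m} (hij : i ≠ j) :
    ∑ b, kp m (SS a b) * (xx b i * xx b j) = 0 := by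
  rw [sum_pair hij (fun b => kp m (SS a b)) (fun k => kp m (xx a i + xx a j) +
    xx a k * (kp m (xx a i + xx a j + 1) - kp m (xx a i + xx a j)))]
  · rw [Finset.sum_add_distrib, ← Finset.sum_mul, Finset.sum_const, nsmul_eq_mul]
    have hc : ((univ.filter (fun k : Fin m => k ≠ i ∧ k ≠ j)).card : ℝ) = (m : ℝ) - 2 := by
      have h1 : univ.filter (fun k : Fin m => k ≠ i ∧ k ≠ j) = (univ.erase i).erase j := by
        ext k
        simp only [Finset.mem_filter, Finset.mem_univ, true_and, Finset.mem_erase, and_true]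
        exact and_comm
      rw [h1, Finset.card_erase_of_mem, Finset.card_erase_of_mem (Finset.mem_univ _),
        Finset.card_univ, Fintype.card_fin]
      · rw [Nat.sub_sub, Nat.cast_sub (by omega)]
        norm_num
      · exact Finset.mem_erase.2 ⟨hij.symm, Finset.mem_univ _⟩
    have hs : ∑ k ∈ univ.filter (fun k : Fin m => k ≠ i ∧ k ≠ j), xx a k =
        3 - (xx a i + xx a j) := by
      have h1 : univ.filter (fun k : Fin m => k ≠ i ∧ k ≠ j) = (univ.erase i).erase j := by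
        ext k
        simp only [Finset.mem_filter, Finset.mem_univ, true_and, Finset.mem_erase, and_true]
        exact and_comm
      have h2 := Finset.add_sum_erase univ (xx a) (Finset.mem_univ i)
      have h3 := Finset.add_sum_erase (univ.erase i) (xx a)
        (Finset.mem_erase.2 ⟨hij.symm, Finset.mem_univ j⟩)
      rw [sum_xx] at h2
      rw [h1]
      linarith
    rw [hc, hs]
    refine kp_rel hm _ ?_
    rcases xx_zo a i with h | h <;> rcases xx_zo a j with h' | h' <;> rw [h, h'] <;> norm_num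
  · intro k hk
    rw [xx_tri a hij hk]
    rcases xx_zo a k with h | h <;> rw [h]
    · rw [add_zero, zero_mul, add_zero]
    · ring

theorem sum_B {m : ℕ} (hm : 8 ≤ m) (a : Tr m) (i : Fin m) :
    ∑ b, kp m (SS a b) * xx b i = 0 := by
  have h1 : ∑ j, ∑ b, kp m (SS a b) * (xx b i * xx b j) =
      3 * ∑ b, kp m (SS a b) * xx b i := by
    rw [Finset.sum_comm, Finset.mul_sum]
    refine Finset.sum_congr rfl fun b _ => ?_
    rw [← Finset.mul_sum, ← Finset.mul_sum, sum_xx]
    ring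
  have h2 : ∑ j, ∑ b, kp m (SS a b) * (xx b i * xx b j) = ∑ b, kp m (SS a b) * xx b i := by
    rw [Finset.sum_eq_single i]
    · exact Finset.sum_congr rfl fun b _ => by rw [xx_sq]
    · intro j _ hj
      exact sum_A hm a hj.symm
    · intro h
      exact absurd (Finset.mem_univ i) h
  linarith

theorem sum_C {m : ℕ} (hm : 8 ≤ m) (a : Tr m) : ∑ b, kp m (SS a b) = 0 := by
  have h1 : ∑ j, ∑ b, kp m (SS a b) * xx b j = 3 * ∑ b, kp m (SS a b) := by
    rw [Finset.sum_comm, Finset.mul_sum]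
    refine Finset.sum_congr rfl fun b _ => ?_
    rw [← Finset.mul_sum, sum_xx]
    ring
  rw [Finset.sum_eq_zero fun j _ => sum_B hm a j] at h1
  linarith

theorem pairs {m : ℕ} (b a : Tr m) : SS b a * (SS b a - 1) =
    ∑ i, ∑ j ∈ univ.erase i, xx a i * xx a j * (xx b i * xx b j) := by
  have h1 : ∀ i : Fin m, ∑ j ∈ univ.erase i, xx a i * xx a j * (xx b i * xx b j) =
      xx a i * xx b i * SS b a - xx a i * xx b i := by
    intro i
    have h2 := Finset.add_sum_erase univ (fun j => xx a i * xx a j * (xx b i * xx b j))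
      (Finset.mem_univ i)
    have h3 : ∑ j, xx a i * xx a j * (xx b i * xx b j) = xx a i * xx b i * SS b a := by
      unfold SS
      rw [Finset.mul_sum]
      exact Finset.sum_congr rfl fun j _ => by ring
    have h4 : xx a i * xx a i * (xx b i * xx b i) = xx a i * xx b i := by rw [xx_sq, xx_sq]
    rw [h3, h4] at h2
    linarith
  rw [Finset.sum_congr rfl fun i _ => h1 i, Finset.sum_sub_distrib, ← Finset.sum_mul]
  change _ = (∑ i, xx a i * xx b i) * SS b a - ∑ i, xx a i * xx b i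
  change _ = SS a b * SS b a - SS a b
  rw [SS_comm a b]
  ring

theorem kp_idem {m : ℕ} (hm : 8 ≤ m) (a a' : Tr m) :
    ∑ b, kp m (SS a b) * kp m (SS b a') = kp m (SS a a') := by
  have h1 : ∀ b : Tr m, SS b a' * (SS b a' - 1) * (SS b a' - 2) / 6 =
      if b = a' then 1 else 0 := by
    intro b
    by_cases h : b = a'
    · rw [if_pos h, h, SS_self]
      norm_num
    · rw [if_neg h, SS_eq]
      have h2 : (b.1 ∩ a'.1).card < 3 := by
        by_contra hc
        have h3 : (b.1 ∩ a'.1).card ≤ b.1.card := Finset.card_le_card Finset.inter_subset_left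
        have h4 : b.1 ∩ a'.1 = b.1 :=
          Finset.eq_of_subset_of_card_le Finset.inter_subset_left (by rw [b.2]; omega)
        have h5 : b.1 ∩ a'.1 = a'.1 :=
          Finset.eq_of_subset_of_card_le Finset.inter_subset_right (by rw [a'.2]; omega)
        exact h (Subtype.ext (h4.symm.trans h5))
      interval_cases h6 : (b.1 ∩ a'.1).card <;> norm_num
  have h2 : ∀ b : Tr m, kp m (SS a b) * kp m (SS b a') =
      kp m (SS a b) * (if b = a' then 1 else 0) -
      (∑ i, ∑ j ∈ univ.erase i, xx a' i * xx a' j * (kp m (SS a b) * (xx b i * xx b j))) *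
        (1 / (2 * ((m : ℝ) - 4))) +
      (∑ i, xx a' i * (kp m (SS a b) * xx b i)) * (2 / (((m : ℝ) - 3) * ((m : ℝ) - 4))) -
      kp m (SS a b) * (6 / (((m : ℝ) - 2) * ((m : ℝ) - 3) * ((m : ℝ) - 4))) := by
    intro b
    have h3 : ∑ i, ∑ j ∈ univ.erase i, xx a' i * xx a' j * (kp m (SS a b) * (xx b i * xx b j)) =
        kp m (SS a b) * (SS b a' * (SS b a' - 1)) := by
      rw [pairs b a', Finset.mul_sum]
      refine Finset.sum_congr rfl fun i _ => ?_
      rw [Finset.mul_sum]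
      exact Finset.sum_congr rfl fun j _ => by ring
    have h4 : ∑ i, xx a' i * (kp m (SS a b) * xx b i) = kp m (SS a b) * SS b a' := by
      unfold SS
      rw [Finset.mul_sum]
      exact Finset.sum_congr rfl fun j _ => by ring
    rw [h3, h4, ← h1 b]
    have h5 : kp m (SS b a') = SS b a' * (SS b a' - 1) * (SS b a' - 2) / 6 -
        SS b a' * (SS b a' - 1) / (2 * ((m : ℝ) - 4)) +
        2 * SS b a' / (((m : ℝ) - 3) * ((m : ℝ) - 4)) -
        6 / (((m : ℝ) - 2) * ((m : ℝ) - 3) * ((m : ℝ) - 4)) := rfl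
    rw [h5]
    ring
  rw [Finset.sum_congr rfl fun b _ => h2 b, Finset.sum_sub_distrib, Finset.sum_add_distrib,
    Finset.sum_sub_distrib, ← Finset.sum_mul, ← Finset.sum_mul, ← Finset.sum_mul, sum_C hm a]
  have h6 : ∑ b, ∑ i, xx a' i * (kp m (SS a b) * xx b i) = 0 := by
    rw [Finset.sum_comm]
    refine Finset.sum_eq_zero fun i _ => ?_
    rw [← Finset.mul_sum, sum_B hm a i, mul_zero]
  have h7 : ∑ b, ∑ i, ∑ j ∈ univ.erase i,
      xx a' i * xx a' j * (kp m (SS a b) * (xx b i * xx b j)) = 0 := by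
    rw [Finset.sum_comm]
    refine Finset.sum_eq_zero fun i _ => ?_
    rw [Finset.sum_comm]
    refine Finset.sum_eq_zero fun j hj => ?_
    rw [← Finset.mul_sum, sum_A hm a (Finset.ne_of_mem_erase hj).symm, mul_zero]
  rw [h6, h7]
  have h8 : ∑ b, kp m (SS a b) * (if b = a' then (1 : ℝ) else 0) = kp m (SS a a') := by
    simp only [mul_ite, mul_one, mul_zero, Finset.sum_ite_eq', Finset.mem_univ, if_true]
  rw [h8]
  ring

theorem sum_centered {m : ℕ} (hm : 8 ≤ m) (a b : Tr m) :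
    ∑ i, (xx a i - 3 / (m : ℝ)) * (xx b i - 3 / (m : ℝ)) = SS a b - 9 / m := by
  have hm' : (m : ℝ) ≠ 0 := by
    have : (8 : ℝ) ≤ m := by exact_mod_cast hm
    intro h
    linarith
  have h1 : ∀ i : Fin m, (xx a i - 3 / (m : ℝ)) * (xx b i - 3 / (m : ℝ)) =
      xx a i * xx b i - xx a i * (3 / m) - xx b i * (3 / m) + 9 / (m : ℝ) ^ 2 := by
    intro i
    ring
  rw [Finset.sum_congr rfl fun i _ => h1 i, Finset.sum_add_distrib, Finset.sum_sub_distrib,
    Finset.sum_sub_distrib, ← Finset.sum_mul, ← Finset.sum_mul, sum_xx, sum_xx, Finset.sum_const,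
    Finset.card_univ, Fintype.card_fin, nsmul_eq_mul]
  change SS a b - _ - _ + _ = _
  field_simp
  ring

end OYaux

open OYaux

/-
PROOF. For triples a, b let s(a,b) = card (a ∩ b) in {0,1,2,3}; s = 3 iff a = b. DY a b means s = 0
or 2. Put y = m(m-2)(2m-11)/(3(3m-14)) (all factors positive for m ≥ 8).
Kernel κ(s) = c_s / ((m-2)(m-3)(m-4)), c_3 = (m-3)(m-4)(m-5), c_2 = -(m-4)(m-5), c_1 = 2(m-5),
c_0 = -6; equivalently κ(s) = C(s,3) - C(s,2)/(m-4) + 2s/((m-3)(m-4)) - 6/((m-2)(m-3)(m-4)).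
(A) for every triple a and i ≠ j: sum over the triples b containing i and j of κ(s(a,b)) = 0.
    (b = {i,j,k}, k ≠ i,j; with e = [i∈a]+[j∈a] there are 3-e indices k in a and m-5+e not in a:
    (3-e) κ(e+1) + (m-5+e) κ(e) = 0 for e = 0, 1, 2.)
    Summing over j ≠ i: sum over the b containing i of κ(s(a,b)) = 0; summing over i: sum_b κ = 0.
(B) sum_b κ(s(a,b)) κ(s(b,a')) = κ(s(a,a')): write κ(s(b,a')) = [b = a'] - (number of pairs inside
    b ∩ a')/(m-4) + 2 (number of elements of b ∩ a')/((m-3)(m-4)) - const and use (A).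
Vectors: index type Unit ⊕ (Fin m ⊕ Tr m);
v_a = (1, μ1 ([i ∈ a] - 3/m), μ3 κ(s(a,b))), h = (1, 0, 0),
μ1^2 = y (m-7)/((m-3)(2m-11)), μ3^2 = y (2m-8)/(2m-11) (square roots of nonnegative reals).
h.h = 1, h.v_a = 1. Inner products: sum_i ([i∈a]-3/m)([i∈a']-3/m) = s - 9/m, so by (B)
v_a . v_a' = 1 + y/(2m-11) * ( (m-7)/(m-3) * (s - 9/m) + (2m-8) κ(s) ), and this is
y for s = 3, 0 for s = 2, y/(2m-11) for s = 1, 0 for s = 0 (field_simp; ring; checked by computer).
-/
theorem orep_DY (m : ℕ) (hm : 8 ≤ m) : ORep (DY m) (fun _ => ())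
    (fun _ => (m : ℝ) * (m - 2) * (2 * m - 11) / (3 * (3 * m - 14))) := by
  have hm' : (8 : ℝ) ≤ m := by exact_mod_cast hm
  set y : ℝ := (m : ℝ) * (m - 2) * (2 * m - 11) / (3 * (3 * m - 14)) with hy
  have hy0 : 0 ≤ y := by
    rw [hy]
    apply div_nonneg
    · apply mul_nonneg
      · apply mul_nonneg <;> linarith
      · linarith
    · linarith
  have hA0 : 0 ≤ y * (m - 7) / ((m - 3) * (2 * m - 11)) := by
    apply div_nonneg
    · apply mul_nonneg hy0
      linarith
    · apply mul_nonneg <;> linarith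
  have hB0 : 0 ≤ y * (2 * m - 8) / (2 * m - 11) := by
    apply div_nonneg
    · apply mul_nonneg hy0
      linarith
    · linarith
  set μ1 : ℝ := Real.sqrt (y * (m - 7) / ((m - 3) * (2 * m - 11))) with hμ1
  set μ3 : ℝ := Real.sqrt (y * (2 * m - 8) / (2 * m - 11)) with hμ3
  have e1 : μ1 * μ1 = y * (m - 7) / ((m - 3) * (2 * m - 11)) := Real.mul_self_sqrt hA0
  have e3 : μ3 * μ3 = y * (2 * m - 8) / (2 * m - 11) := Real.mul_self_sqrt hB0
  let v : Tr m → (Unit ⊕ (Fin m ⊕ Tr m)) → ℝ := fun a k =>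
    Sum.elim (fun _ => 1) (Sum.elim (fun i => μ1 * (xx a i - 3 / (m : ℝ)))
      (fun b => μ3 * kp m (SS a b))) k
  let h : Unit → (Unit ⊕ (Fin m ⊕ Tr m)) → ℝ := fun _ k => Sum.elim (fun _ => 1) (fun _ => 0) k
  have hv : ∀ a b : Tr m, ∑ k, v a k * v b k = 1 + y * (m - 7) / ((m - 3) * (2 * m - 11)) *
      (SS a b - 9 / m) + y * (2 * m - 8) / (2 * m - 11) * kp m (SS a b) := by
    intro a b
    rw [Fintype.sum_sum_type, Fintype.sum_sum_type]
    have t1 : ∑ x : Unit, v a (Sum.inl x) * v b (Sum.inl x) = 1 := by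
      change ∑ x : Unit, (1 : ℝ) * 1 = 1
      simp
    have t2 : ∑ i : Fin m, v a (Sum.inr (Sum.inl i)) * v b (Sum.inr (Sum.inl i)) =
        y * (m - 7) / ((m - 3) * (2 * m - 11)) * (SS a b - 9 / m) := by
      change ∑ i : Fin m, (μ1 * (xx a i - 3 / (m : ℝ))) * (μ1 * (xx b i - 3 / (m : ℝ))) = _
      rw [← sum_centered hm a b, ← e1, Finset.mul_sum]
      exact Finset.sum_congr rfl fun i _ => by ring
    have t3 : ∑ c : Tr m, v a (Sum.inr (Sum.inr c)) * v b (Sum.inr (Sum.inr c)) =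
        y * (2 * m - 8) / (2 * m - 11) * kp m (SS a b) := by
      change ∑ c : Tr m, (μ3 * kp m (SS a c)) * (μ3 * kp m (SS b c)) = _
      rw [← kp_idem hm a b, ← e3, Finset.mul_sum]
      exact Finset.sum_congr rfl fun c _ => by rw [SS_comm b c]; ring
    rw [t1, t2, t3]
    ring
  have hval3 : 1 + y * (m - 7) / ((m - 3) * (2 * m - 11)) * ((3 : ℝ) - 9 / m) +
      y * (2 * m - 8) / (2 * m - 11) * kp m 3 = y := by
    rw [hy]
    unfold kp
    have n0 : (m : ℝ) ≠ 0 := by intro h0; linarith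
    have n2 : (m : ℝ) - 2 ≠ 0 := by intro h0; linarith
    have n3 : (m : ℝ) - 3 ≠ 0 := by intro h0; linarith
    have n4 : (m : ℝ) - 4 ≠ 0 := by intro h0; linarith
    have n5 : (m : ℝ) * 2 - 11 ≠ 0 := by intro h0; linarith
    have n6 : (m : ℝ) * 3 - 14 ≠ 0 := by intro h0; linarith
    field_simp
    ring
  have hval2 : 1 + y * (m - 7) / ((m - 3) * (2 * m - 11)) * ((2 : ℝ) - 9 / m) +
      y * (2 * m - 8) / (2 * m - 11) * kp m 2 = 0 := by
    rw [hy]
    unfold kp
    have n0 : (m : ℝ) ≠ 0 := by intro h0; linarith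
    have n2 : (m : ℝ) - 2 ≠ 0 := by intro h0; linarith
    have n3 : (m : ℝ) - 3 ≠ 0 := by intro h0; linarith
    have n4 : (m : ℝ) - 4 ≠ 0 := by intro h0; linarith
    have n5 : (m : ℝ) * 2 - 11 ≠ 0 := by intro h0; linarith
    have n6 : (m : ℝ) * 3 - 14 ≠ 0 := by intro h0; linarith
    field_simp
    ring
  have hval0 : 1 + y * (m - 7) / ((m - 3) * (2 * m - 11)) * ((0 : ℝ) - 9 / m) +
      y * (2 * m - 8) / (2 * m - 11) * kp m 0 = 0 := by
    rw [hy]
    unfold kp
    have n0 : (m : ℝ) ≠ 0 := by intro h0; linarith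
    have n2 : (m : ℝ) - 2 ≠ 0 := by intro h0; linarith
    have n3 : (m : ℝ) - 3 ≠ 0 := by intro h0; linarith
    have n4 : (m : ℝ) - 4 ≠ 0 := by intro h0; linarith
    have n5 : (m : ℝ) * 2 - 11 ≠ 0 := by intro h0; linarith
    have n6 : (m : ℝ) * 3 - 14 ≠ 0 := by intro h0; linarith
    field_simp
    ring
  refine ⟨Unit ⊕ (Fin m ⊕ Tr m), inferInstance, v, h, ?_, ?_, ?_, ?_⟩
  · intro c
    rw [Fintype.sum_sum_type]
    change ∑ x : Unit, (1 : ℝ) ^ 2 + ∑ x : Fin m ⊕ Tr m, (0 : ℝ) ^ 2 = 1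
    simp
  · intro a
    rw [Fintype.sum_sum_type]
    change ∑ x : Unit, (1 : ℝ) * 1 + ∑ x : Fin m ⊕ Tr m, (0 : ℝ) * v a (Sum.inr x) = 1
    simp
  · intro a
    have h1 := hv a a
    rw [SS_self, hval3] at h1
    rw [← h1]
    exact Finset.sum_congr rfl fun k _ => by ring
  · intro a b _ hab
    rw [hv a b, SS_eq]
    have hle : (a.1 ∩ b.1).card < 3 := by
      by_contra hc
      have h4 : a.1 ∩ b.1 = a.1 :=
        Finset.eq_of_subset_of_card_le Finset.inter_subset_left (by rw [a.2]; omega)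
      have h5 : a.1 ∩ b.1 = b.1 :=
        Finset.eq_of_subset_of_card_le Finset.inter_subset_right (by rw [b.2]; omega)
      exact hab.1 (Subtype.ext (h4.symm.trans h5))
    have hne := hab.2
    have hcase : (a.1 ∩ b.1).card = 0 ∨ (a.1 ∩ b.1).card = 2 := by omega
    rcases hcase with h0 | h0
    · rw [h0, Nat.cast_zero]
      exact hval0
    · rw [h0]
      exact_mod_cast hval2

end Stall
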