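import Pool.Agent.H.MP_4f19f9_lc.h56.Defs

namespace Stall

open Finset

/-- indicator of a triple -/
private noncomputable def OZ_c {m : ℕ} (a : Tr m) (i : Fin m) : ℝ := if i ∈ a.1 then 1 else 0

private theorem OZ_sum {m : ℕ} (a : Tr m) : ∑ i, OZ_c a i = 3 := by
  unfold OZ_c
  rw [Finset.sum_boole]
  have h : (univ.filter fun i => i ∈ a.1) = a.1 := by
    ext i
    simp
  rw [h, a.2]
  norm_num

private theorem OZ_mul {m : ℕ} (a b : Tr m) :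
    ∑ i, OZ_c a i * OZ_c b i = ((a.1 ∩ b.1).card : ℝ) := by
  have h : ∀ i, OZ_c a i * OZ_c b i = if i ∈ a.1 ∩ b.1 then 1 else 0 := by
    intro i
    unfold OZ_c
    by_cases h1 : i ∈ a.1 <;> by_cases h2 : i ∈ b.1 <;> simp [h1, h2]
  rw [Finset.sum_congr rfl fun i _ => h i, Finset.sum_boole]
  congr 2
  ext i
  simp

private theorem OZ_lin {m : ℕ} (a b : Tr m) (A B C D : ℝ) :
    ∑ i, (A * (OZ_c a i * OZ_c b i) + B * OZ_c a i + C * OZ_c b i + D) =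
      A * ((a.1 ∩ b.1).card : ℝ) + B * 3 + C * 3 + m * D := by
  rw [Finset.sum_add_distrib, Finset.sum_add_distrib, Finset.sum_add_distrib, ← Finset.mul_sum,
    ← Finset.mul_sum, ← Finset.mul_sum, OZ_mul, OZ_sum, OZ_sum, Finset.sum_const, card_univ,
    Fintype.card_fin, nsmul_eq_mul]

/-- the entries off the diagonal -/
private noncomputable def OZ_F {m : ℕ} (t u : ℝ) (a : Tr m) (i j : Fin m) : ℝ :=
  OZ_c a i * OZ_c a j - t * (OZ_c a i + OZ_c a j) + u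

private theorem OZ_full {m : ℕ} (t u : ℝ) (a b : Tr m) (s : ℝ)
    (hs : ((a.1 ∩ b.1).card : ℝ) = s) :
    ∑ i, ∑ j, OZ_F t u a i j * OZ_F t u b i j =
      (s - 3 * t - 3 * t + m * t ^ 2) * s + 2 * (3 * u + 3 * t ^ 2 - t * s - m * u * t) * 3 +
        m * (t ^ 2 * s - 6 * t * u + m * u ^ 2) := by
  have h1 : ∀ i, ∑ j, OZ_F t u a i j * OZ_F t u b i j =
      (s - 3 * t - 3 * t + m * t ^ 2) * (OZ_c a i * OZ_c b i) +
        (3 * u + 3 * t ^ 2 - t * s - m * u * t) * OZ_c a i +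
        (3 * u + 3 * t ^ 2 - t * s - m * u * t) * OZ_c b i +
        (t ^ 2 * s - 6 * t * u + m * u ^ 2) := by
    intro i
    have h2 : ∀ j, OZ_F t u a i j * OZ_F t u b i j =
        ((OZ_c a i - t) * (OZ_c b i - t)) * (OZ_c a j * OZ_c b j) +
          ((OZ_c a i - t) * (u - t * OZ_c b i)) * OZ_c a j +
          ((u - t * OZ_c a i) * (OZ_c b i - t)) * OZ_c b j +
          (u - t * OZ_c a i) * (u - t * OZ_c b i) := by
      intro j
      unfold OZ_F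
      ring
    rw [Finset.sum_congr rfl fun j _ => h2 j, OZ_lin, hs]
    ring
  rw [Finset.sum_congr rfl fun i _ => h1 i, OZ_lin, hs]
  ring

private theorem OZ_diag {m : ℕ} (t u : ℝ) (a b : Tr m) (s : ℝ)
    (hs : ((a.1 ∩ b.1).card : ℝ) = s) :
    ∑ i, OZ_F t u a i i * OZ_F t u b i i =
      (1 - 2 * t) ^ 2 * s + 2 * (u * (1 - 2 * t)) * 3 + m * u ^ 2 := by
  have h2 : ∀ i, OZ_F t u a i i * OZ_F t u b i i =
      (1 - 2 * t) ^ 2 * (OZ_c a i * OZ_c b i) + (u * (1 - 2 * t)) * OZ_c a i +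
        (u * (1 - 2 * t)) * OZ_c b i + u ^ 2 := by
    intro i
    unfold OZ_F OZ_c
    by_cases h1 : i ∈ a.1 <;> by_cases h2 : i ∈ b.1 <;> simp only [h1, h2, if_true, if_false] <;>
      ring
  rw [Finset.sum_congr rfl fun i _ => h2 i, OZ_lin, hs]
  ring

/-- the matrices with zero diagonal -/
private noncomputable def OZ_q {m : ℕ} (t u : ℝ) (a : Tr m) (p : Fin m × Fin m) : ℝ :=
  if p.1 = p.2 then 0 else OZ_F t u a p.1 p.2

private theorem OZ_q_mul {m : ℕ} (t u : ℝ) (a b : Tr m) (s : ℝ)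
    (hs : ((a.1 ∩ b.1).card : ℝ) = s) :
    ∑ p, OZ_q t u a p * OZ_q t u b p =
      ((s - 3 * t - 3 * t + m * t ^ 2) * s + 2 * (3 * u + 3 * t ^ 2 - t * s - m * u * t) * 3 +
        m * (t ^ 2 * s - 6 * t * u + m * u ^ 2)) -
      ((1 - 2 * t) ^ 2 * s + 2 * (u * (1 - 2 * t)) * 3 + m * u ^ 2) := by
  rw [← OZ_full t u a b s hs, ← OZ_diag t u a b s hs, Fintype.sum_prod_type,
    ← Finset.sum_sub_distrib]
  refine Finset.sum_congr rfl fun i _ => ?_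
  have h1 : ∀ j, OZ_q t u a (i, j) * OZ_q t u b (i, j) =
      OZ_F t u a i j * OZ_F t u b i j -
        if i = j then OZ_F t u a i j * OZ_F t u b i j else 0 := by
    intro j
    unfold OZ_q
    by_cases h : i = j
    · simp [h]
    · simp [h]
  rw [Finset.sum_congr rfl fun j _ => h1 j, Finset.sum_sub_distrib, Finset.sum_ite_eq,
    if_pos (mem_univ i)]

private theorem OZ_val {m : ℕ} (hm : 8 ≤ m) (a b : Tr m) (s : ℝ)
    (hs : ((a.1 ∩ b.1).card : ℝ) = s) :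
    ∑ p, OZ_q (2 / ((m : ℝ) - 2)) (6 / (((m : ℝ) - 1) * (m - 2))) a p *
        OZ_q (2 / ((m : ℝ) - 2)) (6 / (((m : ℝ) - 1) * (m - 2))) b p =
      s * (s - 1) - 8 * s / (m - 2) + 36 / (((m : ℝ) - 1) * (m - 2)) := by
  have h8 : (8 : ℝ) ≤ m := by exact_mod_cast hm
  have e1 : (m : ℝ) - 1 ≠ 0 := by
    intro h
    linarith
  have e2 : (m : ℝ) - 2 ≠ 0 := by
    intro h
    linarith
  rw [OZ_q_mul _ _ a b s hs]
  field_simp
  ring

private theorem OZ_alg (x s w : ℝ) (h1 : x - 1 ≠ 0) (h2 : x - 2 ≠ 0) (hw : w ≠ 0) :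
    (x - 1) * (x - 2) / w * (s * (s - 1) - 8 * s / (x - 2) + 36 / ((x - 1) * (x - 2))) =
      (s * (s - 1) * (x - 1) * (x - 2) - 8 * s * (x - 1) + 36) / w := by
  field_simp

private theorem OZ_alg2 (A B c : ℝ) (hc : c ≠ 0) (h : 4 * c + A = 2 * B) :
    1 + A / (4 * c) = B / (2 * c) := by
  field_simp
  linarith

/-
PROOF. For triples a, b let s = card (a ∩ b); DZ a b means s = 1. z = (m-1)(3m-14)/(2(2m-11)).
For a triple a and (i,j) with i ≠ j let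
q_a(i,j) = [i∈a][j∈a] - (2/(m-2)) ([i∈a] + [j∈a]) + 6/((m-1)(m-2)), and q_a(i,i) = 0.
Then sum_j q_a(i,j) = 0 for every i (2[i∈a] - (2/(m-2))((m-1)[i∈a] + 3 - [i∈a]) + 6/(m-2) = 0).
So sum over (i,j) of q_a q_b = sum over i ≠ j of [i∈a][j∈a] q_b(i,j)
 = s(s-1) - (2/(m-2)) * 4 s + 36/((m-1)(m-2)).
(sum over ordered pairs i ≠ j in a of [i∈b] is 2 s.)
Vectors: index type Unit ⊕ (Fin m × Fin m), v_a = (1, λ q_a), h = (1, 0), with
λ^2 = (m-1)(m-2)/(4(2m-11)). Then h.h = 1, h.v_a = 1 and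
v_a . v_b = 1 + λ^2 (s(s-1) - 8s/(m-2) + 36/((m-1)(m-2))) which is z for s = 3 (a = b) and 0 for
s = 1: 1 + (m-1)(m-2)/(4(2m-11)) * (-8/(m-2) + 36/((m-1)(m-2))) = 1 + (-8(m-1)+36)/(4(2m-11)) = 0.
s = 3: 1 + (6(m-1)(m-2) - 24(m-1) + 36)/(4(2m-11)) = (3m^2-17m+14)/(2(2m-11)) = z.
-/
theorem orep_DZ (m : ℕ) (hm : 8 ≤ m) : ORep (DZ m) (fun _ => ())
    (fun _ => ((m : ℝ) - 1) * (3 * m - 14) / (2 * (2 * m - 11))) := by
  have h8 : (8 : ℝ) ≤ m := by exact_mod_cast hm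
  have e1 : (m : ℝ) - 1 ≠ 0 := by
    intro h
    linarith
  have e2 : (m : ℝ) - 2 ≠ 0 := by
    intro h
    linarith
  have e3 : 2 * (m : ℝ) - 11 ≠ 0 := by
    intro h
    linarith
  have hl : 0 ≤ ((m : ℝ) - 1) * (m - 2) / (4 * (2 * m - 11)) := by
    apply div_nonneg
    · apply mul_nonneg <;> linarith
    · linarith
  obtain ⟨l, hl2⟩ : ∃ l : ℝ, l ^ 2 = ((m : ℝ) - 1) * (m - 2) / (4 * (2 * m - 11)) :=
    ⟨_, Real.sq_sqrt hl⟩
  have hmul : ∀ (a b : Tr m) (s : ℝ), ((a.1 ∩ b.1).card : ℝ) = s →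
      ∑ k : Unit ⊕ (Fin m × Fin m),
        (Sum.elim (fun _ => (1 : ℝ)) (fun p => l *
          OZ_q (2 / ((m : ℝ) - 2)) (6 / (((m : ℝ) - 1) * (m - 2))) a p) k) *
        (Sum.elim (fun _ => (1 : ℝ)) (fun p => l *
          OZ_q (2 / ((m : ℝ) - 2)) (6 / (((m : ℝ) - 1) * (m - 2))) b p) k) =
      1 + ((m : ℝ) - 1) * (m - 2) / (4 * (2 * m - 11)) *
        (s * (s - 1) - 8 * s / (m - 2) + 36 / (((m : ℝ) - 1) * (m - 2))) := by
    intro a b s hs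
    rw [Fintype.sum_sum_type, ← OZ_val hm a b s hs, Finset.mul_sum]
    simp only [Sum.elim_inl, Sum.elim_inr, Finset.univ_unique, Finset.sum_singleton, mul_one]
    congr 1
    refine Finset.sum_congr rfl fun p _ => ?_
    rw [← hl2]
    ring
  refine ⟨Unit ⊕ (Fin m × Fin m), inferInstance,
    fun a => Sum.elim (fun _ => (1 : ℝ)) (fun p => l *
      OZ_q (2 / ((m : ℝ) - 2)) (6 / (((m : ℝ) - 1) * (m - 2))) a p),
    fun _ => Sum.elim (fun _ => (1 : ℝ)) (fun _ => 0), ?_, ?_, ?_, ?_⟩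
  · intro _
    simp
  · intro a
    simp
  · intro a
    have h1 := hmul a a 3 (by rw [Finset.inter_self, a.2]; norm_num)
    simp only [pow_two]
    rw [h1, OZ_alg _ _ _ e1 e2 (mul_ne_zero (by norm_num) e3)]
    refine OZ_alg2 _ _ _ e3 ?_
    ring
  · intro a b _ hab
    have h1 := hmul a b 1 (by rw [show (a.1 ∩ b.1).card = 1 from hab]; norm_num)
    rw [h1, OZ_alg _ _ _ e1 e2 (mul_ne_zero (by norm_num) e3)]
    rw [OZ_alg2 _ 0 _ e3 (by ring), zero_div]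

end Stall
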