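import Pool.Agent.H.MP_4f19f9_lc.h56.Defs

namespace Stall

open Finset

/-
PROOF. All three by induction on n (Fin.consEquiv / Fin.insertNthEquiv, Fin.prod_univ_succ,
Fin.sum_univ_succ): for a word x of length n + 1 with first symbol x 0 and tail x', J = cons c J',
Cpt lt J x is (x 0 = some a → lt a = c) and Cpt lt J' x'; and
(t c + T')^2 = t c ^2 + 2 t c T' + T'^2. For a blank x 0 the sum over c of g c t c is 0 and the sum
of g c t c^2 is v θ with v = (sum g t^2)/θ; for a letter only c = lt a contributes.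
(mom0 can also be had directly from Finset.prod_univ_sum.) -/

variable {V C : Type} [Fintype C] {n : ℕ}

theorem Mom_cons {n : ℕ} (Φ : (Fin (n + 1) → C) → ℝ) :
    ∑ J, Φ J = ∑ c, ∑ J' : Fin n → C, Φ (Fin.cons c J') := by
  rw [← Fintype.sum_prod_type' (fun c J' => Φ (Fin.cons c J'))]
  exact (Fintype.sum_equiv (Fin.consEquiv (fun _ => C)) _ _ fun p => rfl).symm

theorem Mom_gen (t : C → ℝ) : ∀ (n : ℕ) (W : Fin n → C → ℝ) (m q : Fin n → ℝ),
    (∀ i, ∑ c, W i c * t c = (∑ c, W i c) * m i) →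
    (∀ i, ∑ c, W i c * t c ^ 2 = (∑ c, W i c) * (m i ^ 2 + q i)) →
    ∑ J : Fin n → C, ∏ i, W i (J i) = ∏ i, ∑ c, W i c ∧
    ∑ J : Fin n → C, (∏ i, W i (J i)) * ∑ i, t (J i) = (∏ i, ∑ c, W i c) * ∑ i, m i ∧
    ∑ J : Fin n → C, (∏ i, W i (J i)) * (∑ i, t (J i)) ^ 2 =
      (∏ i, ∑ c, W i c) * ((∑ i, m i) ^ 2 + ∑ i, q i)
  | 0, W, m, q, _, _ => by simp
  | n + 1, W, m, q, h1, h2 => by
    obtain ⟨hA, hB, hC⟩ := Mom_gen t n (fun i => W i.succ) (fun i => m i.succ)
      (fun i => q i.succ) (fun i => h1 i.succ) (fun i => h2 i.succ)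
    have e0 : ∀ (c : C) (J' : Fin n → C),
        ∏ i, W i (Fin.cons (α := fun _ => C) c J' i) = W 0 c * ∏ i : Fin n, W i.succ (J' i) := by
      intro c J'
      rw [Fin.prod_univ_succ]
      simp
    have e1 : ∀ (c : C) (J' : Fin n → C),
        ∑ i, t (Fin.cons (α := fun _ => C) c J' i) = t c + ∑ i : Fin n, t (J' i) := by
      intro c J'
      rw [Fin.sum_univ_succ]
      simp
    refine ⟨?_, ?_, ?_⟩
    · rw [Mom_cons, Fin.prod_univ_succ, Finset.sum_mul]
      refine Finset.sum_congr rfl fun c _ => ?_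
      rw [← hA, Finset.mul_sum]
      exact Finset.sum_congr rfl fun J' _ => e0 c J'
    · rw [Mom_cons, Fin.prod_univ_succ, Fin.sum_univ_succ]
      have h3 : ∀ c, ∑ J' : Fin n → C, (∏ i, W i (Fin.cons (α := fun _ => C) c J' i)) *
          ∑ i, t (Fin.cons (α := fun _ => C) c J' i) =
          W 0 c * t c * (∏ i : Fin n, ∑ c, W i.succ c) +
            W 0 c * ((∏ i : Fin n, ∑ c, W i.succ c) * ∑ i : Fin n, m i.succ) := by
        intro c
        rw [← hB, ← hA, Finset.mul_sum, Finset.mul_sum, ← Finset.sum_add_distrib]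
        refine Finset.sum_congr rfl fun J' _ => ?_
        rw [e0, e1]
        ring
      rw [Finset.sum_congr rfl fun c _ => h3 c, Finset.sum_add_distrib, ← Finset.sum_mul,
        ← Finset.sum_mul, h1 0]
      ring
    · rw [Mom_cons, Fin.prod_univ_succ, Fin.sum_univ_succ, Fin.sum_univ_succ (f := q)]
      have h3 : ∀ c, ∑ J' : Fin n → C, (∏ i, W i (Fin.cons (α := fun _ => C) c J' i)) *
          (∑ i, t (Fin.cons (α := fun _ => C) c J' i)) ^ 2 =
          W 0 c * t c ^ 2 * (∏ i : Fin n, ∑ c, W i.succ c) +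
            W 0 c * t c * (2 * ((∏ i : Fin n, ∑ c, W i.succ c) * ∑ i : Fin n, m i.succ)) +
            W 0 c * ((∏ i : Fin n, ∑ c, W i.succ c) *
              ((∑ i : Fin n, m i.succ) ^ 2 + ∑ i : Fin n, q i.succ)) := by
        intro c
        rw [← hC, ← hB, ← hA, Finset.mul_sum, Finset.mul_sum, Finset.mul_sum, Finset.mul_sum,
          ← Finset.sum_add_distrib, ← Finset.sum_add_distrib]
        refine Finset.sum_congr rfl fun J' _ => ?_
        rw [e0, e1]
        ring
      rw [Finset.sum_congr rfl fun c _ => h3 c, Finset.sum_add_distrib, Finset.sum_add_distrib,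
        ← Finset.sum_mul, ← Finset.sum_mul, ← Finset.sum_mul, h1 0, h2 0]
      ring

theorem Mom_gen1 (t : C → ℝ) : ∀ (n : ℕ) (W : Fin n → C → ℝ) (m : Fin n → ℝ),
    (∀ i, ∑ c, W i c * t c = (∑ c, W i c) * m i) →
    ∑ J : Fin n → C, (∏ i, W i (J i)) * ∑ i, t (J i) = (∏ i, ∑ c, W i c) * ∑ i, m i
  | 0, W, m, _ => by simp
  | n + 1, W, m, h1 => by
    have hB := Mom_gen1 t n (fun i => W i.succ) (fun i => m i.succ) (fun i => h1 i.succ)
    have hA := (Mom_gen (fun _ => (0 : ℝ)) n (fun i => W i.succ) (fun _ => 0) (fun _ => 0)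
      (by simp) (by simp)).1
    rw [Mom_cons, Fin.prod_univ_succ, Fin.sum_univ_succ]
    have h3 : ∀ c, ∑ J' : Fin n → C, (∏ i, W i (Fin.cons (α := fun _ => C) c J' i)) *
        ∑ i, t (Fin.cons (α := fun _ => C) c J' i) =
        W 0 c * t c * (∏ i : Fin n, ∑ c, W i.succ c) +
          W 0 c * ((∏ i : Fin n, ∑ c, W i.succ c) * ∑ i : Fin n, m i.succ) := by
      intro c
      rw [← hB, ← hA, Finset.mul_sum, Finset.mul_sum, ← Finset.sum_add_distrib]
      refine Finset.sum_congr rfl fun J' _ => ?_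
      rw [Fin.prod_univ_succ, Fin.sum_univ_succ]
      simp only [Fin.cons_zero, Fin.cons_succ]
      ring
    rw [Finset.sum_congr rfl fun c _ => h3 c, Finset.sum_add_distrib, ← Finset.sum_mul,
      ← Finset.sum_mul, h1 0]
    ring

open Classical in
/-- The weights of the types for a symbol. -/
noncomputable def MomW (lt : V → C) (g : C → ℝ) (s : Option V) (c : C) : ℝ :=
  if ∀ a, s = some a → lt a = c then g c else 0

open Classical in
theorem Mom_prod (lt : V → C) (g : C → ℝ) (x : PWord V n) (J : Fin n → C) (T : ℝ) :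
    (if Cpt lt J x then (∏ i, g (J i)) * T else 0) = (∏ i, MomW lt g (x i) (J i)) * T := by
  split_ifs with h
  · congr 1
    refine Finset.prod_congr rfl fun i _ => ?_
    rw [MomW, if_pos fun a ha => h i a ha]
  · unfold Cpt at h
    push Not at h
    obtain ⟨i, a, h1, h2⟩ := h
    rw [Finset.prod_eq_zero (Finset.mem_univ i), zero_mul]
    rw [MomW, if_neg fun h3 => h2 (h3 a h1)]

theorem Mom_none (lt : V → C) (g : C → ℝ) (c : C) : MomW lt g none c = g c := by
  rw [MomW, if_pos]
  intro a ha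
  cases ha

theorem Mom_some (lt : V → C) (g : C → ℝ) (a : V) (f : C → ℝ) :
    ∑ c, MomW lt g (some a) c * f c = g (lt a) * f (lt a) := by
  classical
  rw [Finset.sum_eq_single (lt a)]
  · rw [MomW, if_pos]
    intro b hb
    rw [Option.some.inj hb]
  · intro c _ hc
    rw [MomW, if_neg, zero_mul]
    intro h
    exact hc (h a rfl).symm
  · intro h
    exact absurd (Finset.mem_univ _) h

theorem Mom_s (lt : V → C) (g : C → ℝ) (s : Option V) :
    ∑ c, MomW lt g s c = s.elim (∑ c, g c) (fun a => g (lt a)) := by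
  rcases s with _ | a
  · exact Finset.sum_congr rfl fun c _ => Mom_none lt g c
  · have := Mom_some lt g a fun _ => 1
    simpa using this

open Classical in
theorem mom0 (lt : V → C) (g : C → ℝ) (x : PWord V n) :
    ∑ J : Fin n → C, (if Cpt lt J x then ∏ i, g (J i) else 0) =
      ∏ i, (x i).elim (∑ c, g c) (fun a => g (lt a)) := by
  have h := (Mom_gen (fun _ => (0 : ℝ)) n (fun i => MomW lt g (x i)) (fun _ => 0) (fun _ => 0)
    (by simp) (by simp)).1
  rw [← Finset.prod_congr rfl fun i _ => Mom_s lt g (x i), ← h]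
  refine Finset.sum_congr rfl fun J _ => ?_
  have h1 := Mom_prod lt g x J 1
  simpa using h1

open Classical in
theorem mom1 (lt : V → C) (g t : C → ℝ) (ht : ∑ c, g c * t c = 0) (x : PWord V n) :
    ∑ J : Fin n → C, (if Cpt lt J x then (∏ i, g (J i)) * ∑ i, t (J i) else 0) =
      (∏ i, (x i).elim (∑ c, g c) (fun a => g (lt a))) * ∑ i, (x i).elim 0 (fun a => t (lt a)) := by
  have h := Mom_gen1 t n (fun i => MomW lt g (x i)) (fun i => (x i).elim 0 (fun a => t (lt a)))
    (fun i => ?_)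
  · rw [← Finset.prod_congr rfl fun i _ => Mom_s lt g (x i), ← h]
    exact Finset.sum_congr rfl fun J _ => Mom_prod lt g x J _
  · rcases x i with _ | a
    · simp only [Mom_none, Option.elim]
      rw [ht, mul_zero]
    · rw [Mom_some, Mom_s]
      rfl

open Classical in
theorem mom2 (lt : V → C) (g t : C → ℝ) (ht : ∑ c, g c * t c = 0) (hg : 0 < ∑ c, g c)
    (x : PWord V n) :
    ∑ J : Fin n → C, (if Cpt lt J x then (∏ i, g (J i)) * (∑ i, t (J i)) ^ 2 else 0) =
      (∏ i, (x i).elim (∑ c, g c) (fun a => g (lt a))) *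
        ((∑ i, (x i).elim 0 (fun a => t (lt a))) ^ 2 +
          ((univ.filter (fun i => x i = none)).card : ℝ) *
            ((∑ c, g c * t c ^ 2) / ∑ c, g c)) := by
  have h := (Mom_gen t n (fun i => MomW lt g (x i)) (fun i => (x i).elim 0 (fun a => t (lt a)))
    (fun i => if x i = none then (∑ c, g c * t c ^ 2) / ∑ c, g c else 0) (fun i => ?_)
    (fun i => ?_)).2.2
  · rw [← Finset.prod_congr rfl fun i _ => Mom_s lt g (x i)]
    have e : ∑ i, (if x i = none then (∑ c, g c * t c ^ 2) / ∑ c, g c else 0) =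
        ((univ.filter (fun i => x i = none)).card : ℝ) *
            ((∑ c, g c * t c ^ 2) / ∑ c, g c) := by
      rw [← Finset.sum_filter, Finset.sum_const, nsmul_eq_mul]
    rw [← e, ← h]
    exact Finset.sum_congr rfl fun J _ => Mom_prod lt g x J _
  · rcases x i with _ | a
    · simp only [Mom_none, Option.elim]
      rw [ht, mul_zero]
    · rw [Mom_some, Mom_s]
      rfl
  · rcases x i with _ | a
    · simp only [Mom_none, Option.elim, if_true]
      rw [zero_pow two_ne_zero, zero_add, mul_div_cancel₀ _ hg.ne']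
    · rw [Mom_some lt g a fun c => t c ^ 2, Mom_s]
      simp

end Stall
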