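import Pool.Agent.H.MP_4f19f9_lc.h56.Ana
import Pool.Agent.H.MP_4f19f9_lc.h56.Mom

namespace Stall

open Finset

open Classical in
/-- exchange of the sums over types and words -/
private theorem psi_exch {V C : Type} [Fintype C] {n : ℕ} (lt : V → C) (a : (Fin n → C) → ℝ)
    (h : PWord V n → ℝ) (Q : Finset (PWord V n)) :
    ∑ J, a J * ∑ x ∈ Q.filter (fun x => Cpt lt J x), h x =
      ∑ x ∈ Q, h x * ∑ J, (if Cpt lt J x then a J else 0) := by
  simp only [Finset.sum_filter, Finset.mul_sum]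
  rw [Finset.sum_comm]
  refine Finset.sum_congr rfl (fun x _ => Finset.sum_congr rfl (fun J _ => ?_))
  split_ifs <;> ring

private theorem psi_cpt {V C : Type} {n : ℕ} (lt : V → C) (J : Fin n → C) :
    Cpt lt J (fun _ => none : PWord V n) := by
  intro i a h
  simp at h

private theorem psi_wG {V C : Type} {n : ℕ} (lt : V → C) (g : C → ℝ) (hg : ∀ c, 0 < g c) (θ : ℝ)
    (hθ : 0 < θ) (x : PWord V n) :
    wt (fun a => (g (lt a))⁻¹) x * ∏ i, (x i).elim θ (fun a => g (lt a)) =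
      θ ^ n * wt (fun _ => θ⁻¹) x := by
  have h1 : θ ^ n = ∏ _i : Fin n, θ := by simp
  rw [h1, wt, wt, ← Finset.prod_mul_distrib, ← Finset.prod_mul_distrib]
  refine Finset.prod_congr rfl (fun i _ => ?_)
  cases hx : x i with
  | none => simp
  | some a =>
    have := (hg (lt a)).ne'
    simp only [Option.elim_some]
    rw [inv_mul_cancel₀ this, mul_inv_cancel₀ hθ.ne']

private theorem psi_wF {V C : Type} {n : ℕ} (lt : V → C) (f g : C → ℝ) (hf : ∀ c, 0 < f c)
    (hg : ∀ c, 0 < g c) (θ : ℝ) (hθ : 0 < θ) (x : PWord V n) :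
    wt (fun a => (f (lt a))⁻¹) x * ∏ i, (x i).elim θ (fun a => g (lt a)) =
      θ ^ n * (wt (fun _ => θ⁻¹) x *
        Real.exp (∑ i, (x i).elim 0 (fun a => Real.log (g (lt a) / f (lt a))))) := by
  have h1 : θ ^ n = ∏ _i : Fin n, θ := by simp
  rw [h1, wt, wt, Real.exp_sum, ← Finset.prod_mul_distrib, ← Finset.prod_mul_distrib,
    ← Finset.prod_mul_distrib]
  refine Finset.prod_congr rfl (fun i _ => ?_)
  cases hx : x i with
  | none => simp
  | some a =>
    have h2 := (hf (lt a)).ne'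
    simp only [Option.elim_some]
    rw [Real.exp_log (div_pos (hg _) (hf _))]
    field_simp

/-
PROOF (the loss). If C is empty then Q is empty and the claim is 0 ≤ B. Otherwise K ≥ 0,
θ := sum g c > 0. We write t c = log (g c / f c); for J : Fin n → C, P_J = prod g (J i),
T_J = sum t (J i); for x : T_x = sum_i (x i).elim 0 (t ∘ lt), W_x = wt (fun _ => θ⁻¹) x,
G_x = wt (fun a => (g (lt a))⁻¹) x, F_x = wt (fun a => (f (lt a))⁻¹) x = G_x exp(T_x);
Ψ = sum_{x in Q} W_x; Q_J = the x in Q with Cpt lt J x; B = (nK)^2 + 2(1+nK)^2.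
For every x: (prod_i (x i).elim θ (g ∘ lt)) * G_x = θ^n W_x.
(1) kf: for every J, sum_{Q_J} F_x ≤ 1. Multiply by P_J, sum over J, exchange, mom0:
    sum_Q W_x exp(T_x) ≤ 1.
(2) kg: ρ_J := 1 - sum_{Q_J} G_x ≥ 0; sum_J P_J ρ_J = θ^n (1 - Ψ) (mom0, also for the empty word:
    sum_J P_J = θ^n). In particular Ψ ≤ 1.
(3) sum_J P_J T_J = 0 (mom1 for the word with only blanks), so, by mom1,
    0 = sum_J P_J T_J ρ_J + θ^n sum_Q W_x T_x, and |T_J| ≤ nK: sum_Q W_x T_x ≥ - nK (1 - Ψ).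
(4) (1) and (3): sum_Q W_x (exp T_x - 1 - T_x) ≤ 1 - Ψ + nK (1 - Ψ) = (1 + nK)(1 - Ψ).
    With |T_x| ≤ nK and sq_le_exp: sum_Q W_x T_x^2 ≤ 2 (1+nK)^2 (1 - Ψ).
(5) mom2 for the blank word: sum_J P_J T_J^2 = θ^n n v with v = (sum g t^2)/θ ≥ 1 (hσ). And, by
    mom2, = sum_J P_J T_J^2 ρ_J + θ^n sum_Q W_x (T_x^2 + b_x v), b_x = number of blanks ≤ n - 1
    (hne). So n v ≤ (nK)^2 (1 - Ψ) + 2 (1+nK)^2 (1 - Ψ) + (n-1) v Ψ, i.e.
    n v (1 - Ψ) + v Ψ ≤ B (1 - Ψ), hence Ψ ≤ v Ψ ≤ B (1 - Ψ), which is the claim.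
-/
theorem psi_bound {V C : Type} [Fintype C] {D : V → V → Prop} {lt : V → C} {f g : C → ℝ}
    (hf : ∀ c, 0 < f c) (hg : ∀ c, 0 < g c) (kf : Kraft D lt f) (kg : Kraft D lt g)
    (K : ℝ) (hK : ∀ c, |Real.log (g c / f c)| ≤ K)
    (bal : ∑ c, g c * Real.log (g c / f c) = 0)
    (hσ : ∑ c, g c ≤ ∑ c, g c * Real.log (g c / f c) ^ 2)
    (n : ℕ) (Q : Finset (PWord V n)) (hs : PSep D Q) (hne : ∀ x ∈ Q, ∃ i a, x i = some a) :
    (∑ x ∈ Q, wt (fun _ => (∑ c, g c)⁻¹) x) * (1 + ((n * K) ^ 2 + 2 * (1 + n * K) ^ 2)) ≤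
      (n * K) ^ 2 + 2 * (1 + n * K) ^ 2 := by
  classical
  rcases Q.eq_empty_or_nonempty with hQ | ⟨x1, hx1⟩
  · subst hQ
    simp only [Finset.sum_empty, zero_mul]
    positivity
  obtain ⟨i1, a1, -⟩ := hne x1 hx1
  have hne' : Nonempty C := ⟨lt a1⟩
  have hK0 : 0 ≤ K := le_trans (abs_nonneg _) (hK (lt a1))
  have hθ : 0 < ∑ c, g c := Finset.sum_pos (fun c _ => hg c) Finset.univ_nonempty
  set θ : ℝ := ∑ c, g c with hθd
  set t : C → ℝ := fun c => Real.log (g c / f c) with ht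
  have bal' : ∑ c, g c * t c = 0 := bal
  set P : (Fin n → C) → ℝ := fun J => ∏ i, g (J i) with hP
  set T : (Fin n → C) → ℝ := fun J => ∑ i, t (J i) with hT
  set X : PWord V n → ℝ := fun x => ∑ i, (x i).elim 0 (fun a => t (lt a)) with hX
  set W : PWord V n → ℝ := fun x => wt (fun _ => θ⁻¹) x with hW
  set G : PWord V n → ℝ := fun x => wt (fun a => (g (lt a))⁻¹) x with hG
  set F : PWord V n → ℝ := fun x => wt (fun a => (f (lt a))⁻¹) x with hF
  set E : PWord V n → ℝ := fun x => ∏ i, (x i).elim θ (fun a => g (lt a)) with hE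
  set b : PWord V n → ℝ := fun x => ((univ.filter (fun i => x i = none)).card : ℝ) with hb
  set v : ℝ := (∑ c, g c * t c ^ 2) / θ with hv
  have hθn : 0 < θ ^ n := pow_pos hθ n
  have hv1 : 1 ≤ v := by
    rw [hv, le_div_iff₀ hθ, one_mul]
    exact hσ
  have hP0 : ∀ J, 0 ≤ P J := fun J => Finset.prod_nonneg (fun i _ => (hg _).le)
  have hW0 : ∀ x, 0 ≤ W x := by
    intro x
    refine Finset.prod_nonneg (fun i _ => ?_)
    cases hx : x i with
    | none => simp
    | some a =>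
      simp only [Option.elim_some]
      exact (inv_pos.2 hθ).le
  have hnK : 0 ≤ (n : ℝ) * K := by positivity
  have hTb : ∀ J, |T J| ≤ n * K := by
    intro J
    calc |T J| ≤ ∑ i, |t (J i)| := Finset.abs_sum_le_sum_abs _ _
      _ ≤ ∑ _i : Fin n, K := Finset.sum_le_sum (fun i _ => hK _)
      _ = n * K := by simp
  have hXb : ∀ x, |X x| ≤ n * K := by
    intro x
    calc |X x| ≤ ∑ i, |(x i).elim 0 (fun a => t (lt a))| := Finset.abs_sum_le_sum_abs _ _
      _ ≤ ∑ _i : Fin n, K := by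
        refine Finset.sum_le_sum (fun i _ => ?_)
        cases hx : x i with
        | none => simpa using hK0
        | some a => exact hK _
      _ = n * K := by simp
  have hGE : ∀ x, G x * E x = θ ^ n * W x := fun x => psi_wG lt g hg θ hθ x
  have hFE : ∀ x, F x * E x = θ ^ n * (W x * Real.exp (X x)) :=
    fun x => psi_wF lt f g hf hg θ hθ x
  -- moments
  have m0 : ∀ x : PWord V n, ∑ J, (if Cpt lt J x then P J else 0) = E x := fun x => mom0 lt g x
  have m1 : ∀ x : PWord V n, ∑ J, (if Cpt lt J x then P J * T J else 0) = E x * X x :=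
    fun x => mom1 lt g t bal' x
  have m2 : ∀ x : PWord V n, ∑ J, (if Cpt lt J x then P J * T J ^ 2 else 0) =
      E x * (X x ^ 2 + b x * v) := fun x => mom2 lt g t bal' hθ x
  have s0 : ∑ J, P J = θ ^ n := by
    have := m0 (fun _ => none)
    simpa [hE, psi_cpt] using this
  have s1 : ∑ J, P J * T J = 0 := by
    have := m1 (fun _ => none)
    simpa [hE, hX, psi_cpt] using this
  have s2 : ∑ J, P J * T J ^ 2 = θ ^ n * (n * v) := by
    have := m2 (fun _ => none)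
    simpa [hE, hX, hb, psi_cpt] using this
  have hsep : ∀ J, PSep D (Q.filter (fun x => Cpt lt J x)) := fun J x hx y hy hxy =>
    hs x (Finset.mem_filter.1 hx).1 y (Finset.mem_filter.1 hy).1 hxy
  have kf' : ∀ J, ∑ x ∈ Q.filter (fun x => Cpt lt J x), F x ≤ 1 := fun J =>
    kf n J _ (fun x hx => (Finset.mem_filter.1 hx).2) (hsep J)
  have kg' : ∀ J, ∑ x ∈ Q.filter (fun x => Cpt lt J x), G x ≤ 1 := fun J =>
    kg n J _ (fun x hx => (Finset.mem_filter.1 hx).2) (hsep J)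
  set Ψ : ℝ := ∑ x ∈ Q, W x with hΨ
  -- (1)
  have e1 : ∑ x ∈ Q, W x * Real.exp (X x) ≤ 1 := by
    have h1 : ∑ J, P J * ∑ x ∈ Q.filter (fun x => Cpt lt J x), F x ≤ ∑ J, P J := by
      refine Finset.sum_le_sum (fun J _ => ?_)
      calc P J * _ ≤ P J * 1 := mul_le_mul_of_nonneg_left (kf' J) (hP0 J)
        _ = P J := mul_one _
    rw [psi_exch, s0] at h1
    have h2 : ∑ x ∈ Q, F x * ∑ J, (if Cpt lt J x then P J else 0) =
        θ ^ n * ∑ x ∈ Q, W x * Real.exp (X x) := by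
      rw [Finset.mul_sum]
      exact Finset.sum_congr rfl (fun x _ => by rw [m0 x, hFE x])
    rw [h2] at h1
    exact le_of_mul_le_mul_left (by rw [mul_one]; exact h1) hθn
  -- (2)
  set ρ : (Fin n → C) → ℝ := fun J => 1 - ∑ x ∈ Q.filter (fun x => Cpt lt J x), G x with hρ
  have hρ0 : ∀ J, 0 ≤ ρ J := fun J => sub_nonneg.2 (kg' J)
  have r0 : ∑ J, P J * ρ J = θ ^ n * (1 - Ψ) := by
    have h1 : ∑ J, P J * ρ J = ∑ J, P J -
        ∑ J, P J * ∑ x ∈ Q.filter (fun x => Cpt lt J x), G x := by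
      rw [← Finset.sum_sub_distrib]
      exact Finset.sum_congr rfl (fun J _ => by simp only [hρ]; ring)
    have h2 : ∑ x ∈ Q, G x * ∑ J, (if Cpt lt J x then P J else 0) = θ ^ n * Ψ := by
      rw [hΨ, Finset.mul_sum]
      exact Finset.sum_congr rfl (fun x _ => by rw [m0 x, hGE x])
    rw [h1, psi_exch, s0, h2]
    ring
  have r1 : ∑ J, P J * T J * ρ J = - (θ ^ n * ∑ x ∈ Q, W x * X x) := by
    have h1 : ∑ J, P J * T J * ρ J = ∑ J, P J * T J -
        ∑ J, P J * T J * ∑ x ∈ Q.filter (fun x => Cpt lt J x), G x := by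
      rw [← Finset.sum_sub_distrib]
      exact Finset.sum_congr rfl (fun J _ => by simp only [hρ]; ring)
    have h2 : ∑ x ∈ Q, G x * ∑ J, (if Cpt lt J x then P J * T J else 0) =
        θ ^ n * ∑ x ∈ Q, W x * X x := by
      rw [Finset.mul_sum]
      exact Finset.sum_congr rfl (fun x _ => by rw [m1 x, ← mul_assoc, hGE x]; ring)
    rw [h1, psi_exch (a := fun J => P J * T J), s1, h2]
    ring
  have r2 : ∑ J, P J * T J ^ 2 * ρ J =
      θ ^ n * (n * v - ∑ x ∈ Q, W x * (X x ^ 2 + b x * v)) := by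
    have h1 : ∑ J, P J * T J ^ 2 * ρ J = ∑ J, P J * T J ^ 2 -
        ∑ J, P J * T J ^ 2 * ∑ x ∈ Q.filter (fun x => Cpt lt J x), G x := by
      rw [← Finset.sum_sub_distrib]
      exact Finset.sum_congr rfl (fun J _ => by simp only [hρ]; ring)
    have h2 : ∑ x ∈ Q, G x * ∑ J, (if Cpt lt J x then P J * T J ^ 2 else 0) =
        θ ^ n * ∑ x ∈ Q, W x * (X x ^ 2 + b x * v) := by
      rw [Finset.mul_sum]
      exact Finset.sum_congr rfl (fun x _ => by rw [m2 x, ← mul_assoc, hGE x]; ring)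
    rw [h1, psi_exch (a := fun J => P J * T J ^ 2), s2, h2]
    ring
  have hΨ1 : 0 ≤ 1 - Ψ := by
    have : 0 ≤ θ ^ n * (1 - Ψ) := by
      rw [← r0]
      exact Finset.sum_nonneg (fun J _ => mul_nonneg (hP0 J) (hρ0 J))
    exact nonneg_of_mul_nonneg_right this hθn
  have hΨ0 : 0 ≤ Ψ := Finset.sum_nonneg (fun x _ => hW0 x)
  -- (3)
  have e3 : -(n * K * (1 - Ψ)) ≤ ∑ x ∈ Q, W x * X x := by
    have h1 : ∑ J, P J * T J * ρ J ≤ ∑ J, (n * K) * (P J * ρ J) := by
      refine Finset.sum_le_sum (fun J _ => ?_)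
      have h2 : T J ≤ n * K := le_trans (le_abs_self _) (hTb J)
      have h3 : 0 ≤ P J * ρ J := mul_nonneg (hP0 J) (hρ0 J)
      nlinarith
    rw [r1, ← Finset.mul_sum, r0] at h1
    have h4 : θ ^ n * (-(n * K * (1 - Ψ))) ≤ θ ^ n * ∑ x ∈ Q, W x * X x := by linarith
    exact le_of_mul_le_mul_left h4 hθn
  -- (4)
  have e4 : ∑ x ∈ Q, W x * X x ^ 2 ≤ 2 * (1 + n * K) ^ 2 * (1 - Ψ) := by
    have h1 : ∑ x ∈ Q, W x * X x ^ 2 ≤
        ∑ x ∈ Q, 2 * (1 + n * K) * (W x * Real.exp (X x) - W x - W x * X x) := by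
      refine Finset.sum_le_sum (fun x _ => ?_)
      have h2 := sq_le_exp (X x)
      have h3 : 0 ≤ Real.exp (X x) - 1 - X x := by
        have := Real.add_one_le_exp (X x)
        linarith
      have h4 : X x ^ 2 ≤ 2 * (1 + n * K) * (Real.exp (X x) - 1 - X x) := by
        refine h2.trans ?_
        have := hXb x
        nlinarith
      calc W x * X x ^ 2 ≤ W x * (2 * (1 + n * K) * (Real.exp (X x) - 1 - X x)) :=
            mul_le_mul_of_nonneg_left h4 (hW0 x)
        _ = _ := by ring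
    rw [← Finset.mul_sum, Finset.sum_sub_distrib, Finset.sum_sub_distrib] at h1
    have h5 : ∑ x ∈ Q, W x * Real.exp (X x) - ∑ x ∈ Q, W x - ∑ x ∈ Q, W x * X x ≤
        (1 + n * K) * (1 - Ψ) := by
      have : ∑ x ∈ Q, W x = Ψ := rfl
      rw [this]
      linarith
    calc _ ≤ _ := h1
      _ ≤ 2 * (1 + n * K) * ((1 + n * K) * (1 - Ψ)) :=
        mul_le_mul_of_nonneg_left h5 (by positivity)
      _ = _ := by ring
  -- (5)
  have e5 : ∑ x ∈ Q, W x * (b x * v) ≤ (n - 1) * v * Ψ := by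
    rw [hΨ, Finset.mul_sum]
    refine Finset.sum_le_sum (fun x hx => ?_)
    have hbx : b x ≤ n - 1 := by
      obtain ⟨i, a, hia⟩ := hne x hx
      have h1 : (univ.filter (fun i => x i = none)).card < n := by
        have h2 : (univ.filter (fun i => x i = none)).card < (univ : Finset (Fin n)).card := by
          refine Finset.card_lt_card ?_
          rw [Finset.filter_ssubset]
          exact ⟨i, Finset.mem_univ _, by rw [hia]; simp⟩
        simpa using h2
      have h3 : (((univ.filter (fun i => x i = none)).card : ℝ)) + 1 ≤ n := by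
        exact_mod_cast h1
      simp only [hb]
      linarith
    have h4 : b x * v ≤ (n - 1) * v := mul_le_mul_of_nonneg_right hbx (by linarith)
    calc W x * (b x * v) ≤ W x * ((n - 1) * v) := mul_le_mul_of_nonneg_left h4 (hW0 x)
      _ = _ := by ring
  have e6 : n * v - ∑ x ∈ Q, W x * (X x ^ 2 + b x * v) ≤ (n * K) ^ 2 * (1 - Ψ) := by
    have h1 : ∑ J, P J * T J ^ 2 * ρ J ≤ ∑ J, (n * K) ^ 2 * (P J * ρ J) := by
      refine Finset.sum_le_sum (fun J _ => ?_)
      have h2 : T J ^ 2 ≤ (n * K) ^ 2 := by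
        rw [sq_le_sq, abs_of_nonneg hnK]
        exact hTb J
      have h3 : 0 ≤ P J * ρ J := mul_nonneg (hP0 J) (hρ0 J)
      nlinarith
    rw [r2, ← Finset.mul_sum, r0] at h1
    have h4 : θ ^ n * (n * v - ∑ x ∈ Q, W x * (X x ^ 2 + b x * v)) ≤
        θ ^ n * ((n * K) ^ 2 * (1 - Ψ)) := by linarith
    exact le_of_mul_le_mul_left h4 hθn
  have e7 : ∑ x ∈ Q, W x * (X x ^ 2 + b x * v) =
      ∑ x ∈ Q, W x * X x ^ 2 + ∑ x ∈ Q, W x * (b x * v) := by
    rw [← Finset.sum_add_distrib]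
    exact Finset.sum_congr rfl (fun x _ => by ring)
  have hn0 : (0 : ℝ) ≤ n := Nat.cast_nonneg n
  have e8 : v * Ψ ≤ ((n * K) ^ 2 + 2 * (1 + n * K) ^ 2) * (1 - Ψ) := by
    have h1 : 0 ≤ n * v * (1 - Ψ) := mul_nonneg (mul_nonneg hn0 (by linarith)) hΨ1
    have h2 : n * v ≤ (n * K) ^ 2 * (1 - Ψ) + 2 * (1 + n * K) ^ 2 * (1 - Ψ) +
        (n - 1) * v * Ψ := by
      rw [e7] at e6
      linarith
    nlinarith
  have e9 : Ψ ≤ v * Ψ := by nlinarith
  have : Ψ ≤ ((n * K) ^ 2 + 2 * (1 + n * K) ^ 2) * (1 - Ψ) := e9.trans e8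
  nlinarith

end Stall
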