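import Pool.Agent.H.MP_4f19f9_lc.h56.Defs

namespace Stall

open Finset

/-- The product of a representation with itself. -/
theorem RepF_prod {X : Type} {D : X → X → Prop} {y : ℝ}
    (h : FRep D (fun _ : X => ()) (fun _ => y)) :
    FRep (fun a b : X × X => D a.1 b.1 ∨ D a.2 b.2) (fun _ : X × X => ()) (fun _ => y ^ 2) := by
  classical
  obtain ⟨ι, Ω, fι, dι, fΩ, R, p, act, ρ, h1, h2, h3, h4, h5, h6, h7⟩ := h
  refine ⟨ι × ι, Ω × Ω, inferInstance, inferInstance, inferInstance, fun _ => R () ×ˢ R (),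
    fun a k => p a.1 k.1 * p a.2 k.2, fun ω a => act ω.1 a.1 ∧ act ω.2 a.2, fun _ => ρ () ^ 2,
    ?_, ?_, ?_, ?_, ?_, ?_, ?_⟩
  · rw [Fintype.card_prod]
    exact Nat.mul_pos h1 h1
  · exact fun _ => pow_pos (h2 ()) 2
  · exact fun _ => Finset.Nonempty.product (h3 ()) (h3 ())
  · intro _
    have e : y = ((R ()).card : ℝ) / ρ () := h4 ()
    show y ^ 2 = (((R () ×ˢ R ()).card : ℕ) : ℝ) / ρ () ^ 2
    rw [e, Finset.card_product, div_pow]
    push_cast
    ring
  · rintro ⟨a, b⟩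
    have ha := h5 a
    have hb := h5 b
    have e : Nat.card {ω : Ω × Ω // act ω.1 a ∧ act ω.2 b} =
        Nat.card {ω // act ω a} * Nat.card {ω // act ω b} := by
      rw [← Nat.card_prod]
      exact Nat.card_congr (Equiv.subtypeProdEquivProd (p := fun ω => act ω a)
        (q := fun ω => act ω b))
    show ρ () ^ 2 * ((Fintype.card (Ω × Ω) : ℕ) : ℝ) ≤
      ((Nat.card {ω : Ω × Ω // act ω.1 a ∧ act ω.2 b} : ℕ) : ℝ)
    rw [e, Fintype.card_prod]
    push_cast
    have h0 : 0 ≤ ρ () * (Fintype.card Ω : ℝ) :=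
      mul_nonneg (h2 ()).le (Nat.cast_nonneg _)
    calc ρ () ^ 2 * ((Fintype.card Ω : ℝ) * (Fintype.card Ω : ℝ)) =
          (ρ () * (Fintype.card Ω : ℝ)) * (ρ () * (Fintype.card Ω : ℝ)) := by ring
      _ ≤ _ := mul_le_mul ha hb h0 (Nat.cast_nonneg _)
  · rintro ⟨a, b⟩
    have ha := h6 a
    have hb := h6 b
    show ∑ k ∈ R () ×ˢ R (), p a k.1 * p b k.2 * (p a k.1 * p b k.2) = 1
    rw [Finset.sum_product]
    calc ∑ x ∈ R (), ∑ y ∈ R (), p a x * p b y * (p a x * p b y) =
          (∑ x ∈ R (), p a x * p a x) * ∑ y ∈ R (), p b y * p b y := by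
          rw [Finset.sum_mul_sum]
          exact Finset.sum_congr rfl fun x _ => Finset.sum_congr rfl fun y _ => by ring
      _ = 1 := by rw [ha, hb, one_mul]
  · rintro ω ⟨a, b⟩ ⟨a', b'⟩ - hD ⟨w1, w2⟩ ⟨w3, w4⟩
    show ∑ k ∈ R () ×ˢ R (), p a k.1 * p b k.2 * (p a' k.1 * p b' k.2) = 0
    rw [Finset.sum_product]
    have e : ∑ x ∈ R (), ∑ y ∈ R (), p a x * p b y * (p a' x * p b' y) =
        (∑ x ∈ R (), p a x * p a' x) * ∑ y ∈ R (), p b y * p b' y := by
      rw [Finset.sum_mul_sum]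
      exact Finset.sum_congr rfl fun x _ => Finset.sum_congr rfl fun y _ => by ring
    rw [e]
    rcases hD with hD | hD
    · rw [h7 ω.1 a a' rfl hD w1 w3, zero_mul]
    · rw [h7 ω.2 b b' rfl hD w2 w4, mul_zero]

/-- The number of the choice functions with a given property at one place. -/
theorem RepF_count {C : Type} [Fintype C] [DecidableEq C] (Ω : C → Type) [∀ c, Fintype (Ω c)]
    (c : C) (P : Ω c → Prop) (r : ℝ) (h : r * (Fintype.card (Ω c) : ℝ) ≤ (Nat.card {ω // P ω} : ℝ)) :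
    r * (Fintype.card (∀ c, Ω c) : ℝ) ≤ (Nat.card {ω : ∀ c, Ω c // P (ω c)} : ℝ) := by
  classical
  let e := Equiv.piSplitAt c Ω
  have e1 : Fintype.card (∀ c, Ω c) =
      Fintype.card (Ω c) * Fintype.card (∀ c' : {c' // c' ≠ c}, Ω c') := by
    rw [← Fintype.card_prod]
    exact Fintype.card_congr e
  have e2 : Nat.card {ω : ∀ c, Ω c // P (ω c)} =
      Nat.card {ω // P ω} * Fintype.card (∀ c' : {c' // c' ≠ c}, Ω c') := by
    rw [← Nat.card_eq_fintype_card, ← Nat.card_prod]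
    refine Nat.card_congr ((e.subtypeEquiv (q := fun s => P s.1) fun ω => ?_).trans
      Equiv.prodSubtypeFstEquivSubtypeProd)
    rfl
  rw [e1, e2]
  push_cast
  rw [← mul_assoc]
  exact mul_le_mul_of_nonneg_right h (Nat.cast_nonneg _)

/-- The vectors of all types in one space. -/
noncomputable def RepF_vec {C : Type} [DecidableEq C] {W : C → Type} {ι : C → Type}
    (p : ∀ c, W c → ι c → ZMod 2) (c : C) (x : W c) (k : Σ c, ι c) : ZMod 2 :=
  if h : k.1 = c then p c x (h ▸ k.2) else 0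

theorem RepF_vec_mk {C : Type} [DecidableEq C] {W : C → Type} {ι : C → Type}
    (p : ∀ c, W c → ι c → ZMod 2) (c : C) (x : W c) (k : ι c) :
    RepF_vec p c x ⟨c, k⟩ = p c x k := by
  unfold RepF_vec
  rw [dif_pos rfl]

/-- Gluing representations of the letters of each type. -/
theorem RepF_glue {V C : Type} [Fintype C] [DecidableEq C] (D : V → V → Prop) (lt : V → C)
    (f : C → ℝ) (W : C → Type) (E : ∀ c, W c → W c → Prop) (φ : ∀ a : V, W (lt a))
    (hD : ∀ a b (h : lt a = lt b), D a b → E (lt b) (h ▸ φ a) (φ b))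
    (hE : ∀ c, FRep (E c) (fun _ : W c => ()) (fun _ => f c)) : FRep D lt f := by
  classical
  choose ι Ω fι dι fΩ R p act ρ h1 h2 h3 h4 h5 h6 h7 using hE
  have key : ∀ (c c' : C) (h : c = c') (x : W c) (x' : W c') (ω : ∀ c, Ω c),
      E c' (h ▸ x) x' → act c (ω c) x → act c' (ω c') x' →
      ∑ k ∈ (R c ()).map ⟨Sigma.mk c, sigma_mk_injective⟩,
        RepF_vec p c x k * RepF_vec p c' x' k = 0 := by
    intro c c' h x x' ω hE' ha ha'
    subst h
    rw [Finset.sum_map]
    have e := h7 c (ω c) x x' rfl hE' ha ha'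
    rw [← e]
    refine Finset.sum_congr rfl fun k _ => ?_
    show RepF_vec p c x ⟨c, k⟩ * RepF_vec p c x' ⟨c, k⟩ = _
    rw [RepF_vec_mk, RepF_vec_mk]
  refine ⟨Σ c, ι c, ∀ c, Ω c, inferInstance, inferInstance, inferInstance,
    fun c => (R c ()).map ⟨Sigma.mk c, sigma_mk_injective⟩,
    fun a => RepF_vec p (lt a) (φ a), fun ω a => act (lt a) (ω (lt a)) (φ a), fun c => ρ c (),
    ?_, ?_, ?_, ?_, ?_, ?_, ?_⟩
  · rw [Fintype.card_pi]
    exact Finset.prod_pos fun c _ => h1 c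
  · exact fun c => h2 c ()
  · exact fun c => (h3 c ()).map
  · intro c
    rw [Finset.card_map]
    exact h4 c ()
  · intro a
    exact RepF_count Ω (lt a) (fun ω => act (lt a) ω (φ a)) _ (h5 (lt a) (φ a))
  · intro a
    rw [Finset.sum_map]
    rw [← h6 (lt a) (φ a)]
    refine Finset.sum_congr rfl fun k _ => ?_
    show RepF_vec p (lt a) (φ a) ⟨lt a, k⟩ * RepF_vec p (lt a) (φ a) ⟨lt a, k⟩ = _
    rw [RepF_vec_mk]
  · intro ω a b hab hDab ha hb
    exact key (lt a) (lt b) hab (φ a) (φ b) ω (hD a b hab hDab) ha hb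

section all

variable {I : Type} (X : I → Type) (m2 m1 m0 : I → ℕ)

/-- The letters of one type. -/
def RepF_W : AC m2 m1 m0 → Type
  | ⟨i, Sum.inl _⟩ => X i × X i
  | ⟨i, Sum.inr (Sum.inl _)⟩ => X i
  | ⟨i, Sum.inr (Sum.inr _)⟩ => X i

/-- The relation of the letters of one type. -/
def RepF_E (RY RZ : ∀ i, X i → X i → Prop) :
    ∀ c : AC m2 m1 m0, RepF_W X m2 m1 m0 c → RepF_W X m2 m1 m0 c → Prop
  | ⟨i, Sum.inl _⟩ => fun a b : X i × X i => RY i a.1 b.1 ∨ RY i a.2 b.2
  | ⟨i, Sum.inr (Sum.inl _)⟩ => fun a b : X i => RY i a b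
  | ⟨i, Sum.inr (Sum.inr _)⟩ => fun a b : X i => RZ i a b

/-- The letter of one type. -/
def RepF_phi : ∀ a : AV X m2 m1 m0, RepF_W X m2 m1 m0 (ltA X m2 m1 m0 a)
  | ⟨_, Sum.inl a⟩ => a.2
  | ⟨_, Sum.inr (Sum.inl a)⟩ => a.2
  | ⟨_, Sum.inr (Sum.inr a)⟩ => a.2

end all

/-
PROOF. Suggested lemmas (all by writing down the data):
(a) product: FRep R one y, FRep R' one y' give FRep (fun a b => R a.1 b.1 ∨ R' a.2 b.2) one (y*y')
    on X × X' : index type ι × ι', sets R ×ˢ R', p (a,a') (k,k') = p a k * p' a' k', Ω × Ω' with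
    act (ω,ω') (a,a') = act ω a ∧ act ω' a', ρ * ρ'; sums over the product set are products of sums
    (Finset.sum_product, Finset.sum_mul_sum); the number of active (ω,ω') is a product.
(b) copies: FRep R one y gives FRep (fun a b => R a.2 b.2) (fun a : Fin m × X => a.1) (fun _ => y).
(c) sum: FRep on V with types C and on V' with types C' give one on V ⊕ V' with types C ⊕ C':
    index type ι ⊕ ι', sets mapped, vectors extended by 0, Ω × Ω' (act looks at its own component:
    the number of active pairs is multiplied by the cardinality of the other).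
(d) sigma over I : index type Σ i, ι i, vectors extended by 0, Ω = ∀ i, Ω i with
    act ω ⟨i,a⟩ = act_i (ω i) a (the number of active ω is card {ω_i active} times the product of the
    other cardinalities).
Then LV = Fin m2 × (X × X) ⊕ (Fin m1 × X ⊕ Fin m0 × X) by (a), (b), (c), and AV by (d).
`choose` the data of hY i, hZ i first. gA is y i ^ 2, y i, z i on the three kinds of types.
-/
theorem frep_all {I : Type} [Fintype I] [DecidableEq I] (X : I → Type) (m2 m1 m0 : I → ℕ)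
    (RY RZ : ∀ i, X i → X i → Prop) (y z : I → ℝ)
    (hY : ∀ i, FRep (RY i) (fun _ : X i => ()) (fun _ => y i))
    (hZ : ∀ i, FRep (RZ i) (fun _ : X i => ()) (fun _ => z i)) :
    FRep (DA X m2 m1 m0 RY RZ) (ltA X m2 m1 m0) (gA m2 m1 m0 y z) := by
  refine RepF_glue _ _ _ (RepF_W X m2 m1 m0) (RepF_E X m2 m1 m0 RY RZ) (RepF_phi X m2 m1 m0) ?_ ?_
  · rintro a b h ⟨i, a', b', rfl, rfl, hD⟩
    rcases a' with ⟨k, x⟩ | ⟨k, x⟩ | ⟨k, x⟩ <;> rcases b' with ⟨k', x'⟩ | ⟨k', x'⟩ | ⟨k', x'⟩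
    · obtain rfl : k = k' := by
        unfold ltA lt1 at h
        simpa using h
      exact hD
    · exact hD.elim
    · exact hD.elim
    · exact hD.elim
    · obtain rfl : k = k' := by
        unfold ltA lt1 at h
        simpa using h
      exact hD
    · exact hD.elim
    · exact hD.elim
    · exact hD.elim
    · obtain rfl : k = k' := by
        unfold ltA lt1 at h
        simpa using h
      exact hD
  · rintro ⟨i, c | c | c⟩
    · exact RepF_prod (hY i)
    · exact hY i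
    · exact hZ i

end Stall
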