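import Pool.Agent.H.MP_4f19f9_lc.h56.Defs

namespace Stall

open Finset

/-- The product of a representation with itself. -/
theorem RepO_prod {X : Type} {D : X → X → Prop} {y : ℝ}
    (h : ORep D (fun _ : X => ()) (fun _ => y)) :
    ORep (fun a b : X × X => D a.1 b.1 ∨ D a.2 b.2) (fun _ : X × X => ()) (fun _ => y ^ 2) := by
  obtain ⟨ι, fι, v, w, h1, h2, h3, h4⟩ := h
  have key : ∀ f g : ι → ℝ, ∑ k : ι × ι, f k.1 * g k.2 = (∑ k, f k) * ∑ k, g k := by
    intro f g
    rw [Fintype.sum_prod_type, Finset.sum_mul_sum]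
  refine ⟨ι × ι, inferInstance, fun a k => v a.1 k.1 * v a.2 k.2,
    fun _ k => w () k.1 * w () k.2, ?_, ?_, ?_, ?_⟩
  · intro _
    have e := key (fun k => w () k ^ 2) (fun k => w () k ^ 2)
    rw [h1 (), one_mul] at e
    rw [← e]
    exact Finset.sum_congr rfl fun k _ => by ring
  · rintro ⟨a, b⟩
    have e := key (fun k => w () k * v a k) (fun k => w () k * v b k)
    have ha : ∑ k, w () k * v a k = 1 := h2 a
    have hb : ∑ k, w () k * v b k = 1 := h2 b
    rw [ha, hb, one_mul] at e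
    rw [← e]
    exact Finset.sum_congr rfl fun k _ => by ring
  · rintro ⟨a, b⟩
    have e := key (fun k => v a k ^ 2) (fun k => v b k ^ 2)
    have ha : ∑ k, v a k ^ 2 = y := h3 a
    have hb : ∑ k, v b k ^ 2 = y := h3 b
    rw [ha, hb] at e
    show ∑ k : ι × ι, (v a k.1 * v b k.2) ^ 2 = y ^ 2
    rw [pow_two y, ← e]
    exact Finset.sum_congr rfl fun k _ => by ring
  · rintro ⟨a, b⟩ ⟨a', b'⟩ - hD
    have e := key (fun k => v a k * v a' k) (fun k => v b k * v b' k)
    show ∑ k : ι × ι, v a k.1 * v b k.2 * (v a' k.1 * v b' k.2) = 0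
    have e' : ∑ k : ι × ι, v a k.1 * v b k.2 * (v a' k.1 * v b' k.2) =
        (∑ k, v a k * v a' k) * ∑ k, v b k * v b' k := by
      rw [← e]
      exact Finset.sum_congr rfl fun k _ => by ring
    rw [e']
    rcases hD with hD | hD
    · rw [h4 a a' rfl hD, zero_mul]
    · rw [h4 b b' rfl hD, mul_zero]

/-- Representations for the letters of each type give a representation. -/
theorem RepO_fib {V C : Type} [Fintype C] (D : V → V → Prop) (lt : V → C)
    (g : C → ℝ) (W : C → Type) (D' : ∀ c, W c → W c → Prop) (f : ∀ a : V, W (lt a))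
    (hf : ∀ (a b : V) (e : lt b = lt a), D a b → D' (lt a) (f a) (e ▸ f b))
    (h : ∀ c, ORep (D' c) (fun _ : W c => ()) (fun _ => g c)) : ORep D lt g := by
  classical
  choose ι fι v w h1 h2 h3 h4 using h
  refine ⟨Σ c, ι c, inferInstance, fun a k => if e : lt a = k.1 then v k.1 (e ▸ f a) k.2 else 0,
    fun c k => if c = k.1 then w k.1 () k.2 else 0, ?_, ?_, ?_, ?_⟩
  · intro c
    rw [Fintype.sum_sigma, Finset.sum_eq_single c]
    · refine Eq.trans (Finset.sum_congr rfl fun k _ => ?_) (h1 c ())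
      dsimp only
      rw [if_pos rfl]
    · intro c' _ hc
      refine Finset.sum_eq_zero fun k _ => ?_
      dsimp only
      rw [if_neg (Ne.symm hc)]
      norm_num
    · exact fun hc => absurd (mem_univ _) hc
  · intro a
    rw [Fintype.sum_sigma, Finset.sum_eq_single (lt a)]
    · refine Eq.trans (Finset.sum_congr rfl fun k _ => ?_) (h2 (lt a) (f a))
      dsimp only
      rw [if_pos rfl, dif_pos rfl]
    · intro c' _ hc
      refine Finset.sum_eq_zero fun k _ => ?_
      dsimp only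
      rw [if_neg (Ne.symm hc), zero_mul]
    · exact fun hc => absurd (mem_univ _) hc
  · intro a
    rw [Fintype.sum_sigma, Finset.sum_eq_single (lt a)]
    · refine Eq.trans (Finset.sum_congr rfl fun k _ => ?_) (h3 (lt a) (f a))
      dsimp only
      rw [dif_pos rfl]
    · intro c' _ hc
      refine Finset.sum_eq_zero fun k _ => ?_
      dsimp only
      rw [dif_neg (Ne.symm hc)]
      norm_num
    · exact fun hc => absurd (mem_univ _) hc
  · intro a b hab hD
    rw [Fintype.sum_sigma, Finset.sum_eq_single (lt a)]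
    · refine Eq.trans (Finset.sum_congr rfl fun k _ => ?_)
        (h4 (lt a) (f a) (hab.symm ▸ f b) rfl (hf a b hab.symm hD))
      dsimp only
      rw [dif_pos rfl, dif_pos hab.symm]
    · intro c' _ hc
      refine Finset.sum_eq_zero fun k _ => ?_
      dsimp only
      rw [dif_neg (Ne.symm hc), zero_mul]
    · exact fun hc => absurd (mem_univ _) hc

/-- The letters of a given type. -/
def RepO_W {I : Type} (X : I → Type) (m2 m1 m0 : I → ℕ) : AC m2 m1 m0 → Type
  | ⟨i, Sum.inl _⟩ => X i × X i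
  | ⟨i, Sum.inr (Sum.inl _)⟩ => X i
  | ⟨i, Sum.inr (Sum.inr _)⟩ => X i

/-- Their relation. -/
def RepO_D {I : Type} (X : I → Type) (m2 m1 m0 : I → ℕ) (RY RZ : ∀ i, X i → X i → Prop) :
    ∀ c : AC m2 m1 m0, RepO_W X m2 m1 m0 c → RepO_W X m2 m1 m0 c → Prop
  | ⟨i, Sum.inl _⟩ => fun a b : X i × X i => RY i a.1 b.1 ∨ RY i a.2 b.2
  | ⟨i, Sum.inr (Sum.inl _)⟩ => fun a b : X i => RY i a b
  | ⟨i, Sum.inr (Sum.inr _)⟩ => fun a b : X i => RZ i a b

/-- The letter in its type. -/
def RepO_f {I : Type} (X : I → Type) (m2 m1 m0 : I → ℕ) :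
    ∀ a : AV X m2 m1 m0, RepO_W X m2 m1 m0 (ltA X m2 m1 m0 a)
  | ⟨_, Sum.inl a⟩ => a.2
  | ⟨_, Sum.inr (Sum.inl a)⟩ => a.2
  | ⟨_, Sum.inr (Sum.inr a)⟩ => a.2

theorem orep_all {I : Type} [Fintype I] [DecidableEq I] (X : I → Type) (m2 m1 m0 : I → ℕ)
    (RY RZ : ∀ i, X i → X i → Prop) (y z : I → ℝ)
    (hY : ∀ i, ORep (RY i) (fun _ : X i => ()) (fun _ => y i))
    (hZ : ∀ i, ORep (RZ i) (fun _ : X i => ()) (fun _ => z i)) :
    ORep (DA X m2 m1 m0 RY RZ) (ltA X m2 m1 m0) (gA m2 m1 m0 y z) := by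
  refine RepO_fib _ _ _ (RepO_W X m2 m1 m0) (RepO_D X m2 m1 m0 RY RZ) (RepO_f X m2 m1 m0) ?_ ?_
  · rintro a b e ⟨i, a', b', rfl, rfl, hD⟩
    rcases a' with ⟨q, x⟩ | ⟨q, x⟩ | ⟨q, x⟩ <;> rcases b' with ⟨q', x'⟩ | ⟨q', x'⟩ | ⟨q', x'⟩
    · have hq : q' = q := by
        have := e
        simp only [ltA, lt1, Sigma.mk.injEq, heq_eq_eq, Sum.inl.injEq, true_and] at this
        exact this
      subst hq
      exact hD
    · exact absurd hD (by simp [D1])
    · exact absurd hD (by simp [D1])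
    · exact absurd hD (by simp [D1])
    · have hq : q' = q := by
        have := e
        simp only [ltA, lt1, Sigma.mk.injEq, heq_eq_eq, Sum.inl.injEq, Sum.inr.injEq,
          true_and] at this
        exact this
      subst hq
      exact hD
    · exact absurd hD (by simp [D1])
    · exact absurd hD (by simp [D1])
    · exact absurd hD (by simp [D1])
    · have hq : q' = q := by
        have := e
        simp only [ltA, lt1, Sigma.mk.injEq, heq_eq_eq, Sum.inr.injEq, true_and] at this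
        exact this
      subst hq
      exact hD
  · rintro ⟨i, q | q | q⟩
    · exact RepO_prod (hY i)
    · exact hY i
    · exact hZ i

end Stall
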