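import Pool.Agent.H.MP_4f19f9_lc.h56.KrF
import Pool.Agent.H.MP_4f19f9_lc.h56.KrO
import Pool.Agent.H.MP_4f19f9_lc.h56.RepO
import Pool.Agent.H.MP_4f19f9_lc.h56.RepF
import Pool.Agent.H.MP_4f19f9_lc.h56.Psi
import Pool.Agent.H.MP_4f19f9_lc.h56.JoinB
import Pool.Agent.H.MP_4f19f9_lc.h56.Low
import Pool.Agent.H.MP_4f19f9_lc.h56.OY
import Pool.Agent.H.MP_4f19f9_lc.h56.OZ
import Pool.Agent.H.MP_4f19f9_lc.h56.FYZ
import Pool.Agent.H.MP_4f19f9_lc.h56.Num

namespace Stall

open Finset Pool.Agent.SC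

/-! ### arithmetic of the parameters -/

theorem uu_pos (t : ℕ) : 0 < uu t := by unfold uu; omega
theorem PP_pos (t : ℕ) : 0 < PP t := by unfold PP; positivity
theorem ss_pos (t : ℕ) : 0 < ss t := by unfold ss; positivity
theorem mm_pos (t : ℕ) : 0 < mm t := by unfold mm; positivity

theorem mm_ge (t : ℕ) : 8 ≤ mm t := by unfold mm; omega

/-- the value of the first relation -/
noncomputable def yv (t : ℕ) : ℝ := (PP t : ℝ) / uu t
noncomputable def zv (t : ℕ) : ℝ := (ss t : ℝ) * uu t / PP t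

theorem yv_pos (t : ℕ) : 0 < yv t := by
  have h1 : (0 : ℝ) < PP t := by exact_mod_cast PP_pos t
  have h2 : (0 : ℝ) < uu t := by exact_mod_cast uu_pos t
  unfold yv; positivity

theorem zv_pos (t : ℕ) : 0 < zv t := by
  have h1 : (0 : ℝ) < PP t := by exact_mod_cast PP_pos t
  have h2 : (0 : ℝ) < uu t := by exact_mod_cast uu_pos t
  have h3 : (0 : ℝ) < ss t := by exact_mod_cast ss_pos t
  unfold zv; positivity

theorem yv_eq (t : ℕ) :
    ((mm t : ℝ)) * (mm t - 2) * (2 * mm t - 11) / (3 * (3 * mm t - 14)) = yv t := by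
  have h2 : (0 : ℝ) < uu t := by exact_mod_cast uu_pos t
  have h3 : (3 * (mm t : ℝ) - 14) = 2 * uu t := by unfold mm uu; push_cast; ring
  unfold yv
  rw [h3, div_eq_div_iff (by positivity) (by positivity)]
  unfold mm uu PP; push_cast; ring

theorem zv_eq (t : ℕ) :
    (((mm t : ℝ)) - 1) * (3 * mm t - 14) / (2 * (2 * mm t - 11)) = zv t := by
  have h1 : (0 : ℝ) < PP t := by exact_mod_cast PP_pos t
  have h2 : (0 : ℝ) < uu t := by exact_mod_cast uu_pos t
  have h3 : (3 * (mm t : ℝ) - 14) = 2 * uu t := by unfold mm uu; push_cast; ring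
  have h4 : (0 : ℝ) < 2 * mm t - 11 := by
    have : (8 : ℝ) ≤ mm t := by exact_mod_cast mm_ge t
    linarith
  unfold zv
  rw [h3, div_eq_div_iff (by positivity) (by positivity)]
  unfold mm uu PP ss; push_cast; ring

theorem qv_eq (t : ℕ) : (((mm t : ℝ)) - 1) * (mm t - 2) / 6 = (ss t : ℝ) / mm t := by
  have h1 : (0 : ℝ) < mm t := by exact_mod_cast mm_pos t
  rw [div_eq_div_iff (by positivity) (by positivity)]
  unfold mm ss; push_cast; ring

/-- the ratio y / r -/
theorem ratio_eq (t : ℕ) : yv t / mm t =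
    (840 * (t : ℝ) + 841) * (1120 * t + 1119) / (2520 * t + 2519) := by
  have h1 : (0 : ℝ) < mm t := by exact_mod_cast mm_pos t
  have h2 : (0 : ℝ) < uu t := by exact_mod_cast uu_pos t
  have h3 : (2520 * (t : ℝ) + 2519) = uu t := by unfold uu; push_cast; ring
  unfold yv
  rw [div_div, h3, div_eq_div_iff (by positivity) (by positivity)]
  unfold mm PP uu; push_cast; ring

theorem ratio_ge (t : ℕ) : 3 ≤ yv t / mm t := by
  rw [ratio_eq, le_div_iff₀ (by positivity)]
  have : (0 : ℝ) ≤ t := Nat.cast_nonneg t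
  nlinarith

theorem ratio_le (t : ℕ) : yv t / mm t ≤ 500 * (t + 1) := by
  rw [ratio_eq, div_le_iff₀ (by positivity)]
  have : (0 : ℝ) ≤ t := Nat.cast_nonneg t
  nlinarith

theorem ratio_z (t : ℕ) : zv t / (ss t / mm t) = (yv t / mm t)⁻¹ := by
  have h1 : (0 : ℝ) < PP t := by exact_mod_cast PP_pos t
  have h2 : (0 : ℝ) < uu t := by exact_mod_cast uu_pos t
  have h3 : (0 : ℝ) < ss t := by exact_mod_cast ss_pos t
  have h4 : (0 : ℝ) < mm t := by exact_mod_cast mm_pos t
  unfold yv zv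
  field_simp

theorem yz (t : ℕ) : yv t * zv t = ss t := by
  have h1 : (0 : ℝ) < PP t := by exact_mod_cast PP_pos t
  have h2 : (0 : ℝ) < uu t := by exact_mod_cast uu_pos t
  unfold yv zv
  field_simp

theorem PP_le (t : ℕ) : PP t ≤ uu t * ss t := by
  unfold PP uu ss
  have h : (420 * t + 421) * (840 * t + 841) * (1120 * t + 1119) * 4 ≤
      (420 * t + 421) * (840 * t + 841) * ((2520 * t + 2519) * (560 * t + 561)) * 4 := by
    gcongr
    nlinarith
  nlinarith

/-! ### the construction -/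

section constr

variable (K : ℕ) (A : Fin (K + 1) → ℕ)

def tt (j : Fin (K + 1)) : ℕ := K + j
abbrev XX (j : Fin (K + 1)) : Type := Tr (mm (tt K j))
def c2 (j : Fin (K + 1)) : ℕ := uu (tt K j) * A j
def c1 (j : Fin (K + 1)) : ℕ := 2 * uu (tt K j) ^ 2 * ss (tt K j) - 2 * A j * PP (tt K j)
def c0 (j : Fin (K + 1)) : ℕ := 2 * PP (tt K j) ^ 2

abbrev LL : Type := AV (XX K) (c2 K A) (c1 K A) (c0 K)

/-- distinguishability -/
def DL : LL K A → LL K A → Prop :=
  full (ltA (XX K) (c2 K A) (c1 K A) (c0 K))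
    (DA (XX K) (c2 K A) (c1 K A) (c0 K) (fun _ => DY _) (fun _ => DZ _))

theorem card_XX (j : Fin (K + 1)) : Fintype.card (XX K j) = ss (tt K j) := by
  rw [← choose_mm]
  simp [Fintype.card_finset_len]

variable {K A} (hA : ∀ j, A j < uu (K + j))

include hA in
theorem c1_cast (j : Fin (K + 1)) : (c1 K A j : ℝ) =
    2 * (uu (tt K j) : ℝ) ^ 2 * ss (tt K j) - 2 * A j * PP (tt K j) := by
  unfold c1
  rw [Nat.cast_sub]
  · push_cast; ring
  · have h1 := PP_le (tt K j)
    have h2 : A j ≤ uu (tt K j) := (hA j).le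
    calc 2 * A j * PP (tt K j) ≤ 2 * uu (tt K j) * (uu (tt K j) * ss (tt K j)) := by gcongr
      _ = _ := by ring

/-- the weights, main functional -/
noncomputable def gL (K : ℕ) (A : Fin (K + 1) → ℕ) : AC (c2 K A) (c1 K A) (c0 K) → ℝ :=
  gA (c2 K A) (c1 K A) (c0 K) (fun j => yv (tt K j)) (fun j => zv (tt K j))

/-- the weights, second functional -/
noncomputable def fL (K : ℕ) (A : Fin (K + 1) → ℕ) : AC (c2 K A) (c1 K A) (c0 K) → ℝ :=
  gA (c2 K A) (c1 K A) (c0 K) (fun j => (mm (tt K j) : ℝ))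
    (fun j => (ss (tt K j) : ℝ) / mm (tt K j))

theorem gL_pos (c) : 0 < gL K A c := by
  rcases c with ⟨i, c | c | c⟩ <;> simp only [gL, gA]
  · have := yv_pos (tt K i); positivity
  · exact yv_pos _
  · exact zv_pos _

theorem fL_pos (c) : 0 < fL K A c := by
  rcases c with ⟨i, c | c | c⟩ <;> simp only [fL, gA]
  all_goals
    have h1 : (0 : ℝ) < mm (tt K i) := by exact_mod_cast mm_pos _
    have h2 : (0 : ℝ) < ss (tt K i) := by exact_mod_cast ss_pos _
    positivity

/-- sums over the types -/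
theorem sum_types (φ : AC (c2 K A) (c1 K A) (c0 K) → ℝ) :
    ∑ c, φ c = ∑ j, ((∑ b, φ ⟨j, Sum.inl b⟩) + ((∑ b, φ ⟨j, Sum.inr (Sum.inl b)⟩) +
      ∑ b, φ ⟨j, Sum.inr (Sum.inr b)⟩)) := by
  rw [Fintype.sum_sigma]
  refine Finset.sum_congr rfl (fun j _ => ?_)
  rw [Fintype.sum_sum_type, Fintype.sum_sum_type]

include hA in
theorem bal_j (j : Fin (K + 1)) : 2 * (c2 K A j : ℝ) * yv (tt K j) ^ 2 +
    c1 K A j * yv (tt K j) = c0 K j * zv (tt K j) := by
  have h1 : (0 : ℝ) < PP (tt K j) := by exact_mod_cast PP_pos _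
  have h2 : (0 : ℝ) < uu (tt K j) := by exact_mod_cast uu_pos _
  rw [c1_cast hA]
  unfold c2 c0 yv zv
  push_cast
  field_simp
  ring

include hA in
theorem sum_gL : ∑ c, gL K A c = ∑ j : Fin (K + 1), (4 * (PP (K + j) : ℝ) * uu (K + j) *
    ss (K + j) - A j * (PP (K + j) : ℝ) ^ 2 / uu (K + j)) := by
  rw [sum_types]
  refine Finset.sum_congr rfl (fun j _ => ?_)
  simp only [gL, gA, Finset.sum_const, Finset.card_univ, Fintype.card_fin, nsmul_eq_mul]
  rw [c1_cast hA]
  change _ = 4 * (PP (tt K j) : ℝ) * uu (tt K j) *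
    ss (tt K j) - A j * (PP (tt K j) : ℝ) ^ 2 / uu (tt K j)
  have h1 : (0 : ℝ) < PP (tt K j) := by exact_mod_cast PP_pos _
  have h2 : (0 : ℝ) < uu (tt K j) := by exact_mod_cast uu_pos _
  unfold c2 c0 yv zv
  push_cast
  field_simp
  ring

/-- log of the ratios -/
theorem log_gf (c : AC (c2 K A) (c1 K A) (c0 K)) : Real.log (gL K A c / fL K A c) =
    (match c with
      | ⟨j, Sum.inl _⟩ => 2 * Real.log (yv (tt K j) / mm (tt K j))
      | ⟨j, Sum.inr (Sum.inl _)⟩ => Real.log (yv (tt K j) / mm (tt K j))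
      | ⟨j, Sum.inr (Sum.inr _)⟩ => - Real.log (yv (tt K j) / mm (tt K j))) := by
  rcases c with ⟨i, c | c | c⟩ <;> simp only [gL, fL, gA]
  · rw [← div_pow, Real.log_pow]; norm_num
  · rw [ratio_z, Real.log_inv]

theorem log_ratio_ge (t : ℕ) : 1 ≤ Real.log (yv t / mm t) := by
  rw [Real.le_log_iff_exp_le (by have := ratio_ge t; linarith)]
  have := Real.exp_one_lt_d9
  have := ratio_ge t
  linarith

theorem log_ratio_le (t : ℕ) : Real.log (yv t / mm t) ≤ 500 * (t + 1) := by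
  have h := ratio_le t
  have h2 := ratio_ge t
  have h3 := Real.log_le_sub_one_of_pos (show 0 < yv t / mm t by linarith)
  linarith

theorem abs_log (c : AC (c2 K A) (c1 K A) (c0 K)) :
    |Real.log (gL K A c / fL K A c)| ≤ 2000 * ((K : ℝ) + 1) := by
  have key : ∀ j : Fin (K + 1), 0 ≤ Real.log (yv (tt K j) / mm (tt K j)) ∧
      Real.log (yv (tt K j) / mm (tt K j)) ≤ 1000 * ((K : ℝ) + 1) := by
    intro j
    refine ⟨by have := log_ratio_ge (tt K j); linarith, ?_⟩
    refine (log_ratio_le _).trans ?_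
    have : ((tt K j : ℕ) : ℝ) ≤ 2 * K := by
      unfold tt; have := j.2; exact_mod_cast (by omega : K + (j : ℕ) ≤ 2 * K)
    linarith
  rw [log_gf]
  rcases c with ⟨i, c | c | c⟩ <;> simp only <;> have h := key i <;> rw [abs_le] <;>
    constructor <;> linarith [h.1, h.2]

theorem sq_log (c : AC (c2 K A) (c1 K A) (c0 K)) :
    1 ≤ Real.log (gL K A c / fL K A c) ^ 2 := by
  rw [log_gf]
  rcases c with ⟨i, c | c | c⟩ <;> simp only <;> have h := log_ratio_ge (tt K i) <;> nlinarith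

include hA in
theorem bal_log : ∑ c, gL K A c * Real.log (gL K A c / fL K A c) = 0 := by
  rw [sum_types]
  refine Finset.sum_eq_zero (fun j _ => ?_)
  simp only [log_gf]
  simp only [gL, gA, Finset.sum_const, Finset.card_univ, Fintype.card_fin, nsmul_eq_mul]
  have h := bal_j hA j
  linear_combination (Real.log (yv (tt K j) / mm (tt K j))) * h

theorem var_log : ∑ c, gL K A c ≤ ∑ c, gL K A c * Real.log (gL K A c / fL K A c) ^ 2 := by
  refine Finset.sum_le_sum (fun c _ => ?_)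
  have h1 := gL_pos c
  have h2 := sq_log c
  nlinarith

end constr

end Stall
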