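import Pool.Agent.H.MP_4f19f9_lc.h56.Defs

namespace Stall

open Finset

/-
PROOF. Unfold FRep: index type ι, subsets R c, vectors p a : ι → ZMod 2, finite Ω, act, ρ, with
f c = card (R c) / ρ c. Let J : Fin n → C and Q be pairwise separated words of types J.
Step 1 (fixed ω : Fin n → Ω). Let Qω be the set of x in Q with act (ω i) a for all i, a with
x i = some a. Claim: the sum over x in Qω of the product over the blanks i of x of card (R (J i))
is at most the product over all i of card (R (J i)).
For x in Qω and k : Fin n → ι with k i in R (J i) for every blank i of x and, say, k i arbitrary but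
fixed (or: k in piFinset over the blanks) let u_{x,k} : (Fin n → ι) → ZMod 2 be
u_{x,k}(l) = prod_i (if x i = some a then p a (l i) else if l i = k i then 1 else 0), for l in
E := Fintype.piFinset (fun i => R (J i)).
The sum over l in E of u_{x,k}(l) u_{x',k'}(l) is a product over i of sums over R (J i)
(Finset.prod_univ_sum): it is 1 if x = x' and k = k' on the blanks (p a . p a = 1, lt a = J i) and 0
otherwise: for x ≠ x' there is i with x i = some a, x' i = some b, D a b, lt a = lt b = J i, so
the i-th factor is 0; for x = x', k ≠ k' the factor at a blank where they differ is 0.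
So these vectors are linearly independent in the functions on E (Gram matrix = 1 over a field),
their number is at most card E. (LinearIndependent, card_le_finrank, or: the matrix product
U * U^T = 1 gives card rows ≤ card columns by Matrix.rank.)
Dividing: sum over Qω of prod over the letters a of x of 1 / card (R (lt a)) ≤ 1.
Step 2. Sum over all ω : Fin n → Ω and exchange: for fixed x the number of ω with x in Qω is
prod_i (if x i = some a then card {ω // act ω a} else card Ω) ≥ card Ω ^ n * prod over letters ρ.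
-/

/-- The basis vector of `k` at the blanks, the vector of the letter elsewhere. -/
noncomputable def KrF_fac {V ι : Type} [DecidableEq ι] (p : V → ι → ZMod 2) (o : Option V) (k l : ι) :
    ZMod 2 :=
  o.elim (if l = k then 1 else 0) (fun a => p a l)

theorem KrF_step {V C ι : Type} [DecidableEq ι] {lt : V → C} (R : C → Finset ι)
    (p : V → ι → ZMod 2) (hR : ∀ c, (R c).Nonempty)
    (h1 : ∀ a, ∑ k ∈ R (lt a), p a k * p a k = 1)
    {n : ℕ} (J : Fin n → C) (Q : Finset (PWord V n)) (hJ : ∀ x ∈ Q, Cpt lt J x)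
    (hQ : ∀ x ∈ Q, ∀ y ∈ Q, x ≠ y → ∃ (i : Fin n) (a b : V), x i = some a ∧ y i = some b ∧
      ∑ k ∈ R (J i), p a k * p b k = 0) :
    ∑ x ∈ Q, ∏ i, (x i).elim (R (J i)).card (fun _ => 1) ≤ ∏ i, (R (J i)).card := by
  classical
  choose k0 hk0 using fun i => hR (J i)
  set B : PWord V n → Finset (Fin n → ι) := fun x =>
    Fintype.piFinset (fun i => (x i).elim (R (J i)) (fun _ => {k0 i})) with hB
  set E : Finset (Fin n → ι) := Fintype.piFinset (fun i => R (J i)) with hE
  set rows : Finset (Σ _ : PWord V n, (Fin n → ι)) := Q.sigma B with hrows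
  set u : (Σ _ : PWord V n, (Fin n → ι)) → (Fin n → ι) → ZMod 2 := fun r l =>
    ∏ i, KrF_fac p (r.1 i) (r.2 i) (l i) with hu
  have hgram : ∀ r ∈ rows, ∀ r' ∈ rows, ∑ l ∈ E, u r l * u r' l = if r = r' then 1 else 0 := by
    rintro ⟨x, k⟩ hr ⟨x', k'⟩ hr'
    rw [hrows, Finset.mem_sigma] at hr hr'
    obtain ⟨hx, hk⟩ := hr
    obtain ⟨hx', hk'⟩ := hr'
    simp only at hx hk hx' hk'
    have e1 : ∑ l ∈ E, u ⟨x, k⟩ l * u ⟨x', k'⟩ l =
        ∏ i, ∑ j ∈ R (J i), KrF_fac p (x i) (k i) j * KrF_fac p (x' i) (k' i) j := by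
      rw [Finset.prod_univ_sum]
      refine Finset.sum_congr rfl fun l _ => ?_
      simp only [hu]
      rw [← Finset.prod_mul_distrib]
    rw [e1]
    by_cases hxx : x = x'
    · subst hxx
      by_cases hkk : k = k'
      · subst hkk
        rw [if_pos rfl]
        refine Finset.prod_eq_one fun i _ => ?_
        rcases hxi : x i with _ | a
        · have hki : k i ∈ R (J i) := by
            have := Fintype.mem_piFinset.1 hk i
            rw [hxi] at this
            exact this
          simp only [KrF_fac, Option.elim]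
          rw [Finset.sum_eq_single_of_mem (k i) hki]
          · simp
          · intro j _ hj
            simp [hj]
        · simp only [KrF_fac, Option.elim]
          have := h1 a
          rw [hJ x hx i a hxi] at this
          exact this
      · rw [if_neg (by simpa using hkk)]
        obtain ⟨i, hi⟩ := Function.ne_iff.1 hkk
        refine Finset.prod_eq_zero (Finset.mem_univ i) ?_
        have h3 := Fintype.mem_piFinset.1 hk i
        have h4 := Fintype.mem_piFinset.1 hk' i
        rcases hxi : x i with _ | a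
        · refine Finset.sum_eq_zero fun j _ => ?_
          simp only [KrF_fac, Option.elim]
          by_cases hj : j = k i
          · rw [if_neg (show ¬ j = k' i from fun h => hi (hj.symm.trans h)), mul_zero]
          · rw [if_neg hj, zero_mul]
        · exfalso
          rw [hxi] at h3 h4
          simp only [Option.elim, Finset.mem_singleton] at h3 h4
          exact hi (h3.trans h4.symm)
    · rw [if_neg (by
        intro h
        exact hxx (congrArg Sigma.fst h))]
      obtain ⟨i, a, b, ha, hb, h0⟩ := hQ x hx x' hx' hxx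
      refine Finset.prod_eq_zero (Finset.mem_univ i) ?_
      rw [ha, hb]
      exact h0
  have hcard : rows.card ≤ E.card := by
    set M : Matrix rows E (ZMod 2) := Matrix.of fun r l => u r.1 l.1 with hM
    have hMM : M * M.transpose = 1 := by
      ext r r'
      rw [Matrix.mul_apply, Matrix.one_apply]
      simp only [hM, Matrix.transpose_apply, Matrix.of_apply]
      rw [Finset.sum_coe_sort E (fun l => u r.1 l * u r'.1 l), hgram r.1 r.2 r'.1 r'.2]
      simp only [Subtype.ext_iff]
    have h5 := Matrix.rank_mul_le_left M M.transpose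
    rw [hMM, Matrix.rank_one] at h5
    simpa using h5.trans (Matrix.rank_le_card_width M)
  rw [hrows, Finset.card_sigma, hE, Fintype.card_piFinset] at hcard
  refine le_trans (Finset.sum_le_sum fun x _ => ?_) hcard
  rw [hB]
  simp only [Fintype.card_piFinset]
  refine le_of_eq (Finset.prod_congr rfl fun i _ => ?_)
  rcases x i with _ | a
  · rfl
  · simp

/-- The claim for the words whose letters are active. -/
theorem KrF_real {V C ι : Type} [DecidableEq ι] {lt : V → C} (R : C → Finset ι)
    (p : V → ι → ZMod 2) (hR : ∀ c, (R c).Nonempty)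
    (h1 : ∀ a, ∑ k ∈ R (lt a), p a k * p a k = 1)
    {n : ℕ} (J : Fin n → C) (Q : Finset (PWord V n)) (hJ : ∀ x ∈ Q, Cpt lt J x)
    (hQ : ∀ x ∈ Q, ∀ y ∈ Q, x ≠ y → ∃ (i : Fin n) (a b : V), x i = some a ∧ y i = some b ∧
      ∑ k ∈ R (J i), p a k * p b k = 0) :
    ∑ x ∈ Q, wt (fun a => ((R (lt a)).card : ℝ)⁻¹) x ≤ 1 := by
  have h2 := KrF_step R p hR h1 J Q hJ hQ
  have hpos : ∀ i, (0 : ℝ) < ((R (J i)).card : ℝ) := fun i => by
    exact_mod_cast Finset.card_pos.2 (hR (J i))
  have hP : (0 : ℝ) < ∏ i, ((R (J i)).card : ℝ) := Finset.prod_pos fun i _ => hpos i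
  have h3 : (∏ i, ((R (J i)).card : ℝ)) * ∑ x ∈ Q, wt (fun a => ((R (lt a)).card : ℝ)⁻¹) x =
      ((∑ x ∈ Q, ∏ i, (x i).elim (R (J i)).card (fun _ => 1) : ℕ) : ℝ) := by
    rw [Finset.mul_sum]
    push_cast
    refine Finset.sum_congr rfl fun x hx => ?_
    unfold wt
    rw [← Finset.prod_mul_distrib]
    refine Finset.prod_congr rfl fun i _ => ?_
    rcases hxi : x i with _ | a
    · simp
    · simp only [Option.elim]
      rw [hJ x hx i a hxi, mul_inv_cancel₀ (hpos i).ne']
      simp
  have h4 : (∏ i, ((R (J i)).card : ℝ)) * ∑ x ∈ Q, wt (fun a => ((R (lt a)).card : ℝ)⁻¹) x ≤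
      (∏ i, ((R (J i)).card : ℝ)) * 1 := by
    rw [h3, mul_one]
    exact_mod_cast h2
  exact le_of_mul_le_mul_left h4 hP

theorem kraft_of_frep {V C : Type} {D : V → V → Prop} {lt : V → C} {f : C → ℝ}
    (h : FRep D lt f) : Kraft D lt f := by
  classical
  obtain ⟨ι, Ω, _, _, _, R, p, act, ρ, hΩ, hρ, hR, hf, hact, h1, h0⟩ := h
  intro n J Q hJ hQ
  have hstep : ∀ ω : Fin n → Ω,
      ∑ x ∈ Q.filter (fun x => ∀ i a, x i = some a → act (ω i) a),
        wt (fun a => ((R (lt a)).card : ℝ)⁻¹) x ≤ 1 := by
    intro ω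
    refine KrF_real R p hR h1 J _ (fun x hx => hJ x (Finset.mem_filter.1 hx).1) ?_
    intro x hx y hy hxy
    obtain ⟨hx1, hx2⟩ := Finset.mem_filter.1 hx
    obtain ⟨hy1, hy2⟩ := Finset.mem_filter.1 hy
    obtain ⟨i, a, b, ha, hb, hD⟩ := hQ x hx1 y hy1 hxy
    refine ⟨i, a, b, ha, hb, ?_⟩
    have e1 := hJ x hx1 i a ha
    have e2 := hJ y hy1 i b hb
    have := h0 (ω i) a b (e1.trans e2.symm) hD (hx2 i a ha) (hy2 i b hb)
    rw [e1] at this
    exact this
  have hsum : ∑ ω : Fin n → Ω, ∑ x ∈ Q, (if ∀ i a, x i = some a → act (ω i) a then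
      wt (fun a => ((R (lt a)).card : ℝ)⁻¹) x else 0) ≤ (Fintype.card Ω : ℝ) ^ n := by
    calc ∑ ω : Fin n → Ω, ∑ x ∈ Q, (if ∀ i a, x i = some a → act (ω i) a then
          wt (fun a => ((R (lt a)).card : ℝ)⁻¹) x else 0)
        ≤ ∑ _ω : Fin n → Ω, (1 : ℝ) := Finset.sum_le_sum fun ω _ => by
          rw [← Finset.sum_filter]
          exact hstep ω
      _ = (Fintype.card Ω : ℝ) ^ n := by
          rw [Finset.sum_const, Finset.card_univ, Fintype.card_fun, Fintype.card_fin]
          simp
  rw [Finset.sum_comm] at hsum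
  have hcount : ∀ x ∈ Q, (Fintype.card Ω : ℝ) ^ n * wt (fun a => (f (lt a))⁻¹) x ≤
      ∑ ω : Fin n → Ω, (if ∀ i a, x i = some a → act (ω i) a then
        wt (fun a => ((R (lt a)).card : ℝ)⁻¹) x else 0) := by
    intro x _
    have e3 : ∑ ω : Fin n → Ω, (if ∀ i a, x i = some a → act (ω i) a then
        wt (fun a => ((R (lt a)).card : ℝ)⁻¹) x else 0) =
        ∏ i, ∑ w : Ω, (x i).elim 1 (fun a => if act w a then ((R (lt a)).card : ℝ)⁻¹ else 0) := by
      rw [Fintype.prod_sum]
      refine Finset.sum_congr rfl fun ω _ => ?_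
      by_cases hω : ∀ i a, x i = some a → act (ω i) a
      · rw [if_pos hω]
        unfold wt
        refine Finset.prod_congr rfl fun i _ => ?_
        rcases hxi : x i with _ | a
        · rfl
        · simp only [Option.elim]
          rw [if_pos (hω i a hxi)]
      · rw [if_neg hω]
        push Not at hω
        obtain ⟨i, a, hxi, hna⟩ := hω
        symm
        refine Finset.prod_eq_zero (Finset.mem_univ i) ?_
        rw [hxi]
        simp only [Option.elim]
        rw [if_neg hna]
    rw [e3]
    have e4 : (Fintype.card Ω : ℝ) ^ n * wt (fun a => (f (lt a))⁻¹) x =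
        ∏ i, ((Fintype.card Ω : ℝ) * (x i).elim 1 (fun a => (f (lt a))⁻¹)) := by
      unfold wt
      rw [Finset.prod_mul_distrib, Finset.prod_const, Finset.card_univ, Fintype.card_fin]
    rw [e4]
    have hf0 : ∀ c, 0 ≤ (f c)⁻¹ := fun c => by
      rw [hf]
      exact inv_nonneg.2 (div_nonneg (Nat.cast_nonneg _) (hρ c).le)
    refine Finset.prod_le_prod (fun i _ => ?_) (fun i _ => ?_)
    · refine mul_nonneg (Nat.cast_nonneg _) ?_
      rcases x i with _ | a
      · exact zero_le_one
      · exact hf0 _
    · rcases x i with _ | a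
      · simp
      · simp only [Option.elim]
        rw [← Finset.sum_filter, Finset.sum_const, nsmul_eq_mul, hf, inv_div, div_eq_mul_inv,
          ← mul_assoc]
        refine mul_le_mul_of_nonneg_right ?_ (inv_nonneg.2 (Nat.cast_nonneg _))
        have e5 := hact a
        rw [Nat.card_eq_fintype_card, Fintype.card_subtype] at e5
        rw [mul_comm]
        exact e5
  have hfin : (Fintype.card Ω : ℝ) ^ n * ∑ x ∈ Q, wt (fun a => (f (lt a))⁻¹) x ≤
      (Fintype.card Ω : ℝ) ^ n * 1 := by
    rw [Finset.mul_sum, mul_one]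
    exact (Finset.sum_le_sum hcount).trans hsum
  exact le_of_mul_le_mul_left hfin (pow_pos (by exact_mod_cast hΩ) n)

end Stall
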