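import Pool.Agent.H.MP_4f19f9_lc.h56.Final

namespace Stall

open Finset Pool.Agent.SC

variable {K : ℕ} {A : Fin (K + 1) → ℕ}

/-! ### representations of L -/

theorem ORep.full {V C : Type} {D : V → V → Prop} {lt : V → C} {g : C → ℝ}
    (h : ORep D lt g) : ORep (full lt D) lt g := by
  obtain ⟨ι, i1, v, hh, h1, h2, h3, h4⟩ := h
  refine ⟨ι, i1, v, hh, h1, h2, h3, fun a b hab hD => h4 a b hab ?_⟩
  rcases hD with hD | hD
  · exact absurd hab hD
  · exact hD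

theorem FRep.full {V C : Type} {D : V → V → Prop} {lt : V → C} {g : C → ℝ}
    (h : FRep D lt g) : FRep (full lt D) lt g := by
  obtain ⟨ι, Ω, i1, i2, i3, R, p, act, ρ, h1, h2, h3, h4, h5, h6, h7⟩ := h
  refine ⟨ι, Ω, i1, i2, i3, R, p, act, ρ, h1, h2, h3, h4, h5, h6, fun ω a b hab hD => h7 ω a b hab ?_⟩
  rcases hD with hD | hD
  · exact absurd hab hD
  · exact hD

theorem kraft_g : Kraft (DL K A) (ltA (XX K) (c2 K A) (c1 K A) (c0 K)) (gL K A) := by
  apply kraft_of_orep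
  apply ORep.full
  apply orep_all
  · intro i
    have h := orep_DY (mm (tt K i)) (mm_ge _)
    rw [yv_eq] at h
    exact h
  · intro i
    have h := orep_DZ (mm (tt K i)) (mm_ge _)
    rw [zv_eq] at h
    exact h

theorem kraft_f : Kraft (DL K A) (ltA (XX K) (c2 K A) (c1 K A) (c0 K)) (fL K A) := by
  apply kraft_of_frep
  apply FRep.full
  apply frep_all
  · intro i
    exact frep_DY (mm (tt K i)) (mm_pos _)
  · intro i
    have h := frep_DZ (mm (tt K i)) (mm_pos _) ⟨420 * tt K i + 421, by unfold mm; ring⟩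
    rw [qv_eq] at h
    exact h

theorem DY_symm {m : ℕ} (a b : Tr m) (h : DY m a b) : DY m b a :=
  ⟨h.1.symm, by rw [Finset.inter_comm]; exact h.2⟩

theorem DZ_symm {m : ℕ} (a b : Tr m) (h : DZ m a b) : DZ m b a := by
  unfold DZ at *; rw [Finset.inter_comm]; exact h

theorem DY_irr {m : ℕ} (a : Tr m) : ¬ DY m a a := fun h => h.1 rfl

theorem DZ_irr {m : ℕ} (a : Tr m) : ¬ DZ m a a := by
  unfold DZ; rw [Finset.inter_self, a.2]; norm_num

theorem DYZ {m : ℕ} (a b : Tr m) (h : a ≠ b) : DY m a b ∨ DZ m a b := by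
  by_cases h1 : (a.1 ∩ b.1).card = 1
  · exact Or.inr h1
  · exact Or.inl ⟨h, h1⟩

theorem D1_symm {X : Type} {RY RZ : X → X → Prop} (hY : ∀ a b, RY a b → RY b a)
    (hZ : ∀ a b, RZ a b → RZ b a) {m2 m1 m0 : ℕ} (a b : LV X m2 m1 m0) (h : D1 RY RZ a b) :
    D1 RY RZ b a := by
  rcases a with a | a | a <;> rcases b with b | b | b <;> simp only [D1] at h ⊢
  · exact h.imp (hY _ _) (hY _ _)
  · exact hY _ _ h
  · exact hZ _ _ h

theorem D1_irr {X : Type} {RY RZ : X → X → Prop} (hY : ∀ a, ¬ RY a a)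
    (hZ : ∀ a, ¬ RZ a a) {m2 m1 m0 : ℕ} (a : LV X m2 m1 m0) : ¬ D1 RY RZ a a := by
  rcases a with a | a | a <;> simp only [D1]
  · rintro (h | h)
    · exact hY _ h
    · exact hY _ h
  · exact hY _
  · exact hZ _

theorem DL_symm (a b : LL K A) (h : DL K A a b) : DL K A b a := by
  rcases h with h | ⟨i, a', b', rfl, rfl, h⟩
  · exact Or.inl h.symm
  · exact Or.inr ⟨i, b', a', rfl, rfl, D1_symm DY_symm DZ_symm _ _ h⟩

theorem DL_irr (a : LL K A) : ¬ DL K A a a := by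
  rintro (h | ⟨i, a', b', h1, h2, h⟩)
  · exact h rfl
  · subst h1
    have : a' = b' := by
      simpa using h2
    subst this
    exact D1_irr DY_irr DZ_irr _ h

/-! ### sizes -/

theorem uu_le (t : ℕ) : uu t ≤ 2520 * (t + 1) := by unfold uu; omega

theorem PP_le' (t : ℕ) : PP t ≤ 10 ^ 10 * (t + 1) ^ 3 := by
  unfold PP
  have h1 : 420 * t + 421 ≤ 421 * (t + 1) := by omega
  have h2 : 840 * t + 841 ≤ 841 * (t + 1) := by omega
  have h3 : 1120 * t + 1119 ≤ 1120 * (t + 1) := by omega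
  calc 4 * (420 * t + 421) * (840 * t + 841) * (1120 * t + 1119)
      ≤ 4 * (421 * (t + 1)) * (841 * (t + 1)) * (1120 * (t + 1)) := by gcongr
    _ = (4 * 421 * 841 * 1120) * (t + 1) ^ 3 := by ring
    _ ≤ 10 ^ 10 * (t + 1) ^ 3 := Nat.mul_le_mul_right _ (by norm_num)

theorem ss_le (t : ℕ) : ss t ≤ 10 ^ 9 * (t + 1) ^ 3 := by
  unfold ss
  have h1 : 420 * t + 421 ≤ 421 * (t + 1) := by omega
  have h2 : 840 * t + 841 ≤ 841 * (t + 1) := by omega
  have h3 : 560 * t + 561 ≤ 561 * (t + 1) := by omega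
  calc 4 * (420 * t + 421) * (560 * t + 561) * (840 * t + 841)
      ≤ 4 * (421 * (t + 1)) * (561 * (t + 1)) * (841 * (t + 1)) := by gcongr
    _ = (4 * 421 * 561 * 841) * (t + 1) ^ 3 := by ring
    _ ≤ 10 ^ 9 * (t + 1) ^ 3 := Nat.mul_le_mul_right _ (by norm_num)

theorem uu_ge (t : ℕ) : 2519 * (t + 1) ≤ uu t := by unfold uu; omega

theorem PP_ge (t : ℕ) : 10 ^ 6 * (t + 1) ≤ PP t := by
  unfold PP
  calc 10 ^ 6 * (t + 1) ≤ 4 * (420 * (t + 1)) * 841 * 1119 := by ring_nf; omega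
    _ ≤ 4 * (420 * t + 421) * (840 * t + 841) * (1120 * t + 1119) := by gcongr <;> omega

theorem ss_ge (t : ℕ) : 10 ^ 6 ≤ ss t := by
  unfold ss
  calc 10 ^ 6 ≤ 4 * 421 * 561 * 841 := by norm_num
    _ ≤ 4 * (420 * t + 421) * (560 * t + 561) * (840 * t + 841) := by gcongr <;> omega

theorem pus_ge (t : ℕ) : 10 ^ 12 * (t + 1) ^ 2 ≤ PP t * uu t * ss t := by
  calc 10 ^ 12 * (t + 1) ^ 2 ≤ (10 ^ 6 * (t + 1)) * (2519 * (t + 1)) * 10 ^ 6 := by ring_nf; nlinarith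
    _ ≤ PP t * uu t * ss t := by gcongr; exacts [PP_ge t, uu_ge t, ss_ge t]

theorem pus_le (t : ℕ) : PP t * uu t * ss t ≤ 10 ^ 23 * (t + 1) ^ 7 := by
  calc PP t * uu t * ss t ≤ (10 ^ 10 * (t + 1) ^ 3) * (2520 * (t + 1)) * (10 ^ 9 * (t + 1) ^ 3) := by
        gcongr; exacts [PP_le' t, uu_le t, ss_le t]
    _ = (10 ^ 10 * 2520 * 10 ^ 9) * (t + 1) ^ 7 := by ring
    _ ≤ 10 ^ 23 * (t + 1) ^ 7 := Nat.mul_le_mul_right _ (by norm_num)

theorem card_aux {b2 b1 b0 u p s t : ℕ} (h2 : b2 ≤ u * u) (h1 : b1 ≤ 2 * u ^ 2 * s)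
    (h0 : b0 = 2 * p ^ 2) (hu : u ≤ 2520 * (t + 1)) (hs : s ≤ 10 ^ 9 * (t + 1) ^ 3)
    (hp : p ≤ 10 ^ 10 * (t + 1) ^ 3) :
    b2 * (s * s) + (b1 * s + b0 * s) ≤ 10 ^ 30 * (t + 1) ^ 9 := by
  subst h0
  calc b2 * (s * s) + (b1 * s + 2 * p ^ 2 * s)
      ≤ u * u * (s * s) + (2 * u ^ 2 * s * s + 2 * p ^ 2 * s) := by gcongr
    _ ≤ (2520 * (t + 1)) * (2520 * (t + 1)) * ((10 ^ 9 * (t + 1) ^ 3) * (10 ^ 9 * (t + 1) ^ 3)) +
        (2 * (2520 * (t + 1)) ^ 2 * (10 ^ 9 * (t + 1) ^ 3) * (10 ^ 9 * (t + 1) ^ 3) +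
          2 * (10 ^ 10 * (t + 1) ^ 3) ^ 2 * (10 ^ 9 * (t + 1) ^ 3)) := by gcongr
    _ = (3 * 2520 ^ 2 * 10 ^ 18) * (t + 1) ^ 8 + (2 * 10 ^ 29) * (t + 1) ^ 9 := by ring
    _ ≤ (3 * 2520 ^ 2 * 10 ^ 18) * (t + 1) ^ 9 + (2 * 10 ^ 29) * (t + 1) ^ 9 := by
        gcongr <;> omega
    _ = (3 * 2520 ^ 2 * 10 ^ 18 + 2 * 10 ^ 29) * (t + 1) ^ 9 := by ring
    _ ≤ 10 ^ 30 * (t + 1) ^ 9 := Nat.mul_le_mul_right _ (by norm_num)

/-- the number of vertices of one part of L -/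
theorem card_part (hA : ∀ j, A j < uu (K + j)) (j : Fin (K + 1)) :
    Fintype.card (LV (XX K j) (c2 K A j) (c1 K A j) (c0 K j)) ≤ 10 ^ 30 * (tt K j + 1) ^ 9 := by
  have hc : Fintype.card (LV (XX K j) (c2 K A j) (c1 K A j) (c0 K j)) =
      c2 K A j * (ss (tt K j) * ss (tt K j)) + (c1 K A j * ss (tt K j) + c0 K j * ss (tt K j)) := by
    rw [Fintype.card_sum, Fintype.card_sum, Fintype.card_prod, Fintype.card_prod, Fintype.card_prod,
      Fintype.card_prod, card_XX, Fintype.card_fin, Fintype.card_fin, Fintype.card_fin]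
  rw [hc]
  refine card_aux ?_ ?_ rfl (uu_le _) (ss_le _) (PP_le' _)
  · unfold c2; exact Nat.mul_le_mul_left _ (hA j).le
  · unfold c1; exact Nat.sub_le _ _

theorem card_LL (hA : ∀ j, A j < uu (K + j)) :
    Fintype.card (LL K A) ≤ (K + 1) * (10 ^ 30 * (2 * K + 1) ^ 9) := by
  rw [Fintype.card_sigma]
  calc ∑ j : Fin (K + 1), Fintype.card (LV (XX K j) (c2 K A j) (c1 K A j) (c0 K j))
      ≤ ∑ j : Fin (K + 1), 10 ^ 30 * (2 * K + 1) ^ 9 := by
        refine Finset.sum_le_sum (fun j _ => (card_part hA j).trans ?_)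
        have : tt K j ≤ 2 * K := by unfold tt; omega
        gcongr
    _ = _ := by simp

/-! ### the integer M -/

section M

variable {M : ℕ} {δ : ℝ} (hA : ∀ j, A j < uu (K + j)) (hδ : 0 < δ) (hδ2 : δ ≤ (1 / 2) ^ K)
  (hM : ∑ j : Fin (K + 1), (4 * (PP (K + j) : ℝ) * uu (K + j) * ss (K + j) -
        A j * (PP (K + j) : ℝ) ^ 2 / uu (K + j)) = M + δ)

include hδ hM in
theorem M_le : M ≤ (K + 1) * (4 * (10 ^ 23 * (2 * K + 1) ^ 7)) := by
  have h1 : (M : ℝ) ≤ ∑ j : Fin (K + 1), (4 * (PP (K + j) : ℝ) * uu (K + j) * ss (K + j)) := by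
    calc (M : ℝ) ≤ M + δ := by linarith
      _ = _ := hM.symm
      _ ≤ _ := by
        refine Finset.sum_le_sum (fun j _ => ?_)
        have : (0 : ℝ) ≤ A j * (PP (K + j) : ℝ) ^ 2 / uu (K + j) := by positivity
        linarith
  have h2 : M ≤ ∑ j : Fin (K + 1), 4 * (PP (K + j) * uu (K + j) * ss (K + j)) := by
    have h3 : ((∑ j : Fin (K + 1), 4 * (PP (K + j) * uu (K + j) * ss (K + j)) : ℕ) : ℝ) =
        ∑ j : Fin (K + 1), (4 * (PP (K + j) : ℝ) * uu (K + j) * ss (K + j)) := by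
      push_cast
      exact Finset.sum_congr rfl (fun j _ => by ring)
    rw [← h3] at h1
    exact_mod_cast h1
  refine h2.trans ?_
  calc ∑ j : Fin (K + 1), 4 * (PP (K + j) * uu (K + j) * ss (K + j))
      ≤ ∑ j : Fin (K + 1), 4 * (10 ^ 23 * (2 * K + 1) ^ 7) := by
        refine Finset.sum_le_sum (fun j _ => ?_)
        refine Nat.mul_le_mul_left _ ((pus_le _).trans ?_)
        have : K + (j : ℕ) ≤ 2 * K := by omega
        gcongr
    _ = _ := by simp

include hA hδ2 hM in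
theorem M_ge : 10 ^ 12 * ((K : ℝ) + 1) ^ 2 ≤ M := by
  have hterm : ∀ j : Fin (K + 1), 3 * ((PP (K + j) : ℝ) * uu (K + j) * ss (K + j)) ≤
      4 * (PP (K + j) : ℝ) * uu (K + j) * ss (K + j) -
        A j * (PP (K + j) : ℝ) ^ 2 / uu (K + j) := by
    intro j
    have hu : (0 : ℝ) < uu (K + j) := by exact_mod_cast uu_pos _
    have hp : (0 : ℝ) < PP (K + j) := by exact_mod_cast PP_pos _
    have h1 : (A j : ℝ) ≤ uu (K + j) := by exact_mod_cast (hA j).le
    have h2 : (PP (K + j) : ℝ) ≤ uu (K + j) * ss (K + j) := by exact_mod_cast PP_le _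
    have h3 : (A j : ℝ) * (PP (K + j) : ℝ) ^ 2 / uu (K + j) ≤
        PP (K + j) * uu (K + j) * ss (K + j) := by
      rw [div_le_iff₀ hu]
      calc (A j : ℝ) * (PP (K + j) : ℝ) ^ 2 = A j * PP (K + j) * PP (K + j) := by ring
        _ ≤ uu (K + j) * PP (K + j) * (uu (K + j) * ss (K + j)) := by gcongr
        _ = _ := by ring
    linarith
  have h0 : 3 * ((PP K : ℝ) * uu K * ss K) ≤ M + δ := by
    rw [← hM]
    have h1 := hterm ⟨0, by omega⟩
    simp only [Nat.add_zero] at h1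
    refine h1.trans ?_
    refine Finset.single_le_sum (f := fun j : Fin (K + 1) =>
      (4 * (PP (K + j) : ℝ) * uu (K + j) * ss (K + j) -
        A j * (PP (K + j) : ℝ) ^ 2 / uu (K + j))) (fun j _ => ?_) (Finset.mem_univ
          (⟨0, by omega⟩ : Fin (K + 1)))
    refine le_trans ?_ (hterm j)
    positivity
  have h4 : (10 : ℝ) ^ 12 * ((K : ℝ) + 1) ^ 2 ≤ (PP K : ℝ) * uu K * ss K := by
    exact_mod_cast pus_ge K
  have h5 : δ ≤ 1 := hδ2.trans (pow_le_one₀ (by norm_num) (by norm_num))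
  have h6 : (1 : ℝ) ≤ 10 ^ 12 * ((K : ℝ) + 1) ^ 2 := by
    have : (0 : ℝ) ≤ K := Nat.cast_nonneg K
    nlinarith
  linarith

end M

/-! ### no gain for small n -/

theorem pow_small {x B : ℝ} {n : ℕ} (hx : 0 ≤ x) (hB : 2 ≤ B) (h : 2 * (n * x) * B ≤ 1) :
    (1 + x) ^ n * B ≤ 1 + B := by
  have hz : (n : ℝ) * x ≤ 1 / 4 := by nlinarith [mul_nonneg (Nat.cast_nonneg n) hx]
  have hz0 : 0 ≤ (n : ℝ) * x := mul_nonneg (Nat.cast_nonneg n) hx
  have h1 : (1 + x) ^ n ≤ Real.exp (n * x) := by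
    rw [Real.exp_nat_mul]
    exact pow_le_pow_left₀ (by linarith) (by linarith [Real.add_one_le_exp x]) n
  have h2 : Real.exp (n * x) ≤ 1 + 2 * (n * x) := by
    have h3 := Real.exp_bound_div_one_sub_of_interval hz0 (by linarith)
    refine h3.trans ?_
    rw [div_le_iff₀ (by linarith)]
    nlinarith
  nlinarith

/-- the theorem with explicit parameters -/
theorem main (k : ℕ) : ∃ (V : Type) (_ : Fintype V) (G : SimpleGraph V),
    Fintype.card V ≤ 10 ^ 50 * (k + 1) ^ 10 ∧ (G.indepNum : ℝ) < theta G ∧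
      ∀ n ≤ 2 ^ k, (spow G (Fin n)).indepNum = G.indepNum ^ n := by
  obtain ⟨A, hA, M, δ, hδ, hδ2, hM⟩ := design (3 * k)
  have hMge := M_ge hA hδ2 hM
  have hMle := M_le hδ hM
  have hθ : ∑ c, gL (3 * k) A c = M + δ := by rw [sum_gL hA, hM]
  have hM0 : (0 : ℝ) < M := by
    have : (0 : ℝ) ≤ ((3 * k : ℕ) : ℝ) := Nat.cast_nonneg _
    nlinarith
  have hM0' : 0 < M := by exact_mod_cast hM0
  -- no gain
  have hup : ∀ n ≤ 2 ^ k, (spow (joinE (grD (DL (3 * k) A)) M) (Fin n)).indepNum = M ^ n := by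
    intro n hn
    refine join_bound DL_symm DL_irr M hM0' (M + δ) (by linarith) n (fun Q hQ hne => ?_)
    have hpsi := psi_bound (fL_pos (K := 3 * k) (A := A)) gL_pos kraft_f kraft_g
      (2000 * (((3 * k : ℕ) : ℝ) + 1)) abs_log (bal_log hA) var_log n Q hQ hne
    rw [hθ] at hpsi
    set Ψ := ∑ x ∈ Q, wt (fun _ : LL (3 * k) A => ((M : ℝ) + δ)⁻¹) x with hΨ
    set κ : ℝ := 2000 * (((3 * k : ℕ) : ℝ) + 1) with hκ
    have hκ1 : 1 ≤ κ := by
      have : (0 : ℝ) ≤ ((3 * k : ℕ) : ℝ) := Nat.cast_nonneg _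
      linarith
    set B : ℝ := (n * κ) ^ 2 + 2 * (1 + n * κ) ^ 2 with hB
    have hn0 : (0 : ℝ) ≤ n := Nat.cast_nonneg n
    have hB2 : 2 ≤ B := by
      have : 0 ≤ (n : ℝ) * κ := by positivity
      nlinarith
    have hΨ0 : 0 ≤ Ψ := by
      refine Finset.sum_nonneg (fun x _ => Finset.prod_nonneg (fun i _ => ?_))
      rcases x i with _ | a
      · simp
      · simp only [Option.elim_some]; positivity
    have hratio : ((M : ℝ) + δ) / M = 1 + δ / M := by field_simp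
    rw [hratio]
    have hkey : 2 * (n * (δ / M)) * B ≤ 1 := by
      rcases Nat.eq_zero_or_pos n with h0 | h0
      · subst h0; simp
      · have hn1 : (1 : ℝ) ≤ n := by exact_mod_cast h0
        have hnk : 1 ≤ (n : ℝ) * κ := by nlinarith
        have hB9 : B ≤ 9 * (n * κ) ^ 2 := by
          rw [hB]; nlinarith
        have hn2 : (n : ℝ) ≤ 2 ^ k := by exact_mod_cast hn
        have hn3 : (n : ℝ) ^ 3 * δ ≤ 1 := by
          have h8 : (n : ℝ) ^ 3 ≤ (2 ^ k) ^ 3 := pow_le_pow_left₀ hn0 hn2 3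
          have h9 : ((2 : ℝ) ^ k) ^ 3 * (1 / 2) ^ (3 * k) = 1 := by
            rw [← pow_mul, mul_comm k 3, ← mul_pow]; norm_num
          calc (n : ℝ) ^ 3 * δ ≤ (2 ^ k) ^ 3 * (1 / 2) ^ (3 * k) := by gcongr
            _ = 1 := h9
        have hMκ : 18 * κ ^ 2 ≤ M := by
          rw [hκ]; nlinarith [hMge, sq_nonneg (((3 * k : ℕ) : ℝ) + 1)]
        rw [show 2 * (n * (δ / M)) * B = (2 * n * δ * B) / M by ring, div_le_one hM0]
        calc 2 * n * δ * B ≤ 2 * n * δ * (9 * (n * κ) ^ 2) := by gcongr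
          _ = 18 * κ ^ 2 * ((n : ℝ) ^ 3 * δ) := by ring
          _ ≤ 18 * κ ^ 2 * 1 := by gcongr
          _ ≤ M := by linarith
    have hfin := pow_small (x := δ / M) (by positivity) hB2 hkey
    have hBp : 0 < B := by linarith
    have hP : 0 ≤ (1 + δ / M) ^ n := by positivity
    -- (1+x)^n Ψ ≤ ((1+B)/B) (B/(1+B))
    have h1 : (1 + δ / M) ^ n * Ψ * (B * (1 + B)) ≤ (1 + B) * B := by
      calc (1 + δ / M) ^ n * Ψ * (B * (1 + B)) = ((1 + δ / M) ^ n * B) * (Ψ * (1 + B)) := by ring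
        _ ≤ (1 + B) * B := by
          apply mul_le_mul hfin hpsi
          · positivity
          · linarith
    have h2 : 0 < B * (1 + B) := by positivity
    nlinarith
  have hα : (joinE (grD (DL (3 * k) A)) M).indepNum = M := by
    apply le_antisymm
    · have h1 := pow_le_al_one (joinE (grD (DL (3 * k) A)) M) 1
      have h2 := hup 1 Nat.one_le_two_pow
      rw [al, h2, pow_one, pow_one] at h1
      exact h1
    · exact le_indepNum_joinE _ _
  refine ⟨LL (3 * k) A ⊕ Fin M, inferInstance, joinE (grD (DL (3 * k) A)) M, ?_, ?_, ?_⟩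
  · -- size
    rw [Fintype.card_sum, Fintype.card_fin]
    have h1 := card_LL hA
    have hk : 2 * (3 * k) + 1 ≤ 6 * (k + 1) := by omega
    have hk3 : 3 * k + 1 ≤ 3 * (k + 1) := by omega
    calc Fintype.card (LL (3 * k) A) + M ≤ (3 * k + 1) * (10 ^ 30 * (2 * (3 * k) + 1) ^ 9) +
          (3 * k + 1) * (4 * (10 ^ 23 * (2 * (3 * k) + 1) ^ 7)) := add_le_add h1 hMle
      _ ≤ (3 * (k + 1)) * (10 ^ 30 * (6 * (k + 1)) ^ 9) +
          (3 * (k + 1)) * (4 * (10 ^ 23 * (6 * (k + 1)) ^ 7)) := by gcongr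
      _ = (3 * 10 ^ 30 * 6 ^ 9) * (k + 1) ^ 10 + (3 * 4 * 10 ^ 23 * 6 ^ 7) * (k + 1) ^ 8 := by ring
      _ ≤ (3 * 10 ^ 30 * 6 ^ 9) * (k + 1) ^ 10 + (3 * 4 * 10 ^ 23 * 6 ^ 7) * (k + 1) ^ 10 := by
          gcongr <;> omega
      _ = (3 * 10 ^ 30 * 6 ^ 9 + 3 * 4 * 10 ^ 23 * 6 ^ 7) * (k + 1) ^ 10 := by ring
      _ ≤ 10 ^ 50 * (k + 1) ^ 10 := Nat.mul_le_mul_right _ (by norm_num)
  · -- capacity
    rw [hα]
    have h1 : theta (grD (DL (3 * k) A)) ≤ theta (joinE (grD (DL (3 * k) A)) M) :=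
      theta_le_joinE _ _
    have hne : ∀ j, Nonempty (XX (3 * k) j) := by
      intro j
      rw [← Fintype.card_pos_iff, card_XX]
      exact ss_pos _
    have h2 := lower (XX (3 * k)) (c2 (3 * k) A) (c1 (3 * k) A) (c0 (3 * k))
      (fun _ => DY _) (fun _ => DZ _) (fun _ a b => DYZ a b) (fun _ => DY_irr) (fun _ => DZ_irr)
      (fun j => (PP (tt (3 * k) j) : ℚ) / uu (tt (3 * k) j))
      (fun j => by
        have h1 : (0 : ℚ) < PP (tt (3 * k) j) := by exact_mod_cast PP_pos _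
        have h2 : (0 : ℚ) < uu (tt (3 * k) j) := by exact_mod_cast uu_pos _
        positivity)
      ⟨⟨0, by omega⟩, by
        unfold c0
        have := PP_pos (tt (3 * k) ⟨0, by omega⟩)
        positivity⟩
      (fun j => by
        have h := bal_j hA j
        have hp : (0 : ℚ) < PP (tt (3 * k) j) := by exact_mod_cast PP_pos _
        have hu : (0 : ℚ) < uu (tt (3 * k) j) := by exact_mod_cast uu_pos _
        rw [card_XX]
        have h' : (((2 * (c2 (3 * k) A j : ℚ) * ((PP (tt (3 * k) j) : ℚ) / uu (tt (3 * k) j)) ^ 2 +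
            c1 (3 * k) A j * ((PP (tt (3 * k) j) : ℚ) / uu (tt (3 * k) j))) : ℚ) : ℝ) =
            ((c0 (3 * k) j * ((ss (tt (3 * k) j) : ℚ) /
              ((PP (tt (3 * k) j) : ℚ) / uu (tt (3 * k) j))) : ℚ) : ℝ) := by
          push_cast
          unfold yv zv at h
          rw [h]
          congr 1
          rw [div_div_eq_mul_div]
        exact_mod_cast h')
    have h3 : ∑ c, gL (3 * k) A c ≤ theta (grD (DL (3 * k) A)) := by
      refine le_trans (le_of_eq ?_) h2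
      refine Finset.sum_congr rfl (fun c _ => ?_)
      rcases c with ⟨i, c | c | c⟩ <;> simp only [gL, gA]
      · unfold yv; push_cast; rfl
      · unfold yv; push_cast; rfl
      · unfold zv; rw [card_XX]; push_cast; rw [div_div_eq_mul_div]
    rw [hθ] at h3
    linarith
  · intro n hn
    rw [hα]
    exact hup n hn

end Stall
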