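import Pool.Agent.H.MP_4f19f9_lc.h56.Main

namespace Stall

open Pool.Agent.SC SimpleGraph

/-- Adding twins of a vertex changes neither the independence numbers of the powers nor the
capacity. -/
theorem pad {V : Type} [Fintype V] [Nonempty V] (G : SimpleGraph V) (v : ℕ)
    (h : Fintype.card V ≤ v) : ∃ G' : SimpleGraph (Fin v), theta G ≤ theta G' ∧
      G'.indepNum = G.indepNum ∧
      ∀ n, (spow G' (Fin n)).indepNum = (spow G (Fin n)).indepNum := by
  classical
  have hinj : Nonempty (V ↪ Fin v) := by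
    rw [Function.Embedding.nonempty_iff_card_le, Fintype.card_fin]; exact h
  obtain ⟨ψ⟩ := hinj
  let φ : Fin v → V := Function.invFun ψ
  have hφψ : ∀ x, φ (ψ x) = x := fun x => Function.leftInverse_invFun ψ.injective x
  let G' : SimpleGraph (Fin v) :=
    { Adj := fun a b => a ≠ b ∧ (φ a = φ b ∨ G.Adj (φ a) (φ b))
      symm := ⟨fun a b hab => ⟨hab.1.symm, hab.2.imp Eq.symm (fun e => e.symm)⟩⟩
      loopless := ⟨fun a hab => hab.1 rfl⟩ }
  have h1 : ∀ a b, G'ᶜ.Adj a b → Gᶜ.Adj (φ a) (φ b) := by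
    intro a b hab
    rw [compl_adj] at hab ⊢
    have h2 : ¬ (φ a = φ b ∨ G.Adj (φ a) (φ b)) := fun hh => hab.2 ⟨hab.1, hh⟩
    push Not at h2
    exact h2
  have h2 : ∀ x y, Gᶜ.Adj x y → G'ᶜ.Adj (ψ x) (ψ y) := by
    intro x y hxy
    rw [compl_adj] at hxy ⊢
    refine ⟨fun e => hxy.1 (ψ.injective e), fun hh => ?_⟩
    rcases hh.2 with e | e
    · rw [hφψ, hφψ] at e; exact hxy.1 e
    · rw [hφψ, hφψ] at e; exact hxy.2 e
  refine ⟨G', theta_mono ψ h2, le_antisymm (indepNum_le_of_map φ h1) (indepNum_le_of_map ψ h2),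
    fun n => le_antisymm ?_ ?_⟩
  · exact indepNum_le_of_map (fun x i => φ (x i)) (fun x y hxy => map_spow φ h1 x y hxy)
  · exact indepNum_le_of_map (fun x i => ψ (x i)) (fun x y hxy => map_spow ψ h2 x y hxy)

theorem late_first_gain : ∃ C : ℕ, ∀ k v : ℕ, C * (k + 1) ^ 10 ≤ v →
    ∃ G : SimpleGraph (Fin v), (G.indepNum : ℝ) < theta G ∧
      ∀ n ≤ 2 ^ k, (spow G (Fin n)).indepNum = G.indepNum ^ n := by
  refine ⟨10 ^ 50, fun k v hv => ?_⟩
  obtain ⟨V, hV, G, hc, hlt, hn⟩ := main k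
  have hne : Nonempty V := by
    by_contra hcon
    rw [not_nonempty_iff] at hcon
    have h0 : theta G ≤ 0 := by
      apply theta_le G le_rfl
      intro n
      have : al G (n + 1) = 0 := by
        unfold al
        obtain ⟨C, hC, -⟩ := exists_code (spow G (Fin (n + 1)))
        rw [← hC, Finset.card_eq_zero]
        ext x
        exact (hcon.false (x 0)).elim
      rw [this]; simp
    have : (0 : ℝ) ≤ G.indepNum := Nat.cast_nonneg _
    linarith
  obtain ⟨G', h1, h2, h3⟩ := pad G v (hc.trans hv)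
  refine ⟨G', ?_, fun n hn' => ?_⟩
  · rw [h2]; exact hlt.trans_le h1
  · rw [h3, h2]; exact hn n hn'

end Stall
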