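import Mathlib

namespace Stall

open Finset

/-- The number of functions with given fibre sizes. -/
private theorem Typ_card {C : Type} [Fintype C] [DecidableEq C] {N : ℕ} (k : C → ℕ)
    (J₀ : Fin N → C) (hJ₀ : ∀ c, (univ.filter (fun i => J₀ i = c)).card = k c) :
    (univ.filter (fun J : Fin N → C =>
      ∀ c, (univ.filter (fun i => J i = c)).card = k c)).card *
      ∏ c, (k c).factorial = N.factorial := by
  classical
  obtain ⟨T, hT⟩ : ∃ T, T = univ.filter (fun J : Fin N → C =>
      ∀ c, (univ.filter (fun i => J i = c)).card = k c) := ⟨_, rfl⟩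
  have h1 : (univ : Finset (Equiv.Perm (Fin N))).card = N.factorial := by
    rw [card_univ, Fintype.card_perm, Fintype.card_fin]
  have hmap : ∀ σ ∈ (univ : Finset (Equiv.Perm (Fin N))), J₀ ∘ σ ∈ T := by
    intro σ _
    rw [hT, mem_filter]
    refine ⟨mem_univ _, fun c => ?_⟩
    rw [← hJ₀ c]
    refine card_bij (fun i _ => σ i) ?_ ?_ ?_
    · intro i hi
      rw [mem_filter] at hi ⊢
      exact ⟨mem_univ _, hi.2⟩
    · intro i _ j _ h
      exact σ.injective h
    · intro i hi
      rw [mem_filter] at hi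
      refine ⟨σ.symm i, ?_, ?_⟩
      · rw [mem_filter]
        exact ⟨mem_univ _, by simpa using hi.2⟩
      · simp
  rw [← hT, ← h1, card_eq_sum_card_fiberwise hmap]
  have hstab : (univ.filter (fun σ : Equiv.Perm (Fin N) => J₀ ∘ σ = J₀)).card =
      ∏ c, (k c).factorial := by
    have h2 := DomMulAct.stabilizer_card J₀
    rw [Fintype.card_subtype] at h2
    rw [h2]
    refine prod_congr rfl fun c _ => ?_
    rw [← hJ₀ c, Fintype.card_subtype]
  rw [← smul_eq_mul, ← sum_const]
  refine sum_congr rfl fun J hJ => ?_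
  rw [hT, mem_filter] at hJ
  obtain ⟨σ₀, hσ₀⟩ : ∃ σ₀ : Equiv.Perm (Fin N), J₀ ∘ σ₀ = J := by
    have h3 : ∀ c, Nonempty ({i // J i = c} ≃ {i // J₀ i = c}) := by
      intro c
      refine ⟨Fintype.equivOfCardEq ?_⟩
      rw [Fintype.card_subtype, Fintype.card_subtype, hJ.2 c, hJ₀ c]
    refine ⟨Equiv.ofFiberEquiv fun c => (h3 c).some, ?_⟩
    funext i
    exact Equiv.ofFiberEquiv_map (fun c => (h3 c).some) i
  rw [← hstab]
  refine card_bij (fun τ _ => τ * σ₀) ?_ ?_ ?_
  · intro τ hτ
    rw [mem_filter] at hτ ⊢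
    refine ⟨mem_univ _, ?_⟩
    rw [Equiv.Perm.coe_mul, ← Function.comp_assoc, hτ.2, hσ₀]
  · intro τ _ τ' _ h
    exact mul_right_cancel h
  · intro σ hσ
    rw [mem_filter] at hσ
    refine ⟨σ * σ₀⁻¹, ?_, by simp⟩
    rw [mem_filter]
    refine ⟨mem_univ _, ?_⟩
    rw [Equiv.Perm.coe_mul, ← Function.comp_assoc, hσ.2, ← hσ₀, Function.comp_assoc,
      ← Equiv.Perm.coe_mul, mul_inv_cancel]
    rfl

/-- `t ^ k / k!` is maximal at `k = t`. -/
private theorem Typ_fact (t k : ℕ) : t ^ k * t.factorial ≤ t ^ t * k.factorial := by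
  rcases le_total k t with h | h
  · have h1 : t.factorial = k.factorial * (t - k + k).descFactorial (t - k) := by
      have := Nat.factorial_mul_descFactorial (n := t) (k := t - k) (Nat.sub_le _ _)
      rw [Nat.sub_sub_self h] at this
      rw [Nat.sub_add_cancel h]
      exact this.symm
    have h2 : (t - k + k).descFactorial (t - k) ≤ t ^ (t - k) := by
      rw [Nat.sub_add_cancel h]
      exact Nat.descFactorial_le_pow _ _
    calc t ^ k * t.factorial = t ^ k * (k.factorial * (t - k + k).descFactorial (t - k)) := by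
          rw [← h1]
      _ ≤ t ^ k * (k.factorial * t ^ (t - k)) := by gcongr
      _ = t ^ (k + (t - k)) * k.factorial := by rw [pow_add]; ring
      _ = t ^ t * k.factorial := by rw [Nat.add_sub_cancel' h]
  · have h1 : t.factorial * t ^ (k - t) ≤ k.factorial := by
      have := Nat.factorial_mul_pow_sub_le_factorial h
      exact this
    calc t ^ k * t.factorial = t ^ t * (t.factorial * t ^ (k - t)) := by
          conv_lhs => rw [← Nat.add_sub_cancel' h, pow_add]
          ring
      _ ≤ t ^ t * k.factorial := by gcongr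

/-
PROOF. θ := sum g > 0. Choose N0 > 0 with N0 g c / θ a natural number for all c (N0 = product of
the denominators of the rationals g c / θ). For j let t c = j N0 g c / θ; sum t c = j N0 =: N.
(a) The number of J : Fin N → C with card {i | J i = c} = k c for all c is N!/prod (k c)!.
(b) θ^N = sum over J of prod g (J i); group by the type k of J. At most (N+1)^card C types.
(c) every term is at most the term of t.
-/
theorem exact_type {C : Type} [Fintype C] [DecidableEq C] [Nonempty C] (g : C → ℚ)
    (hg : ∀ c, 0 < g c) :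
    ∃ N0 : ℕ, 0 < N0 ∧ ∀ j : ℕ, ∃ t : C → ℕ,
      (∀ c, (t c : ℚ) * ∑ c', g c' = ((j * N0 : ℕ) : ℚ) * g c) ∧
      (∑ c, g c) ^ (j * N0) ≤ ((j * N0 + 1 : ℕ) : ℚ) ^ (Fintype.card C) *
        ((∏ c, g c ^ t c) *
          ((univ.filter (fun J : Fin (j * N0) → C =>
            ∀ c, (univ.filter (fun i => J i = c)).card = t c)).card : ℚ)) := by
  classical
  obtain ⟨θ, hθ⟩ : ∃ θ : ℚ, θ = ∑ c, g c := ⟨_, rfl⟩
  have hθ0 : 0 < θ := by
    rw [hθ]
    exact sum_pos (fun c _ => hg c) univ_nonempty
  rw [← hθ]
  -- the denominators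
  obtain ⟨N0, hN0⟩ : ∃ N0 : ℕ, N0 = ∏ c, (g c / θ).den := ⟨_, rfl⟩
  have hN0pos : 0 < N0 := by
    rw [hN0]
    exact prod_pos fun c _ => (g c / θ).den_pos
  have hm : ∀ c, ∃ m : ℕ, (m : ℚ) = N0 * (g c / θ) := by
    intro c
    obtain ⟨q, hq⟩ : (g c / θ).den ∣ N0 := by
      rw [hN0]
      exact dvd_prod_of_mem _ (mem_univ c)
    have h1 : 0 ≤ (g c / θ).num := Rat.num_nonneg.2 (div_nonneg (hg c).le hθ0.le)
    refine ⟨q * (g c / θ).num.toNat, ?_⟩
    rw [hq]
    push_cast
    have h2 : (((g c / θ).num.toNat : ℕ) : ℚ) = ((g c / θ).num : ℚ) := by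
      exact_mod_cast Int.toNat_of_nonneg h1
    rw [h2]
    have h3 : ((g c / θ).den : ℚ) * (g c / θ) = (g c / θ).num := Rat.den_mul_eq_num _
    rw [mul_right_comm, h3]
    ring
  choose m hm using hm
  refine ⟨N0, hN0pos, fun j => ⟨fun c => j * m c, fun c => ?_, ?_⟩⟩
  · push_cast
    rw [hm c]
    field_simp
  obtain ⟨N, hN⟩ : ∃ N, N = j * N0 := ⟨_, rfl⟩
  rw [← hN]
  obtain ⟨t, ht⟩ : ∃ t : C → ℕ, t = fun c => j * m c := ⟨_, rfl⟩
  rw [← ht]
  have htg : ∀ c, (t c : ℚ) * θ = (N : ℚ) * g c := by
    intro c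
    rw [ht, hN]
    push_cast
    rw [hm c]
    field_simp
  have htsum : ∑ c, t c = N := by
    have h1 : ((∑ c, t c : ℕ) : ℚ) * θ = N * θ := by
      push_cast
      rw [sum_mul, sum_congr rfl fun c _ => htg c, ← mul_sum, ← hθ]
    have h2 := mul_right_cancel₀ hθ0.ne' h1
    exact_mod_cast h2
  -- the number of functions of a given type
  obtain ⟨A, hA⟩ : ∃ A : (C → ℕ) → ℕ, A = fun k => (univ.filter (fun J : Fin N → C =>
      ∀ c, (univ.filter (fun i => J i = c)).card = k c)).card := ⟨_, rfl⟩
  have hAt : (univ.filter (fun J : Fin N → C =>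
      ∀ c, (univ.filter (fun i => J i = c)).card = t c)).card = A t := by rw [hA]
  rw [hAt]
  -- the weight of a function depends on its type only
  have hweight : ∀ (k : C → ℕ) (J : Fin N → C),
      (∀ c, (univ.filter (fun i => J i = c)).card = k c) → ∏ i, g (J i) = ∏ c, g c ^ k c := by
    intro k J hJ
    rw [← prod_fiberwise_of_maps_to (s := univ) (t := univ) (g := J) (fun i _ => mem_univ _)]
    refine prod_congr rfl fun c _ => ?_
    rw [← hJ c, ← prod_const]
    refine prod_congr rfl fun i hi => ?_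
    rw [(mem_filter.1 hi).2]
  -- every type contributes at most as much as `t`
  have hmax : ∀ k : C → ℕ, (A k : ℚ) * ∏ c, g c ^ k c ≤ (A t : ℚ) * ∏ c, g c ^ t c := by
    intro k
    by_cases hk : A k = 0
    · rw [hk, Nat.cast_zero, zero_mul]
      have h1 : 0 ≤ ∏ c, g c ^ t c := prod_nonneg fun c _ => pow_nonneg (hg c).le _
      positivity
    obtain ⟨J₁, hJ₁⟩ : ∃ J₁ : Fin N → C,
        ∀ c, (univ.filter (fun i => J₁ i = c)).card = k c := by
      rw [hA] at hk
      obtain ⟨J₁, hJ₁⟩ := card_ne_zero.1 hk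
      exact ⟨J₁, (mem_filter.1 hJ₁).2⟩
    have hksum : ∑ c, k c = N := by
      have h1 := card_eq_sum_card_fiberwise (s := (univ : Finset (Fin N))) (t := univ) (f := J₁)
        (fun i _ => mem_univ _)
      rw [card_univ, Fintype.card_fin] at h1
      rw [h1]
      exact sum_congr rfl fun c _ => (hJ₁ c).symm
    obtain ⟨J₂, hJ₂⟩ : ∃ J₂ : Fin N → C,
        ∀ c, (univ.filter (fun i => J₂ i = c)).card = t c := by
      have h1 : Fintype.card (Fin N) = Fintype.card (Σ c, Fin (t c)) := by
        rw [Fintype.card_sigma, Fintype.card_fin]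
        simp only [Fintype.card_fin]
        exact htsum.symm
      let e := Fintype.equivOfCardEq h1
      refine ⟨fun i => (e i).1, fun c => ?_⟩
      have h2 : (univ.filter (fun i : Fin N => (e i).1 = c)).card =
          (univ : Finset (Fin (t c))).card := by
        symm
        refine card_bij (fun x _ => e.symm ⟨c, x⟩) ?_ ?_ ?_
        · intro x _
          rw [mem_filter]
          exact ⟨mem_univ _, by simp⟩
        · intro x _ y _ h
          have := e.symm.injective h
          simpa using this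
        · intro i hi
          rw [mem_filter] at hi
          obtain ⟨-, hi⟩ := hi
          refine ⟨Fin.cast (by rw [hi]) (e i).2, mem_univ _, ?_⟩
          rw [Equiv.symm_apply_eq]
          generalize e i = s at hi
          obtain ⟨c', x⟩ := s
          subst hi
          rfl
      rw [h2, card_univ, Fintype.card_fin]
    have hAk := Typ_card k J₁ hJ₁
    have hAt' := Typ_card t J₂ hJ₂
    have hAk' : A k * ∏ c, (k c).factorial = N.factorial := by rw [hA]; exact hAk
    have hAt'' : A t * ∏ c, (t c).factorial = N.factorial := by rw [hA]; exact hAt'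
    by_cases hN0' : N = 0
    · -- only one type
      have h1 : k = t := by
        funext c
        have h2 : k c ≤ ∑ c, k c := single_le_sum (fun _ _ => Nat.zero_le _) (mem_univ c)
        have h3 : t c ≤ ∑ c, t c := single_le_sum (fun _ _ => Nat.zero_le _) (mem_univ c)
        rw [hksum] at h2
        rw [htsum] at h3
        omega
      rw [h1]
    have hNq : (0 : ℚ) < N := by exact_mod_cast Nat.pos_of_ne_zero hN0'
    have hgc : ∀ c, g c = t c * (θ / N) := by
      intro c
      have := htg c
      field_simp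
      linarith
    have hprod : ∀ k : C → ℕ, ∑ c, k c = N →
        ∏ c, g c ^ k c = (∏ c, (t c : ℚ) ^ k c) * (θ / N) ^ N := by
      intro k hk
      rw [← hk, ← prod_pow_eq_pow_sum, ← prod_mul_distrib]
      refine prod_congr rfl fun c _ => ?_
      conv_lhs => rw [hgc c, mul_pow]
      rw [hk]
    rw [hprod k hksum, hprod t htsum, ← mul_assoc, ← mul_assoc]
    refine mul_le_mul_of_nonneg_right ?_ (pow_nonneg (div_nonneg hθ0.le hNq.le) _)
    have h3 : (∏ c, t c ^ k c) * ∏ c, (t c).factorial ≤
        (∏ c, t c ^ t c) * ∏ c, (k c).factorial := by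
      rw [← prod_mul_distrib, ← prod_mul_distrib]
      exact prod_le_prod' fun c _ => Typ_fact (t c) (k c)
    have hfk : 0 < ∏ c, (k c).factorial := prod_pos fun c _ => Nat.factorial_pos _
    have hft : 0 < ∏ c, (t c).factorial := prod_pos fun c _ => Nat.factorial_pos _
    have h4 : A k * (∏ c, t c ^ k c) ≤ A t * ∏ c, t c ^ t c := by
      refine Nat.le_of_mul_le_mul_right ?_ (Nat.mul_pos hfk hft)
      calc A k * (∏ c, t c ^ k c) * ((∏ c, (k c).factorial) * ∏ c, (t c).factorial)
          = (A k * ∏ c, (k c).factorial) * ((∏ c, t c ^ k c) * ∏ c, (t c).factorial) := by ring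
        _ ≤ (A k * ∏ c, (k c).factorial) * ((∏ c, t c ^ t c) * ∏ c, (k c).factorial) := by
            gcongr
        _ = (A t * ∏ c, (t c).factorial) * ((∏ c, t c ^ t c) * ∏ c, (k c).factorial) := by
            rw [hAk', hAt'']
        _ = A t * (∏ c, t c ^ t c) * ((∏ c, (k c).factorial) * ∏ c, (t c).factorial) := by ring
    exact_mod_cast h4
  -- group by types
  have hexp : θ ^ N = ∑ J : Fin N → C, ∏ i, g (J i) := by
    rw [hθ, ← Fin.prod_const, prod_univ_sum]
    refine sum_congr ?_ fun J _ => rfl
    ext J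
    simp
  have hmaps : ∀ J ∈ (univ : Finset (Fin N → C)),
      (fun c => (univ.filter (fun i => J i = c)).card) ∈
        Fintype.piFinset fun _ : C => range (N + 1) := by
    intro J _
    rw [Fintype.mem_piFinset]
    intro c
    rw [mem_range, Nat.lt_succ_iff]
    refine (card_filter_le _ _).trans ?_
    rw [card_univ, Fintype.card_fin]
  rw [hexp, ← sum_fiberwise_of_maps_to hmaps]
  have hbound : ∀ k ∈ Fintype.piFinset fun _ : C => range (N + 1),
      ∑ J ∈ univ.filter (fun J : Fin N → C =>
        (fun c => (univ.filter (fun i => J i = c)).card) = k), ∏ i, g (J i) ≤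
      (∏ c, g c ^ t c) * (A t : ℚ) := by
    intro k _
    have h1 : ∑ J ∈ univ.filter (fun J : Fin N → C =>
        (fun c => (univ.filter (fun i => J i = c)).card) = k), ∏ i, g (J i) =
        (A k : ℚ) * ∏ c, g c ^ k c := by
      have h2 : univ.filter (fun J : Fin N → C =>
          (fun c => (univ.filter (fun i => J i = c)).card) = k) =
          univ.filter (fun J : Fin N → C =>
            ∀ c, (univ.filter (fun i => J i = c)).card = k c) := by
        refine filter_congr fun J _ => ?_
        exact funext_iff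
      rw [h2, sum_congr rfl fun J hJ => hweight k J (mem_filter.1 hJ).2, sum_const,
        nsmul_eq_mul, hA]
    rw [h1, mul_comm (∏ c, g c ^ t c)]
    exact hmax k
  refine (sum_le_sum hbound).trans ?_
  rw [sum_const, Fintype.card_piFinset, nsmul_eq_mul]
  simp only [card_range, prod_const, card_univ]
  push_cast
  exact le_rfl

end Stall
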